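import Mathlib
import Pool.Agent.H789R2.FR.Weak
set_option autoImplicit false

/-! # Extension estimate on balls: `L^2(sphere) → L^P(ball)`, `2 < P < 2(n+1)/(n-1)` -/

namespace Pool.Agent.Y248.BA

open MeasureTheory Set Metric Complex Filter
open scoped ENNReal RealInnerProductSpace Topology
open Pool.Agent.H789R2.FR (E sg T sg_finite L2_bound weak)

theorem T_meas {n : ℕ} {g : E n → ℂ} (hg : Measurable g) : Measurable (T g) := by
  have := sg_finite n
  have h1 : StronglyMeasurable fun p : E n × E n =>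
      Complex.exp (-((⟪p.1, p.2⟫ : ℝ) : ℂ) * I) * g p.2 := by
    apply Measurable.stronglyMeasurable
    exact (by fun_prop : Continuous fun p : E n × E n =>
      Complex.exp (-((⟪p.1, p.2⟫ : ℝ) : ℂ) * I)).measurable.mul (hg.comp measurable_snd)
  have h2 : StronglyMeasurable fun x => ∫ w, Complex.exp (-((⟪x, w⟫ : ℝ) : ℂ) * I) * g w ∂(sg n) :=
    h1.integral_prod_right'
  exact h2.measurable

theorem T_bdd {n : ℕ} {g : E n → ℂ} {M : ℝ} (hM : ∀ x, ‖g x‖ ≤ M) (x : E n) :
    ‖T g x‖ ≤ M * (sg n).real univ := by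
  have := sg_finite n
  unfold T
  apply norm_integral_le_of_norm_le_const
  refine Filter.Eventually.of_forall fun w => ?_
  rw [norm_mul]
  have : ‖Complex.exp (-((⟪x, w⟫ : ℝ) : ℂ) * I)‖ = 1 := by
    rw [← Complex.ofReal_neg, Complex.norm_exp_ofReal_mul_I]
  rw [this, one_mul]
  exact hM w

/-- a tail integral -/
theorem lint_tail (a s : ℝ) (ha : 0 < a) (hs : s < -1) :
    ∫⁻ t in Ioi a, ENNReal.ofReal (t ^ s) = ENNReal.ofReal (a ^ (s + 1) / (-(s + 1))) := by
  rw [← ofReal_integral_eq_lintegral_ofReal (integrableOn_Ioi_rpow_of_lt hs ha)]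
  · rw [integral_Ioi_rpow_of_lt hs ha]
    congr 1
    rw [neg_div, div_neg]
  · filter_upwards [ae_restrict_mem measurableSet_Ioi] with t ht
    exact Real.rpow_nonneg (ha.le.trans (le_of_lt ht)) _

/-- level sets -/
theorem level (n : ℕ) (hn : 2 ≤ n) : ∃ C : ℝ, 0 < C ∧ ∀ g : E n → ℂ, Measurable g →
    (∃ M : ℝ, ∀ x, ‖g x‖ ≤ M) → ∀ v : E n, ∀ ρ : ℝ, ∀ t : ℝ, 0 < t →
    volume (closedBall v ρ ∩ {x | t < ‖T g x‖}) ≤
      ENNReal.ofReal (C * ((∫ w, ‖g w‖ ^ 2 ∂(sg n)) / t ^ 2) ^ (((n : ℝ) + 1) / ((n : ℝ) - 1))) := by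
  obtain ⟨C, hC, h⟩ := weak n hn
  refine ⟨C, hC, fun g hg hM v ρ t ht => ?_⟩
  have hms : MeasurableSet {x | t < ‖T g x‖} := measurableSet_lt measurable_const (T_meas hg).norm
  have hb : Bornology.IsBounded (closedBall v ρ ∩ {x | t < ‖T g x‖}) :=
    isBounded_closedBall.subset inter_subset_left
  have h1 := h g hg hM t ht (closedBall v ρ ∩ {x | t < ‖T g x‖})
    (isClosed_closedBall.measurableSet.inter hms) hb (fun x hx => le_of_lt hx.2)
  have hfin : volume (closedBall v ρ ∩ {x | t < ‖T g x‖}) ≠ ⊤ :=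
    ((measure_mono inter_subset_left).trans_lt measure_closedBall_lt_top).ne
  rw [← ENNReal.ofReal_toReal hfin]
  exact ENNReal.ofReal_le_ofReal h1

/-- the `L^2` bound on balls -/
theorem l2ball (n : ℕ) (hn : 2 ≤ n) : ∃ C : ℝ, 0 < C ∧ ∀ g : E n → ℂ, Measurable g →
    (∃ M : ℝ, ∀ x, ‖g x‖ ≤ M) → ∀ v : E n, ∀ ρ : ℝ, 0 < ρ →
    ∫⁻ x in closedBall v ρ, ENNReal.ofReal (‖T g x‖ ^ 2) ≤
      ENNReal.ofReal (C * ρ * ∫ w, ‖g w‖ ^ 2 ∂(sg n)) := by
  obtain ⟨C, hC, h⟩ := L2_bound n hn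
  refine ⟨Real.exp 1 * C, by positivity, fun g hg hM v ρ hρ => ?_⟩
  have h1 := h g hg hM ρ hρ v
  obtain ⟨M, hM⟩ := hM
  have hTm := T_meas hg
  have hint : Integrable fun x : E n => Real.exp (-‖x - v‖ ^ 2 / ρ ^ 2) * ‖T g x‖ ^ 2 := by
    have hG : Integrable fun x : E n => Real.exp (-‖x - v‖ ^ 2 / ρ ^ 2) := by
      have := (GaussianFourier.integrable_cexp_neg_mul_sq_norm_add (V := E n) (b := (1 / ρ ^ 2 : ℂ))
        (by
          have : (1 / (ρ : ℂ) ^ 2) = ((1 / ρ ^ 2 : ℝ) : ℂ) := by push_cast; rfl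
          rw [this, Complex.ofReal_re]; positivity) 0 0).norm
      have h2 : Integrable fun x : E n => Real.exp (-‖x‖ ^ 2 / ρ ^ 2) := by
        refine this.congr (Eventually.of_forall fun x => ?_)
        simp only [Complex.norm_exp]
        congr 1
        have : (-(1 / (ρ : ℂ) ^ 2) * (‖x‖ : ℂ) ^ 2 + 0 * ((⟪(0 : E n), x⟫ : ℝ) : ℂ)) =
          ((-‖x‖ ^ 2 / ρ ^ 2 : ℝ) : ℂ) := by
          push_cast; ring
        rw [this, Complex.ofReal_re]
      exact h2.comp_sub_right v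
    refine hG.mul_bdd (c := (M * (sg n).real univ) ^ 2) (hTm.norm.pow_const 2).aestronglyMeasurable
      (Eventually.of_forall fun x => ?_)
    rw [norm_pow, norm_norm]
    exact pow_le_pow_left₀ (norm_nonneg _) (T_bdd hM x) 2
  calc ∫⁻ x in closedBall v ρ, ENNReal.ofReal (‖T g x‖ ^ 2)
      ≤ ∫⁻ x in closedBall v ρ, ENNReal.ofReal (Real.exp 1) *
          ENNReal.ofReal (Real.exp (-‖x - v‖ ^ 2 / ρ ^ 2) * ‖T g x‖ ^ 2) := by
        refine setLIntegral_mono' isClosed_closedBall.measurableSet fun x hx => ?_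
        rw [← ENNReal.ofReal_mul (Real.exp_pos 1).le]
        refine ENNReal.ofReal_le_ofReal ?_
        rw [← mul_assoc, ← Real.exp_add]
        have hx' : ‖x - v‖ ≤ ρ := by rwa [mem_closedBall, dist_eq_norm] at hx
        have h3 : ‖x - v‖ ^ 2 / ρ ^ 2 ≤ 1 := by
          rw [div_le_one (by positivity)]
          exact pow_le_pow_left₀ (norm_nonneg _) hx' 2
        have h4 : 1 ≤ Real.exp (1 + -‖x - v‖ ^ 2 / ρ ^ 2) := by
          apply Real.one_le_exp
          rw [neg_div]; linarith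
        nlinarith [sq_nonneg ‖T g x‖]
    _ ≤ ∫⁻ x, ENNReal.ofReal (Real.exp 1) *
          ENNReal.ofReal (Real.exp (-‖x - v‖ ^ 2 / ρ ^ 2) * ‖T g x‖ ^ 2) :=
        setLIntegral_le_lintegral _ _
    _ = ENNReal.ofReal (Real.exp 1) *
          ENNReal.ofReal (∫ x, Real.exp (-‖x - v‖ ^ 2 / ρ ^ 2) * ‖T g x‖ ^ 2) := by
        rw [lintegral_const_mul' _ _ ENNReal.ofReal_ne_top, ofReal_integral_eq_lintegral_ofReal hint
          (Eventually.of_forall fun x => by positivity)]
    _ ≤ _ := by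
        rw [← ENNReal.ofReal_mul (Real.exp_pos 1).le]
        refine ENNReal.ofReal_le_ofReal ?_
        calc _ ≤ Real.exp 1 * (C * ρ * ∫ w, ‖g w‖ ^ 2 ∂(sg n)) := by gcongr
          _ = _ := by ring

theorem T_zero {n : ℕ} {g : E n → ℂ} (hg : Measurable g) (hM : ∃ M : ℝ, ∀ x, ‖g x‖ ≤ M)
    (h : ∫ w, ‖g w‖ ^ 2 ∂(sg n) = 0) (x : E n) : T g x = 0 := by
  have := sg_finite n
  obtain ⟨M, hM⟩ := hM
  have hM0 : 0 ≤ M := (norm_nonneg _).trans (hM 0)
  have hi : Integrable (fun w => ‖g w‖ ^ 2) (sg n) :=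
    Integrable.of_bound (hg.norm.pow_const 2).aestronglyMeasurable (M ^ 2)
      (Eventually.of_forall fun w => by
        rw [norm_pow, norm_norm]
        exact pow_le_pow_left₀ (norm_nonneg _) (hM w) 2)
  have h1 := (integral_eq_zero_iff_of_nonneg (fun w => by positivity) hi).1 h
  unfold T
  rw [integral_eq_zero_of_ae]
  filter_upwards [h1] with w hw
  have : ‖g w‖ = 0 := by simpa using hw
  rw [norm_eq_zero] at this
  rw [this, mul_zero]
  rfl

/-- **Extension estimate on balls.** -/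
theorem ext (n : ℕ) (hn : 2 ≤ n) (P : ℝ) (hP2 : 2 < P)
    (hP : P < 2 * ((n : ℝ) + 1) / ((n : ℝ) - 1)) : ∃ C : ℝ, 0 < C ∧ ∀ g : E n → ℂ, Measurable g →
    (∃ M : ℝ, ∀ x, ‖g x‖ ≤ M) → ∀ v : E n, ∀ ρ : ℝ, 0 < ρ →
    ∫⁻ x in closedBall v ρ, ENNReal.ofReal (‖T g x‖ ^ P) ≤
      ENNReal.ofReal (C * ρ ^ (1 - ((n : ℝ) - 1) * (P - 2) / 4) *
        (∫ w, ‖g w‖ ^ 2 ∂(sg n)) ^ (P / 2)) := by
  obtain ⟨C1, hC1, h1⟩ := level n hn
  obtain ⟨C2, hC2, h2⟩ := l2ball n hn
  have hn' : (2 : ℝ) ≤ n := by exact_mod_cast hn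
  have hn1 : 0 < (n : ℝ) - 1 := by linarith
  set q : ℝ := ((n : ℝ) + 1) / ((n : ℝ) - 1) with hq
  have hP2q : P < 2 * q := by rw [hq, ← mul_div_assoc]; exact hP
  have hP0 : 0 < P := by linarith
  have hq0 : 0 < 2 * q - P := by linarith
  refine ⟨C2 + (C1 + P * (C1 * (1 / (2 * q - P)))), by positivity, fun g hg hM v ρ hρ => ?_⟩
  set H : ℝ := ∫ w, ‖g w‖ ^ 2 ∂(sg n) with hH
  have hH0 : 0 ≤ H := integral_nonneg fun w => by positivity
  rcases hH0.eq_or_lt with h0 | hHpos
  · have : ∀ x, T g x = 0 := fun x => T_zero hg hM (by rw [← hH, ← h0]) x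
    simp only [this, norm_zero, Real.zero_rpow hP0.ne', ENNReal.ofReal_zero, lintegral_zero]
    exact zero_le
  have hTm := T_meas hg
  set a : ℝ := H ^ (1 / 2 : ℝ) * ρ ^ (-(((n : ℝ) - 1) / 4)) with ha
  have ha0 : 0 < a := by positivity
  have hρ' : ∀ s : ℝ, 0 < ρ ^ s := fun s => Real.rpow_pos_of_pos hρ _
  have hH' : ∀ s : ℝ, 0 < H ^ s := fun s => Real.rpow_pos_of_pos hHpos _
  have hapow : ∀ s : ℝ, a ^ s = H ^ (s / 2) * ρ ^ (-(((n : ℝ) - 1) * s / 4)) := by
    intro s
    rw [ha, Real.mul_rpow (by positivity) (by positivity), ← Real.rpow_mul hH0,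
      ← Real.rpow_mul hρ.le]
    congr 2 <;> ring
  set B : Set (E n) := closedBall v ρ with hB
  have hBm : MeasurableSet B := isClosed_closedBall.measurableSet
  -- the function above the level `a`
  set φ : E n → ℝ := (B ∩ {x | a < ‖T g x‖}).indicator fun x => ‖T g x‖ with hφ
  have hSm : MeasurableSet (B ∩ {x | a < ‖T g x‖}) :=
    hBm.inter (measurableSet_lt measurable_const hTm.norm)
  have hφm : Measurable φ := hTm.norm.indicator hSm
  have hφ0 : ∀ x, 0 ≤ φ x := fun x => indicator_nonneg (fun x _ => norm_nonneg _) x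
  have hsplit : ∀ x, B.indicator (fun x => ENNReal.ofReal (‖T g x‖ ^ P)) x ≤
      ENNReal.ofReal (a ^ (P - 2)) * B.indicator (fun x => ENNReal.ofReal (‖T g x‖ ^ 2)) x +
        ENNReal.ofReal (φ x ^ P) := by
    intro x
    by_cases hx : x ∈ B
    · rw [indicator_of_mem hx, indicator_of_mem hx]
      by_cases hxa : a < ‖T g x‖
      · have : φ x = ‖T g x‖ := indicator_of_mem (show x ∈ B ∩ {x | a < ‖T g x‖} from ⟨hx, hxa⟩) _
        rw [this]
        exact le_add_self
      · push Not at hxa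
        refine le_add_right ?_
        rw [← ENNReal.ofReal_mul (by positivity)]
        refine ENNReal.ofReal_le_ofReal ?_
        rcases (norm_nonneg (T g x)).eq_or_lt with h | h
        · rw [← h, Real.zero_rpow hP0.ne']; positivity
        · calc ‖T g x‖ ^ P = ‖T g x‖ ^ (P - 2) * ‖T g x‖ ^ 2 := by
                rw [← Real.rpow_natCast, ← Real.rpow_add h]; congr 1; push_cast; ring
            _ ≤ a ^ (P - 2) * ‖T g x‖ ^ 2 := by gcongr
    · rw [indicator_of_notMem hx]
      exact zero_le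
  have hlev : ∀ t : ℝ, 0 < t → volume {x | t < φ x} ≤
      ENNReal.ofReal (C1 * H ^ q * (max a t) ^ (-(2 * q))) := by
    intro t ht
    have hmx : 0 < max a t := lt_max_of_lt_left ha0
    have hsub : {x | t < φ x} ⊆ B ∩ {x | max a t < ‖T g x‖} := by
      intro x hx
      have hx' : t < φ x := hx
      by_cases hxs : x ∈ B ∩ {x | a < ‖T g x‖}
      · rw [hφ, indicator_of_mem hxs] at hx'
        exact ⟨hxs.1, max_lt hxs.2 hx'⟩
      · rw [hφ, indicator_of_notMem hxs] at hx'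
        exact absurd hx' (not_lt.2 ht.le)
    refine (measure_mono hsub).trans ((h1 g hg hM v ρ (max a t) hmx).trans ?_)
    refine ENNReal.ofReal_le_ofReal (le_of_eq ?_)
    rw [← hH, Real.div_rpow hH0 (by positivity), ← Real.rpow_natCast (max a t) 2,
      ← Real.rpow_mul hmx.le, Real.rpow_neg hmx.le, div_eq_mul_inv, mul_assoc]
    norm_num
  have hlayer := lintegral_rpow_eq_lintegral_meas_lt_mul (volume : Measure (E n))
    (f := φ) (Eventually.of_forall hφ0) hφm.aemeasurable hP0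
  have hsmall : ∫⁻ t in Ioc (0 : ℝ) a, volume {x | t < φ x} * ENNReal.ofReal (t ^ (P - 1)) ≤
      ENNReal.ofReal (C1 * H ^ q * a ^ (-(2 * q)) * (a ^ P / P)) := by
    calc _ ≤ ∫⁻ t in Ioc (0 : ℝ) a, ENNReal.ofReal (C1 * H ^ q * a ^ (-(2 * q))) *
          ENNReal.ofReal (t ^ (P - 1)) := by
          refine setLIntegral_mono' measurableSet_Ioc fun t ht => ?_
          gcongr
          have := hlev t ht.1
          rwa [max_eq_left ht.2] at this
      _ = _ := by
          rw [lintegral_const_mul' _ _ ENNReal.ofReal_ne_top]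
          have hi : IntegrableOn (fun t : ℝ => t ^ (P - 1)) (Ioc 0 a) := by
            have := intervalIntegral.intervalIntegrable_rpow' (a := 0) (b := a) (r := P - 1)
              (by linarith)
            rwa [intervalIntegrable_iff_integrableOn_Ioc_of_le ha0.le] at this
          rw [← ofReal_integral_eq_lintegral_ofReal hi
            (by
              filter_upwards [ae_restrict_mem measurableSet_Ioc] with t ht
              exact Real.rpow_nonneg ht.1.le _),
            ← ENNReal.ofReal_mul (by positivity)]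
          congr 2
          rw [← intervalIntegral.integral_of_le ha0.le, integral_rpow (Or.inl (by linarith)),
            sub_add_cancel, Real.zero_rpow hP0.ne', sub_zero]
  have hlarge : ∫⁻ t in Ioi a, volume {x | t < φ x} * ENNReal.ofReal (t ^ (P - 1)) ≤
      ENNReal.ofReal (C1 * H ^ q * (a ^ (P - 2 * q) / (2 * q - P))) := by
    calc _ ≤ ∫⁻ t in Ioi a, ENNReal.ofReal (C1 * H ^ q) *
          ENNReal.ofReal (t ^ (P - 2 * q - 1)) := by
          refine setLIntegral_mono' measurableSet_Ioi fun t ht => ?_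
          have ht' : a < t := ht
          have ht0 : 0 < t := ha0.trans ht'
          have := hlev t ht0
          rw [max_eq_right ht'.le] at this
          calc volume {x | t < φ x} * ENNReal.ofReal (t ^ (P - 1))
              ≤ ENNReal.ofReal (C1 * H ^ q * t ^ (-(2 * q))) * ENNReal.ofReal (t ^ (P - 1)) := by
                gcongr
            _ = _ := by
                rw [← ENNReal.ofReal_mul (by positivity), ← ENNReal.ofReal_mul (by positivity),
                  mul_assoc, ← Real.rpow_add ht0]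
                congr 3
                ring
      _ = _ := by
          rw [lintegral_const_mul' _ _ ENNReal.ofReal_ne_top, lint_tail a _ ha0 (by linarith),
            ← ENNReal.ofReal_mul (by positivity)]
          congr 3
          · congr 1; ring
          · ring
  have hbig : ∫⁻ x, ENNReal.ofReal (φ x ^ P) ≤
      ENNReal.ofReal ((C1 + P * (C1 * (1 / (2 * q - P)))) * (H ^ q * a ^ (P - 2 * q))) := by
    rw [hlayer, ← Ioc_union_Ioi_eq_Ioi ha0.le, lintegral_union measurableSet_Ioi (by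
      rw [Set.disjoint_left]; intro t ht ht'; exact absurd ht.2 (not_le.2 ht'))]
    refine (mul_le_mul_right (add_le_add hsmall hlarge) _).trans ?_
    rw [← ENNReal.ofReal_add (by positivity) (by positivity), ← ENNReal.ofReal_mul hP0.le]
    refine ENNReal.ofReal_le_ofReal (le_of_eq ?_)
    have e1 : a ^ (-(2 * q)) * (a ^ P / P) = a ^ (P - 2 * q) / P := by
      rw [← mul_div_assoc, ← Real.rpow_add ha0]; congr 2; ring
    rw [mul_assoc _ (a ^ (-(2 * q))), e1]
    field_simp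
  have hfirst : ∫⁻ x, ENNReal.ofReal (a ^ (P - 2)) *
      B.indicator (fun x => ENNReal.ofReal (‖T g x‖ ^ 2)) x ≤
      ENNReal.ofReal (C2 * (a ^ (P - 2) * (ρ * H))) := by
    rw [lintegral_const_mul' _ _ ENNReal.ofReal_ne_top, lintegral_indicator hBm]
    refine (mul_le_mul_right (h2 g hg hM v ρ hρ) _).trans ?_
    rw [← ENNReal.ofReal_mul (by positivity)]
    refine ENNReal.ofReal_le_ofReal (le_of_eq ?_)
    rw [← hH]; ring
  have e2 : a ^ (P - 2) * (ρ * H) = ρ ^ (1 - ((n : ℝ) - 1) * (P - 2) / 4) * H ^ (P / 2) := by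
    rw [hapow]
    have h3 : H ^ ((P - 2) / 2) * H = H ^ (P / 2) := by
      nth_rewrite 2 [← Real.rpow_one H]
      rw [← Real.rpow_add hHpos]; congr 1; ring
    have h4 : ρ ^ (-(((n : ℝ) - 1) * (P - 2) / 4)) * ρ = ρ ^ (1 - ((n : ℝ) - 1) * (P - 2) / 4) := by
      nth_rewrite 2 [← Real.rpow_one ρ]
      rw [← Real.rpow_add hρ]; congr 1; ring
    calc _ = (H ^ ((P - 2) / 2) * H) * (ρ ^ (-(((n : ℝ) - 1) * (P - 2) / 4)) * ρ) := by ring
      _ = _ := by rw [h3, h4, mul_comm]
  have e3 : H ^ q * a ^ (P - 2 * q) = ρ ^ (1 - ((n : ℝ) - 1) * (P - 2) / 4) * H ^ (P / 2) := by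
    rw [hapow, ← mul_assoc, ← Real.rpow_add hHpos, mul_comm]
    congr 2
    · rw [hq]; field_simp; ring
    · ring
  calc ∫⁻ x in B, ENNReal.ofReal (‖T g x‖ ^ P)
      = ∫⁻ x, B.indicator (fun x => ENNReal.ofReal (‖T g x‖ ^ P)) x := (lintegral_indicator hBm _).symm
    _ ≤ ∫⁻ x, (ENNReal.ofReal (a ^ (P - 2)) *
          B.indicator (fun x => ENNReal.ofReal (‖T g x‖ ^ 2)) x + ENNReal.ofReal (φ x ^ P)) :=
        lintegral_mono hsplit
    _ = (∫⁻ x, ENNReal.ofReal (a ^ (P - 2)) *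
          B.indicator (fun x => ENNReal.ofReal (‖T g x‖ ^ 2)) x) +
          ∫⁻ x, ENNReal.ofReal (φ x ^ P) := by
        rw [lintegral_add_right]
        exact (hφm.pow_const P).ennreal_ofReal
    _ ≤ ENNReal.ofReal (C2 * (a ^ (P - 2) * (ρ * H))) +
          ENNReal.ofReal ((C1 + P * (C1 * (1 / (2 * q - P)))) * (H ^ q * a ^ (P - 2 * q))) :=
        add_le_add hfirst hbig
    _ = _ := by
        rw [← ENNReal.ofReal_add (by positivity) (by positivity), e2, e3]
        congr 1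
        ring

end Pool.Agent.Y248.BA
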