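import Mathlib
import Pool.Agent.Y248.BA.Ext
import Pool.Agent.Helper390.CovarioA
set_option autoImplicit false

/-! # Restriction estimate for functions supported in balls -/

namespace Pool.Agent.Y248.BA

open MeasureTheory Set Metric Complex Filter
open scoped ENNReal RealInnerProductSpace Topology FourierTransform
open Pool.Agent.H789R2.FR (E sg T sg_finite)

/-- the gain `τ = 1 - (n-1)(P-2)/4` -/
noncomputable def tau (n : ℕ) (P : ℝ) : ℝ := 1 - ((n : ℝ) - 1) * (P - 2) / 4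

theorem four_eq {n : ℕ} (h : E n → ℂ) (ξ : E n) :
    𝓕 h ξ = ∫ x, Complex.exp (((-2 * Real.pi * ⟪x, ξ⟫ : ℝ) : ℂ) * I) * h x := by
  rw [Real.fourier_eq']
  simp only [smul_eq_mul]

theorem four_bdd {n : ℕ} (h : E n → ℂ) (ξ : E n) : ‖𝓕 h ξ‖ ≤ ∫ x, ‖h x‖ := by
  rw [four_eq]
  refine (norm_integral_le_integral_norm _).trans (le_of_eq ?_)
  congr 1; funext x
  rw [norm_mul, Complex.norm_exp_ofReal_mul_I, one_mul]

theorem four_cont {n : ℕ} {h : E n → ℂ} (hh : Integrable h) : Continuous (𝓕 h) :=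
  VectorFourier.fourierIntegral_continuous Real.continuous_fourierChar continuous_inner hh

/-- bounded measurable functions vanishing off a ball are integrable -/
theorem integrable_ball {n : ℕ} {h : E n → ℂ} (hm : Measurable h) (hb : ∃ M : ℝ, ∀ x, ‖h x‖ ≤ M)
    {v : E n} {ρ : ℝ} (hs : ∀ x, x ∉ closedBall v ρ → h x = 0) : Integrable h := by
  obtain ⟨M, hM⟩ := hb
  have h1 : IntegrableOn h (closedBall v ρ) :=
    Measure.integrableOn_of_bounded (M := M) measure_closedBall_lt_top.ne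
      hm.aestronglyMeasurable (Eventually.of_forall fun x => hM x)
  exact h1.integrable_of_forall_notMem_eq_zero hs

/-- the square integral over the sphere as a pairing -/
theorem pairing {n : ℕ} {h : E n → ℂ} (hm : Measurable h) (hb : ∃ M : ℝ, ∀ x, ‖h x‖ ≤ M)
    {v : E n} {ρ : ℝ} (hs : ∀ x, x ∉ closedBall v ρ → h x = 0) (r : ℝ) :
    ((∫ w, ‖𝓕 h (r • w)‖ ^ 2 ∂(sg n) : ℝ) : ℂ) =
      ∫ x, (starRingEnd ℂ) (h x) * T (fun w => 𝓕 h (r • w)) ((-(2 * Real.pi * r)) • x) := by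
  have := sg_finite n
  have hi := integrable_ball hm hb hs
  have hc := four_cont hi
  have hbd := four_bdd h
  set g : E n → ℂ := fun w => 𝓕 h (r • w) with hg
  have hgc : Continuous g := hc.comp (continuous_const_smul r)
  have hgb : ∀ w, ‖g w‖ ≤ ∫ x, ‖h x‖ := fun w => hbd _
  have hint : Integrable (fun z : E n × E n => ((starRingEnd ℂ) (h z.1) *
      (Complex.exp (-((⟪(-(2 * Real.pi * r)) • z.1, z.2⟫ : ℝ) : ℂ) * I) * g z.2)))
      ((volume : Measure (E n)).prod (sg n)) := by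
    have h1 : Integrable (fun z : E n × E n => h z.1 * (1 : ℂ))
        ((volume : Measure (E n)).prod (sg n)) := hi.mul_prod (integrable_const _)
    have h2 : Integrable (fun z : E n × E n => (starRingEnd ℂ) (h z.1))
        ((volume : Measure (E n)).prod (sg n)) := by
      have h3 : Integrable (fun z : E n × E n => h z.1)
        ((volume : Measure (E n)).prod (sg n)) := by simpa using h1
      exact (LinearIsometryEquiv.integrable_comp_iff (Complex.conjLIE)).2 h3
    refine h2.mul_bdd (c := ∫ x, ‖h x‖) ?_ ?_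
    · refine (Continuous.mul (by fun_prop) (hgc.comp continuous_snd)).aestronglyMeasurable
    · refine Eventually.of_forall fun z => ?_
      rw [norm_mul, ← Complex.ofReal_neg, Complex.norm_exp_ofReal_mul_I, one_mul]
      exact hgb _
  have e1 : ((∫ w, ‖g w‖ ^ 2 ∂(sg n) : ℝ) : ℂ) = ∫ w, g w * (starRingEnd ℂ) (g w) ∂(sg n) := by
    rw [← integral_complex_ofReal]
    refine integral_congr_ae (Eventually.of_forall fun w => ?_)
    simp only [Complex.mul_conj, Complex.normSq_eq_norm_sq]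
  rw [e1]
  have e2 : ∀ w, g w * (starRingEnd ℂ) (g w) = ∫ x, (starRingEnd ℂ) (h x) *
      (Complex.exp (-((⟪(-(2 * Real.pi * r)) • x, w⟫ : ℝ) : ℂ) * I) * g w) := by
    intro w
    have e3 : (starRingEnd ℂ) (g w) = ∫ x, (starRingEnd ℂ)
        (Complex.exp (((-2 * Real.pi * ⟪x, r • w⟫ : ℝ) : ℂ) * I) * h x) := by
      rw [integral_conj, hg]
      simp only
      rw [four_eq]
    rw [e3, ← integral_const_mul]
    congr 1; funext x
    rw [map_mul, ← Complex.exp_conj]
    have : (starRingEnd ℂ) (((-2 * Real.pi * ⟪x, r • w⟫ : ℝ) : ℂ) * I) =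
        -((⟪(-(2 * Real.pi * r)) • x, w⟫ : ℝ) : ℂ) * I := by
      rw [map_mul, Complex.conj_ofReal, Complex.conj_I, inner_smul_left, inner_smul_right]
      simp only [conj_trivial]
      push_cast; ring
    rw [this]; ring
  simp only [e2]
  rw [integral_integral_swap (f := fun w x => (starRingEnd ℂ) (h x) *
      (Complex.exp (-((⟪(-(2 * Real.pi * r)) • x, w⟫ : ℝ) : ℂ) * I) * g w)) hint.swap]
  congr 1; funext x
  rw [integral_const_mul]
  rfl

/-- dilated extension estimate -/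
theorem ext_dil (n : ℕ) (hn : 2 ≤ n) (P : ℝ) (hP2 : 2 < P)
    (hP : P < 2 * ((n : ℝ) + 1) / ((n : ℝ) - 1)) : ∃ C : ℝ, 0 < C ∧ ∀ g : E n → ℂ, Measurable g →
    (∃ M : ℝ, ∀ x, ‖g x‖ ≤ M) → ∀ v : E n, ∀ ρ : ℝ, 0 < ρ → ∀ r : ℝ, 1 / 4 ≤ r → r ≤ 4 →
    ∫⁻ x in closedBall v ρ, ENNReal.ofReal (‖T g ((-(2 * Real.pi * r)) • x)‖ ^ P) ≤
      ENNReal.ofReal (C * ρ ^ (tau n P) * (∫ w, ‖g w‖ ^ 2 ∂(sg n)) ^ (P / 2)) := by
  obtain ⟨C, hC, h⟩ := ext n hn P hP2 hP
  have hn' : (2 : ℝ) ≤ n := by exact_mod_cast hn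
  have hn1 : 0 < (n : ℝ) - 1 := by linarith
  have hτ0 : 0 ≤ tau n P := by
    unfold tau
    rw [lt_div_iff₀ hn1] at hP
    have : ((n : ℝ) - 1) * (P - 2) ≤ 4 := by nlinarith
    linarith
  have hpi := Real.pi_pos
  refine ⟨C * (8 * Real.pi) ^ (tau n P), by positivity, fun g hg hM v ρ hρ r hr1 hr2 => ?_⟩
  set c : ℝ := -(2 * Real.pi * r) with hc
  have hc0 : c ≠ 0 := by
    rw [hc]; exact neg_ne_zero.2 (by positivity)
  have hcabs : |c| = 2 * Real.pi * r := by rw [hc, abs_neg, abs_of_pos (by positivity)]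
  have hH0 : 0 ≤ ∫ w, ‖g w‖ ^ 2 ∂(sg n) := integral_nonneg fun w => by positivity
  have hpi3 := Real.pi_gt_three
  have hc1 : 1 ≤ |c| := by rw [hcabs]; nlinarith
  set F : E n → ℝ≥0∞ := fun y => (closedBall (c • v) (|c| * ρ)).indicator
    (fun y => ENNReal.ofReal (‖T g y‖ ^ P)) y with hF
  have hFm : Measurable F :=
    ((T_meas hg).norm.pow_const P).ennreal_ofReal.indicator isClosed_closedBall.measurableSet
  have e1 : ∫⁻ x in closedBall v ρ, ENNReal.ofReal (‖T g (c • x)‖ ^ P) = ∫⁻ x, F (c • x) := by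
    rw [← lintegral_indicator isClosed_closedBall.measurableSet]
    refine lintegral_congr fun x => ?_
    have hiff : x ∈ closedBall v ρ ↔ c • x ∈ closedBall (c • v) (|c| * ρ) := by
      rw [mem_closedBall, mem_closedBall, dist_smul₀, Real.norm_eq_abs]
      constructor
      · intro hx; gcongr
      · intro hx; exact le_of_mul_le_mul_left hx (by positivity)
    by_cases hx : x ∈ closedBall v ρ
    · rw [indicator_of_mem hx, hF]
      simp only [indicator_of_mem (hiff.1 hx)]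
    · rw [indicator_of_notMem hx, hF]
      simp only [indicator_of_notMem (fun h => hx (hiff.2 h))]
  rw [e1]
  have e2 : ∫⁻ x, F (c • x) = ENNReal.ofReal (|(c ^ n)⁻¹|) * ∫⁻ y, F y := by
    have h1 := Measure.map_addHaar_smul (volume : Measure (E n)) hc0
    have hfr : Module.finrank ℝ (E n) = n := by simp
    rw [hfr] at h1
    rw [← lintegral_map hFm (measurable_const_smul c), h1, lintegral_smul_measure]
    rfl
  rw [e2, hF, lintegral_indicator isClosed_closedBall.measurableSet]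
  refine (mul_le_mul_right (h g hg hM (c • v) (|c| * ρ) (by positivity)) _).trans ?_
  rw [← ENNReal.ofReal_mul (abs_nonneg _)]
  refine ENNReal.ofReal_le_ofReal ?_
  have h3 : |(c ^ n)⁻¹| ≤ 1 := by
    rw [abs_inv, abs_pow]
    exact inv_le_one_of_one_le₀ (one_le_pow₀ hc1)
  have h4 : (|c| * ρ) ^ (tau n P) ≤ (8 * Real.pi) ^ (tau n P) * ρ ^ (tau n P) := by
    rw [← Real.mul_rpow (by positivity) hρ.le]
    refine Real.rpow_le_rpow (by positivity) ?_ hτ0
    rw [hcabs]
    have : 2 * Real.pi * r ≤ 8 * Real.pi := by nlinarith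
    gcongr
  change |(c ^ n)⁻¹| * (C * (|c| * ρ) ^ (tau n P) * _) ≤ _
  calc _ ≤ 1 * (C * ((8 * Real.pi) ^ (tau n P) * ρ ^ (tau n P)) *
        (∫ w, ‖g w‖ ^ 2 ∂(sg n)) ^ (P / 2)) := by gcongr
    _ = _ := by ring

theorem conj_exp (P : ℝ) (hP : 2 < P) : (P / (P - 1)).HolderConjugate P ∧ 1 < P / (P - 1) := by
  have h1 : 1 < P / (P - 1) := by rw [lt_div_iff₀ (by linarith)]; linarith
  refine ⟨?_, h1⟩
  rw [Real.holderConjugate_iff]
  refine ⟨h1, ?_⟩
  have : P - 1 ≠ 0 := by linarith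
  field_simp
  ring

/-- **Restriction estimate on balls.** -/
theorem restr (n : ℕ) (hn : 2 ≤ n) (P : ℝ) (hP2 : 2 < P)
    (hP : P < 2 * ((n : ℝ) + 1) / ((n : ℝ) - 1)) : ∃ C : ℝ, 0 < C ∧ ∀ h : E n → ℂ, Measurable h →
    (∃ M : ℝ, ∀ x, ‖h x‖ ≤ M) → ∀ v : E n, ∀ ρ : ℝ, 0 < ρ → (∀ x, x ∉ closedBall v ρ → h x = 0) →
    ∀ r : ℝ, 1 / 4 ≤ r → r ≤ 4 →
    ENNReal.ofReal (∫ w, ‖𝓕 h (r • w)‖ ^ 2 ∂(sg n)) ≤
      ENNReal.ofReal (C * ρ ^ (2 * tau n P / P)) *
        (∫⁻ x, ‖h x‖ₑ ^ (P / (P - 1))) ^ (2 / (P / (P - 1))) := by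
  obtain ⟨C, hC, hext⟩ := ext_dil n hn P hP2 hP
  obtain ⟨hconj, hP'1⟩ := conj_exp P hP2
  set P' : ℝ := P / (P - 1) with hP'
  have hP0 : 0 < P := by linarith
  have hP'0 : 0 < P' := by linarith
  refine ⟨C ^ (2 / P), by positivity, fun h hm hb v ρ hρ hs r hr1 hr2 => ?_⟩
  have hi := integrable_ball hm hb hs
  set g : E n → ℂ := fun w => 𝓕 h (r • w) with hg
  have hgc : Continuous g := (four_cont hi).comp (continuous_const_smul r)
  have hgb : ∃ M : ℝ, ∀ w, ‖g w‖ ≤ M := ⟨_, fun w => four_bdd h _⟩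
  set H : ℝ := ∫ w, ‖g w‖ ^ 2 ∂(sg n) with hH
  have hH0 : 0 ≤ H := integral_nonneg fun w => by positivity
  set N : ℝ≥0∞ := ∫⁻ x, ‖h x‖ₑ ^ P' with hN
  rcases hH0.eq_or_lt with h0 | hHpos
  · rw [← h0, ENNReal.ofReal_zero]; exact zero_le
  have key : ENNReal.ofReal H ≤ N ^ (1 / P') *
      ENNReal.ofReal ((C * ρ ^ (tau n P)) ^ (1 / P) * H ^ (1 / 2 : ℝ)) := by
    have e1 := pairing hm hb hs r
    rw [← hg, ← hH] at e1
    have e2 : ENNReal.ofReal H = ‖((H : ℝ) : ℂ)‖ₑ := by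
      rw [← ofReal_norm, Complex.norm_real, Real.norm_of_nonneg hH0]
    rw [e2, e1]
    refine (enorm_integral_le_lintegral_enorm _).trans ?_
    set G : E n → ℝ≥0∞ := (closedBall v ρ).indicator fun x => ‖T g ((-(2 * Real.pi * r)) • x)‖ₑ
      with hG
    have hGm : Measurable G := by
      refine Measurable.indicator ?_ isClosed_closedBall.measurableSet
      exact ((T_meas hgc.measurable).comp (measurable_const_smul _)).enorm
    have e3 : ∀ x, ‖(starRingEnd ℂ) (h x) * T g ((-(2 * Real.pi * r)) • x)‖ₑ =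
        ((fun x => ‖h x‖ₑ) * G) x := by
      intro x
      rw [Pi.mul_apply, enorm_mul, RCLike.enorm_conj]
      by_cases hx : x ∈ closedBall v ρ
      · rw [hG, indicator_of_mem hx]
      · rw [hs x hx, enorm_zero, zero_mul, zero_mul]
    simp only [e3]
    refine (ENNReal.lintegral_mul_le_Lp_mul_Lq volume hconj hm.enorm.aemeasurable
      hGm.aemeasurable).trans ?_
    refine mul_le_mul_right ?_ _
    have e4 : ∫⁻ x, G x ^ P ≤ ENNReal.ofReal (C * ρ ^ (tau n P) * H ^ (P / 2)) := by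
      have e5 : ∀ x, G x ^ P = (closedBall v ρ).indicator
          (fun x => ENNReal.ofReal (‖T g ((-(2 * Real.pi * r)) • x)‖ ^ P)) x := by
        intro x
        by_cases hx : x ∈ closedBall v ρ
        · rw [hG, indicator_of_mem hx, indicator_of_mem hx, ← ofReal_norm,
            ENNReal.ofReal_rpow_of_nonneg (norm_nonneg _) hP0.le]
        · rw [hG, indicator_of_notMem hx, indicator_of_notMem hx, ENNReal.zero_rpow_of_pos hP0]
      simp only [e5]
      rw [lintegral_indicator isClosed_closedBall.measurableSet]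
      exact hext g hgc.measurable hgb v ρ hρ r hr1 hr2
    refine (ENNReal.rpow_le_rpow e4 (by positivity)).trans (le_of_eq ?_)
    rw [ENNReal.ofReal_rpow_of_nonneg (by positivity) (by positivity),
      Real.mul_rpow (by positivity) (by positivity), ← Real.rpow_mul hH0]
    congr 3
    field_simp
  by_cases hNt : N = ∞
  · rw [hNt, ENNReal.top_rpow_of_pos (by positivity), ENNReal.mul_top]
    · exact le_top
    · rw [Ne, ENNReal.ofReal_eq_zero, not_le]; positivity
  · -- finite case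
    set K : ℝ := (C * ρ ^ (tau n P)) ^ (1 / P) with hK
    have hK0 : 0 < K := by positivity
    have hNr : N = ENNReal.ofReal N.toReal := (ENNReal.ofReal_toReal hNt).symm
    have hN0 : 0 ≤ N.toReal := ENNReal.toReal_nonneg
    rw [hNr, ENNReal.ofReal_rpow_of_nonneg hN0 (by positivity), ← ENNReal.ofReal_mul (by positivity),
      ENNReal.ofReal_le_ofReal_iff (by positivity)] at key
    have hHh : H = H ^ (1 / 2 : ℝ) * H ^ (1 / 2 : ℝ) := by
      rw [← Real.rpow_add hHpos]; norm_num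
    have hHh0 : 0 < H ^ (1 / 2 : ℝ) := Real.rpow_pos_of_pos hHpos _
    have k2 : H ^ (1 / 2 : ℝ) ≤ N.toReal ^ (1 / P') * K := by
      have : H ^ (1 / 2 : ℝ) * H ^ (1 / 2 : ℝ) ≤ (N.toReal ^ (1 / P') * K) * H ^ (1 / 2 : ℝ) := by
        rw [← hHh]; linarith
      exact le_of_mul_le_mul_right this hHh0
    rw [hNr, ENNReal.ofReal_rpow_of_nonneg hN0 (by positivity), ← ENNReal.ofReal_mul (by positivity)]
    refine ENNReal.ofReal_le_ofReal ?_
    have k3 : H ≤ (N.toReal ^ (1 / P') * K) ^ 2 := by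
      rw [hHh, sq]
      exact mul_le_mul k2 k2 hHh0.le (by positivity)
    refine k3.trans (le_of_eq ?_)
    have k4 : (N.toReal ^ (1 / P')) ^ 2 = N.toReal ^ (2 / P') := by
      rw [← Real.rpow_natCast, ← Real.rpow_mul hN0]; congr 1; push_cast; ring
    have k5 : K ^ 2 = C ^ (2 / P) * ρ ^ (2 * tau n P / P) := by
      rw [hK, ← Real.rpow_natCast, ← Real.rpow_mul (by positivity),
        Real.mul_rpow (by positivity) (by positivity), ← Real.rpow_mul hρ.le]
      congr 2
      · push_cast; ring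
      · push_cast; ring
    rw [mul_pow, k4, k5]; ring

end Pool.Agent.Y248.BA
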