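import Mathlib
import Pool.Agent.Y248.BA.Restr
set_option autoImplicit false

/-! # Extension estimate for densities on spherical shells -/

namespace Pool.Agent.Y248.BA

open MeasureTheory Set Metric Complex Filter
open scoped ENNReal RealInnerProductSpace Topology FourierTransform
open Pool.Agent.H789R2.FR (E sg T sg_finite polar)

theorem ae_unit (n : ℕ) : ∀ᵐ w ∂(sg n), ‖w‖ = 1 := by
  unfold sg
  have hs : MeasurableSet {w : E n | ‖w‖ = 1} := measurableSet_eq_fun measurable_norm measurable_const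
  rw [ae_map_iff measurable_subtype_coe.aemeasurable hs]
  exact Eventually.of_forall fun w => mem_sphere_zero_iff_norm.1 w.2

/-- the shell `‖ξ‖ ∈ W` -/
theorem shell_le (n : ℕ) (hn : 2 ≤ n) (k : E n → ℂ) (hk : Integrable k) (W : Set ℝ)
    (hW : MeasurableSet W) (hW4 : W ⊆ Icc (1 / 4) 4) (S : ℝ≥0∞)
    (hS : ∀ r : ℝ, 1 / 4 ≤ r → r ≤ 4 → ENNReal.ofReal (∫ w, ‖𝓕 k (r • w)‖ ^ 2 ∂(sg n)) ≤ S) :
    ∫⁻ ξ, {ξ : E n | ‖ξ‖ ∈ W}.indicator (fun ξ => ‖𝓕 k ξ‖ₑ ^ (2 : ℝ)) ξ ≤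
      ENNReal.ofReal (4 ^ (n - 1)) * volume W * S := by
  have := sg_finite n
  have hc := four_cont hk
  have hWm : MeasurableSet {ξ : E n | ‖ξ‖ ∈ W} := measurable_norm hW
  have hf : Measurable ({ξ : E n | ‖ξ‖ ∈ W}.indicator fun ξ => ‖𝓕 k ξ‖ₑ ^ (2 : ℝ)) :=
    (hc.measurable.enorm.pow_const _).indicator hWm
  rw [polar (by omega) _ hf]
  have h1 : ∀ᵐ w ∂(sg n), (∫⁻ r in Ioi (0 : ℝ), ENNReal.ofReal (r ^ (n - 1)) *
      {ξ : E n | ‖ξ‖ ∈ W}.indicator (fun ξ => ‖𝓕 k ξ‖ₑ ^ (2 : ℝ)) (r • w)) ≤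
      ∫⁻ r in W, ENNReal.ofReal (4 ^ (n - 1)) * ‖𝓕 k (r • w)‖ₑ ^ (2 : ℝ) := by
    filter_upwards [ae_unit n] with w hw
    rw [← lintegral_indicator measurableSet_Ioi, ← lintegral_indicator hW]
    refine lintegral_mono fun r => ?_
    by_cases hr : r ∈ Ioi (0 : ℝ)
    · rw [indicator_of_mem hr]
      have hr0 : (0 : ℝ) < r := hr
      have hnorm : ‖r • w‖ = r := by rw [norm_smul, hw, mul_one, Real.norm_of_nonneg hr0.le]
      by_cases hrW : r ∈ W
      · have hmem : r • w ∈ {ξ : E n | ‖ξ‖ ∈ W} := by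
          change ‖r • w‖ ∈ W
          rw [hnorm]; exact hrW
        rw [indicator_of_mem hmem, indicator_of_mem hrW]
        gcongr
        exact (hW4 hrW).2
      · have hmem : r • w ∉ {ξ : E n | ‖ξ‖ ∈ W} := by
          change ¬ (‖r • w‖ ∈ W)
          rw [hnorm]; exact hrW
        rw [indicator_of_notMem hmem, mul_zero]
        exact zero_le
    · rw [indicator_of_notMem hr]
      exact zero_le
  refine (lintegral_mono_ae h1).trans ?_
  have hm2 : Measurable (Function.uncurry fun (w : E n) (r : ℝ) =>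
      ENNReal.ofReal (4 ^ (n - 1)) * ‖𝓕 k (r • w)‖ₑ ^ (2 : ℝ)) := by
    refine Measurable.const_mul ?_ _
    refine Measurable.pow_const ?_ _
    exact (hc.measurable.comp (measurable_snd.smul measurable_fst)).enorm
  rw [lintegral_lintegral_swap hm2.aemeasurable]
  have h2 : ∀ r ∈ W, (∫⁻ w, ENNReal.ofReal (4 ^ (n - 1)) * ‖𝓕 k (r • w)‖ₑ ^ (2 : ℝ) ∂(sg n)) ≤
      ENNReal.ofReal (4 ^ (n - 1)) * S := by
    intro r hr
    rw [lintegral_const_mul' _ _ ENNReal.ofReal_ne_top]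
    refine mul_le_mul_right ?_ _
    refine le_trans (le_of_eq ?_) (hS r (hW4 hr).1 (hW4 hr).2)
    have hi : Integrable (fun w => ‖𝓕 k (r • w)‖ ^ 2) (sg n) := by
      refine Integrable.of_bound
        ((hc.comp (continuous_const_smul r)).norm.pow 2).aestronglyMeasurable
        ((∫ x, ‖k x‖) ^ 2) (Eventually.of_forall fun w => ?_)
      rw [norm_pow, norm_norm]
      exact pow_le_pow_left₀ (norm_nonneg _) (four_bdd k _) 2
    rw [ofReal_integral_eq_lintegral_ofReal hi (Eventually.of_forall fun w => by positivity)]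
    refine lintegral_congr fun w => ?_
    rw [← ofReal_norm, ENNReal.ofReal_rpow_of_nonneg (norm_nonneg _) (by norm_num)]
    norm_num
  refine (setLIntegral_mono' hW h2).trans (le_of_eq ?_)
  rw [setLIntegral_const]
  ring

/-- **Extension estimate for shells.** -/
theorem ext_ann (n : ℕ) (hn : 2 ≤ n) (P : ℝ) (hP2 : 2 < P)
    (hP : P < 2 * ((n : ℝ) + 1) / ((n : ℝ) - 1)) : ∃ C : ℝ, 0 < C ∧ ∀ F : E n → ℂ, Measurable F →
    Integrable F → ∀ W : Set ℝ, MeasurableSet W → W ⊆ Icc (1 / 4) 4 → (∀ ξ, ‖ξ‖ ∉ W → F ξ = 0) →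
    ∀ v : E n, ∀ ρ : ℝ, 0 < ρ →
    (∫⁻ x in closedBall v ρ, ‖𝓕 F x‖ₑ ^ P) ^ (1 / P) ≤
      ENNReal.ofReal (C * ρ ^ (tau n P / P)) * volume W ^ (1 / 2 : ℝ) *
        (∫⁻ ξ, ‖F ξ‖ₑ ^ (2 : ℝ)) ^ (1 / 2 : ℝ) := by
  obtain ⟨C, hC, hR⟩ := restr n hn P hP2 hP
  obtain ⟨hconj, hP'1⟩ := conj_exp P hP2
  set P' : ℝ := P / (P - 1) with hP'
  have hP0 : 0 < P := by linarith
  have hP'0 : 0 < P' := by linarith
  refine ⟨(4 ^ (n - 1) * C) ^ (1 / 2 : ℝ), by positivity, fun F hF hFi W hW hW4 hFW v ρ hρ => ?_⟩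
  have hGc : Continuous (𝓕 F) := four_cont hFi
  set B : Set (E n) := closedBall v ρ with hB
  have hBm : MeasurableSet B := isClosed_closedBall.measurableSet
  -- the dual function
  set k : E n → ℂ := B.indicator fun x => ((‖𝓕 F x‖ ^ (P - 2) : ℝ) : ℂ) * (starRingEnd ℂ) (𝓕 F x)
    with hk
  have hkm : Measurable k := by
    refine Measurable.indicator ?_ hBm
    exact (Complex.measurable_ofReal.comp (hGc.measurable.norm.pow_const _)).mul
      (Complex.continuous_conj.measurable.comp hGc.measurable)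
  set MF : ℝ := ∫ x, ‖F x‖ with hMF
  have hMF0 : 0 ≤ MF := integral_nonneg fun x => norm_nonneg _
  have hnk : ∀ x ∈ B, ‖k x‖ = ‖𝓕 F x‖ ^ (P - 1) := by
    intro x hx
    rw [hk, indicator_of_mem hx, norm_mul, Complex.norm_real, RCLike.norm_conj,
      Real.norm_of_nonneg (by positivity)]
    rcases (norm_nonneg (𝓕 F x)).eq_or_lt with h | h
    · rw [← h, Real.zero_rpow (by linarith : P - 1 ≠ 0), mul_zero]
    · nth_rewrite 2 [← Real.rpow_one ‖𝓕 F x‖]
      rw [← Real.rpow_add h]; congr 1; ring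
  have hkb : ∃ M : ℝ, ∀ x, ‖k x‖ ≤ M := by
    refine ⟨MF ^ (P - 1), fun x => ?_⟩
    by_cases hx : x ∈ B
    · rw [hnk x hx]
      exact Real.rpow_le_rpow (norm_nonneg _) (four_bdd F x) (by linarith)
    · rw [hk, indicator_of_notMem hx, norm_zero]; positivity
  have hks : ∀ x, x ∉ closedBall v ρ → k x = 0 := fun x hx => indicator_of_notMem hx _
  have hki := integrable_ball hkm hkb hks
  set X : ℝ≥0∞ := ∫⁻ x in B, ‖𝓕 F x‖ₑ ^ P with hX
  have hXt : X ≠ ∞ := by
    have : X ≤ ∫⁻ _x in B, ENNReal.ofReal (MF ^ P) := by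
      refine lintegral_mono fun x => ?_
      rw [← ofReal_norm, ENNReal.ofReal_rpow_of_nonneg (norm_nonneg _) hP0.le]
      exact ENNReal.ofReal_le_ofReal (Real.rpow_le_rpow (norm_nonneg _) (four_bdd F x) hP0.le)
    refine (this.trans_lt ?_).ne
    rw [setLIntegral_const]
    exact ENNReal.mul_lt_top ENNReal.ofReal_lt_top measure_closedBall_lt_top
  have hkP : ∫⁻ x, ‖k x‖ₑ ^ P' = X := by
    rw [hX, ← lintegral_indicator hBm]
    refine lintegral_congr fun x => ?_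
    by_cases hx : x ∈ B
    · rw [indicator_of_mem hx, ← ofReal_norm, hnk x hx, ← ofReal_norm,
        ENNReal.ofReal_rpow_of_nonneg (by positivity) hP'0.le,
        ENNReal.ofReal_rpow_of_nonneg (norm_nonneg _) hP0.le, ← Real.rpow_mul (norm_nonneg _)]
      congr 2
      rw [hP']; field_simp
      exact div_self (by linarith)
    · rw [indicator_of_notMem hx, hk, indicator_of_notMem hx, enorm_zero,
        ENNReal.zero_rpow_of_pos hP'0]
  -- the pairing
  have hpair : X ≤ ∫⁻ ξ, ‖F ξ‖ₑ * {ξ : E n | ‖ξ‖ ∈ W}.indicator (fun ξ => ‖𝓕 k ξ‖ₑ) ξ := by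
    have e1 : ∫ x, 𝓕 F x • k x = ∫ ξ, F ξ • 𝓕 k ξ := by
      have h := VectorFourier.integral_fourierIntegral_smul_eq_flip (L := innerₗ (E n))
        (μ := volume) (ν := volume) Real.continuous_fourierChar continuous_inner hFi hki
      have hfl : (innerₗ (E n)).flip = innerₗ (E n) := by
        ext x y; simp
      rw [hfl] at h
      exact h
    have e2 : ∀ x, 𝓕 F x • k x = ((B.indicator (fun x => ‖𝓕 F x‖ ^ P) x : ℝ) : ℂ) := by
      intro x
      by_cases hx : x ∈ B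
      · rw [hk, indicator_of_mem hx, indicator_of_mem hx, smul_eq_mul, mul_left_comm,
          Complex.mul_conj, Complex.normSq_eq_norm_sq, ← Complex.ofReal_mul]
        congr 1
        rcases (norm_nonneg (𝓕 F x)).eq_or_lt with h | h
        · rw [← h, Real.zero_rpow hP0.ne']; simp
        · rw [← Real.rpow_natCast, ← Real.rpow_add h]; congr 1; push_cast; ring
      · rw [hk, indicator_of_notMem hx, indicator_of_notMem hx]; simp
    have e3 : X = ‖∫ x, 𝓕 F x • k x‖ₑ := by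
      simp only [e2]
      rw [integral_complex_ofReal, ← ofReal_norm, Complex.norm_real, Real.norm_of_nonneg
        (integral_nonneg fun x => indicator_nonneg (fun x _ => by positivity) x),
        integral_indicator hBm, hX]
      have hi : IntegrableOn (fun x => ‖𝓕 F x‖ ^ P) B := by
        refine Measure.integrableOn_of_bounded (M := MF ^ P) measure_closedBall_lt_top.ne
          (hGc.measurable.norm.pow_const _).aestronglyMeasurable (Eventually.of_forall fun x => ?_)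
        rw [Real.norm_of_nonneg (by positivity)]
        exact Real.rpow_le_rpow (norm_nonneg _) (four_bdd F x) hP0.le
      rw [ofReal_integral_eq_lintegral_ofReal hi (Eventually.of_forall fun x => by positivity)]
      refine lintegral_congr fun x => ?_
      rw [← ofReal_norm, ENNReal.ofReal_rpow_of_nonneg (norm_nonneg _) hP0.le]
    rw [e3, e1]
    refine (enorm_integral_le_lintegral_enorm _).trans (lintegral_mono fun ξ => ?_)
    rw [smul_eq_mul, enorm_mul]
    by_cases hξ : ‖ξ‖ ∈ W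
    · rw [indicator_of_mem (show ξ ∈ {ξ : E n | ‖ξ‖ ∈ W} from hξ)]
    · rw [hFW ξ hξ, enorm_zero, zero_mul]; exact zero_le
  have hWm : MeasurableSet {ξ : E n | ‖ξ‖ ∈ W} := measurable_norm hW
  have hkc := four_cont hki
  have hCS := ENNReal.lintegral_mul_le_Lp_mul_Lq (volume : Measure (E n))
    (Real.HolderConjugate.two_two) (f := fun ξ => ‖F ξ‖ₑ)
    (g := {ξ : E n | ‖ξ‖ ∈ W}.indicator (fun ξ => ‖𝓕 k ξ‖ₑ)) hF.enorm.aemeasurable
    (hkc.measurable.enorm.indicator hWm).aemeasurable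
  have hsh := shell_le n hn k hki W hW hW4
    (ENNReal.ofReal (C * ρ ^ (2 * tau n P / P)) * X ^ (2 / P'))
    (fun r hr1 hr2 => by
      have := hR k hkm hkb v ρ hρ hks r hr1 hr2
      rwa [hkP] at this)
  have e4 : ∫⁻ ξ, ({ξ : E n | ‖ξ‖ ∈ W}.indicator (fun ξ => ‖𝓕 k ξ‖ₑ) ξ) ^ (2 : ℝ) =
      ∫⁻ ξ, {ξ : E n | ‖ξ‖ ∈ W}.indicator (fun ξ => ‖𝓕 k ξ‖ₑ ^ (2 : ℝ)) ξ := by
    refine lintegral_congr fun ξ => ?_
    by_cases hξ : ξ ∈ {ξ : E n | ‖ξ‖ ∈ W}
    · rw [indicator_of_mem hξ, indicator_of_mem hξ]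
    · rw [indicator_of_notMem hξ, indicator_of_notMem hξ, ENNReal.zero_rpow_of_pos (by norm_num)]
  rw [e4] at hCS
  have hmain : X ≤ (ENNReal.ofReal ((4 ^ (n - 1) * C) ^ (1 / 2 : ℝ) * ρ ^ (tau n P / P)) *
      volume W ^ (1 / 2 : ℝ) * (∫⁻ ξ, ‖F ξ‖ₑ ^ (2 : ℝ)) ^ (1 / 2 : ℝ)) * X ^ (1 / P') := by
    refine hpair.trans (hCS.trans ?_)
    refine (mul_le_mul_right (ENNReal.rpow_le_rpow hsh (by norm_num)) _).trans (le_of_eq ?_)
    rw [ENNReal.mul_rpow_of_nonneg _ _ (by norm_num), ENNReal.mul_rpow_of_nonneg _ _ (by norm_num),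
      ENNReal.mul_rpow_of_nonneg _ _ (by norm_num), ← ENNReal.rpow_mul,
      ENNReal.ofReal_rpow_of_nonneg (by positivity) (by norm_num),
      ENNReal.ofReal_rpow_of_nonneg (by positivity) (by norm_num),
      Real.mul_rpow (by positivity) (by positivity), Real.mul_rpow (by positivity) (by positivity),
      ← Real.rpow_mul hρ.le]
    rw [show 2 * tau n P / P * (1 / 2) = tau n P / P by ring,
      show (2 : ℝ) / P' * (1 / 2) = 1 / P' by ring,
      ENNReal.ofReal_mul (by positivity), ENNReal.ofReal_mul (by positivity),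
      ENNReal.ofReal_mul (by positivity)]
    ring
  -- divide
  rcases eq_or_ne X 0 with h0 | h0
  · rw [h0, ENNReal.zero_rpow_of_pos (by positivity)]; exact zero_le
  have hXp : X ^ (1 / P') ≠ 0 := by
    rw [Ne, ENNReal.rpow_eq_zero_iff]
    push Not
    exact ⟨fun h => absurd h h0, fun h => absurd h hXt⟩
  have hXp' : X ^ (1 / P') ≠ ∞ := by
    rw [Ne, ENNReal.rpow_eq_top_iff]
    push Not
    exact ⟨fun h => absurd h h0, fun h => absurd h hXt⟩
  have hsum : 1 / P + 1 / P' = 1 := by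
    have := hconj.inv_add_inv_eq_one
    rw [one_div, one_div]; linarith
  have hXe : X = X ^ (1 / P) * X ^ (1 / P') := by
    rw [← ENNReal.rpow_add _ _ h0 hXt, hsum, ENNReal.rpow_one]
  have h5 : X ^ (1 / P) * X ^ (1 / P') ≤
      (ENNReal.ofReal ((4 ^ (n - 1) * C) ^ (1 / 2 : ℝ) * ρ ^ (tau n P / P)) *
      volume W ^ (1 / 2 : ℝ) * (∫⁻ ξ, ‖F ξ‖ₑ ^ (2 : ℝ)) ^ (1 / 2 : ℝ)) * X ^ (1 / P') := by
    rw [← hXe]; exact hmain
  exact (ENNReal.mul_le_mul_iff_left hXp hXp').1 h5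

end Pool.Agent.Y248.BA
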