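import Mathlib
import Pool.Agent.H438R2.RZ.Defs
set_option autoImplicit false

/-! # Kernels of the annular pieces -/

namespace Pool.Agent.Y248.BA

open MeasureTheory Set Metric Complex Filter
open scoped ENNReal RealInnerProductSpace Topology FourierTransform
open Pool.Agent.H789R2.FR (E)
open Pool.Agent.H438R2.RZ (Bump)

/-- multiplier of the annular piece at radius `R` -/
noncomputable def mu {n : ℕ} (ψ : ℝ → ℝ) (A R : ℝ) (ξ : E n) : ℂ :=
  ((ψ (A * (1 - (R ^ 2)⁻¹ * ‖ξ‖ ^ 2)) : ℝ) : ℂ)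

/-- kernel of the annular piece -/
noncomputable def Kr {n : ℕ} (ψ : ℝ → ℝ) (A R : ℝ) : E n → ℂ := 𝓕 (mu (n := n) ψ A R)

section deriv

variable {V F : Type*} [NormedAddCommGroup V] [NormedSpace ℝ V] [NormedAddCommGroup F]
  [NormedSpace ℝ F]

theorem lin_one (L : V →L[ℝ] F) (x : V) : ‖iteratedFDeriv ℝ 1 (fun y => L y) x‖ = ‖L‖ := by
  rw [norm_iteratedFDeriv_one]
  congr 1
  exact L.fderiv

theorem lin_two (L : V →L[ℝ] F) (x : V) (k : ℕ) :
    ‖iteratedFDeriv ℝ (k + 2) (fun y => L y) x‖ = 0 := by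
  rw [← norm_iteratedFDeriv_fderiv]
  have : fderiv ℝ (fun y => L y) = fun _ => L := by
    funext y; exact L.fderiv
  rw [this, iteratedFDeriv_succ_const]
  simp

end deriv

/-- derivative of the quadratic phase -/
noncomputable def Lq (n : ℕ) (c : ℝ) : E n →L[ℝ] E n →L[ℝ] ℝ :=
  c • (innerSL ℝ : E n →L[ℝ] E n →L[ℝ] ℝ)

theorem Lq_norm (n : ℕ) (c : ℝ) : ‖Lq n c‖ ≤ |c| := by
  refine ContinuousLinearMap.opNorm_le_bound _ (abs_nonneg _) fun x => ?_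
  have : Lq n c x = c • (innerSL ℝ x : E n →L[ℝ] ℝ) := rfl
  rw [this, norm_smul, Real.norm_eq_abs, innerSL_apply_norm]

theorem q_fderiv {n : ℕ} (A b : ℝ) :
    fderiv ℝ (fun x : E n => A * (1 - b * ‖x‖ ^ 2)) = fun x => Lq n (-(2 * A * b)) x := by
  funext x
  have h1 : HasFDerivAt (fun x : E n => ‖x‖ ^ 2) (2 • (innerSL ℝ) x) x :=
    (hasStrictFDerivAt_norm_sq x).hasFDerivAt
  have h2 := ((h1.const_mul b).const_sub 1).const_mul A
  rw [h2.fderiv]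
  ext y
  have : (Lq n (-(2 * A * b)) x) y = (-(2 * A * b)) * ⟪x, y⟫ := rfl
  rw [this]
  simp
  ring

theorem q_bound {n : ℕ} (A b : ℝ) (hA : 1 ≤ A) (hb0 : 0 ≤ b) (hb : b ≤ 1) (x : E n) (hx : ‖x‖ ≤ 4)
    (i : ℕ) (hi : 1 ≤ i) :
    ‖iteratedFDeriv ℝ i (fun x : E n => A * (1 - b * ‖x‖ ^ 2)) x‖ ≤ (8 * A) ^ i := by
  have hL : ‖Lq n (-(2 * A * b))‖ ≤ 2 * A * b := by
    refine (Lq_norm n _).trans (le_of_eq ?_)
    rw [abs_neg, abs_of_nonneg (by positivity)]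
  have hAb : A * b ≤ A := by nlinarith
  rcases i with _ | _ | _ | k
  · omega
  · rw [← norm_iteratedFDeriv_fderiv, q_fderiv, norm_iteratedFDeriv_zero]
    refine (ContinuousLinearMap.le_opNorm _ _).trans ?_
    calc ‖Lq n (-(2 * A * b))‖ * ‖x‖ ≤ (2 * A * b) * 4 := by
          gcongr
      _ ≤ 8 * A := by nlinarith
      _ = (8 * A) ^ (0 + 1) := by ring
  · rw [← norm_iteratedFDeriv_fderiv, q_fderiv]
    have := lin_one (Lq n (-(2 * A * b))) x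
    rw [show 0 + 1 = 1 from rfl, this]
    refine hL.trans ?_
    have : (8 * A) ^ (1 + 1) = 64 * (A * A) := by ring
    rw [this]
    nlinarith
  · rw [← norm_iteratedFDeriv_fderiv, q_fderiv,
      show k + 1 + 1 = k + 2 from rfl, lin_two]
    positivity

theorem mu_smooth {n : ℕ} {ψ : ℝ → ℝ} (hψ : Bump ψ) (A R : ℝ) :
    ContDiff ℝ (⊤ : ℕ∞) (mu (n := n) ψ A R) := by
  unfold mu
  have h1 : ContDiff ℝ (⊤ : ℕ∞) fun ξ : E n => A * (1 - (R ^ 2)⁻¹ * ‖ξ‖ ^ 2) :=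
    contDiff_const.mul (contDiff_const.sub (contDiff_const.mul (contDiff_norm_sq ℝ)))
  exact Complex.ofRealCLM.contDiff.comp (hψ.1.comp h1)

theorem mu_supp {n : ℕ} {ψ : ℝ → ℝ} (hψ : Bump ψ) {A R : ℝ} (hA : 0 < A) (hR : 0 < R) (ξ : E n)
    (h : mu ψ A R ξ ≠ 0) : R ^ 2 * (1 - 2 / A) ≤ ‖ξ‖ ^ 2 ∧ ‖ξ‖ ^ 2 ≤ R ^ 2 * (1 - 1 / (2 * A)) := by
  unfold mu at h
  have h0 : ψ (A * (1 - (R ^ 2)⁻¹ * ‖ξ‖ ^ 2)) ≠ 0 := by
    intro h0; apply h; rw [h0]; simp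
  obtain ⟨h1, h2⟩ := hψ.2 _ h0
  have hR2 : 0 < R ^ 2 := by positivity
  set u := (R ^ 2)⁻¹ * ‖ξ‖ ^ 2 with hu
  have hu' : ‖ξ‖ ^ 2 = R ^ 2 * u := by
    rw [hu, ← mul_assoc, mul_inv_cancel₀ hR2.ne', one_mul]
  rw [hu']
  constructor
  · refine mul_le_mul_of_nonneg_left ?_ hR2.le
    rw [sub_le_comm, le_div_iff₀ hA]; linarith
  · refine mul_le_mul_of_nonneg_left ?_ hR2.le
    rw [le_sub_comm, div_le_iff₀ (by positivity)]; linarith

theorem mu_far {n : ℕ} {ψ : ℝ → ℝ} (hψ : Bump ψ) {A R : ℝ} (hA : 0 < A) (hR : 0 < R) (ξ : E n)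
    (h : R < ‖ξ‖) : mu ψ A R ξ = 0 := by
  by_contra hne
  have h1 := (mu_supp hψ hA hR ξ hne).2
  have h2 : 0 < 1 / (2 * A) := by positivity
  have : R ^ 2 < ‖ξ‖ ^ 2 := by gcongr
  nlinarith [sq_nonneg R, mul_pos (pow_pos hR 2) h2]

theorem mu_tsupp {n : ℕ} {ψ : ℝ → ℝ} (hψ : Bump ψ) {A R : ℝ} (hA : 0 < A) (hR : 0 < R)
    (hR2 : R ≤ 2) : tsupport (mu (n := n) ψ A R) ⊆ closedBall 0 2 := by
  refine closure_minimal (fun ξ hξ => ?_) isClosed_closedBall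
  rw [mem_closedBall_zero_iff]
  by_contra hc
  push Not at hc
  exact hξ (mu_far hψ hA hR ξ (by linarith))

theorem mu_comp {n : ℕ} {ψ : ℝ → ℝ} (hψ : Bump ψ) {A R : ℝ} (hA : 0 < A) (hR : 0 < R)
    (hR2 : R ≤ 2) : HasCompactSupport (mu (n := n) ψ A R) :=
  (isCompact_closedBall (0 : E n) 2).of_isClosed_subset isClosed_closure (mu_tsupp hψ hA hR hR2)

/-- uniform bounds for the derivatives of the multipliers -/
theorem mu_deriv (n : ℕ) {ψ : ℝ → ℝ} (hψ : Bump ψ) (N : ℕ) : ∃ C : ℝ, 0 < C ∧ ∀ A R : ℝ, 1 ≤ A →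
    1 ≤ R → R ≤ 2 → ∀ i ≤ N, ∀ ξ : E n, ‖iteratedFDeriv ℝ i (mu (n := n) ψ A R) ξ‖ ≤
      (closedBall (0 : E n) 2).indicator (fun _ => C * A ^ N) ξ := by
  have hc : HasCompactSupport fun v : ℝ => ((ψ v : ℝ) : ℂ) := by
    refine HasCompactSupport.of_support_subset_isCompact (isCompact_Icc (a := (1 / 2 : ℝ)) (b := 2))
      fun v hv => ?_
    have : ψ v ≠ 0 := fun h => hv (by simp [h])
    exact hψ.2 v this
  have hs : ContDiff ℝ (⊤ : ℕ∞) fun v : ℝ => ((ψ v : ℝ) : ℂ) :=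
    Complex.ofRealCLM.contDiff.comp hψ.1
  have hb : ∀ i : ℕ, ∃ C : ℝ, ∀ v, ‖iteratedFDeriv ℝ i (fun v : ℝ => ((ψ v : ℝ) : ℂ)) v‖ ≤ C := by
    intro i
    have h1 := hc.iteratedFDeriv (𝕜 := ℝ) i
    have h2 : Continuous (iteratedFDeriv ℝ i (fun v : ℝ => ((ψ v : ℝ) : ℂ))) :=
      hs.continuous_iteratedFDeriv (by exact_mod_cast le_top)
    exact h2.bounded_above_of_compact_support h1
  choose c hcb using hb
  set C0 := ∑ i ∈ Finset.range (N + 1), |c i| with hC0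
  have hC0n : 0 ≤ C0 := Finset.sum_nonneg fun i _ => abs_nonneg _
  have hcC : ∀ i ≤ N, ∀ v, ‖iteratedFDeriv ℝ i (fun v : ℝ => ((ψ v : ℝ) : ℂ)) v‖ ≤ C0 := by
    intro i hi v
    refine (hcb i v).trans ((le_abs_self _).trans ?_)
    exact Finset.single_le_sum (f := fun i => |c i|) (fun i _ => abs_nonneg _)
      (Finset.mem_range.2 (by omega))
  refine ⟨(N.factorial : ℝ) * C0 * 8 ^ N + 1, by positivity, fun A R hA hR1 hR2 i hi ξ => ?_⟩
  have hA0 : 0 < A := by linarith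
  by_cases hξ : ξ ∈ closedBall (0 : E n) 2
  · rw [indicator_of_mem hξ]
    rw [mem_closedBall_zero_iff] at hξ
    have hb0 : 0 ≤ (R ^ 2)⁻¹ := by positivity
    have hb1 : (R ^ 2)⁻¹ ≤ 1 := inv_le_one_of_one_le₀ (one_le_pow₀ hR1)
    have h1 := norm_iteratedFDeriv_comp_le (𝕜 := ℝ) (g := fun v : ℝ => ((ψ v : ℝ) : ℂ))
      (f := fun x : E n => A * (1 - (R ^ 2)⁻¹ * ‖x‖ ^ 2)) (n := i) (N := (⊤ : ℕ∞)) hs
      (contDiff_const.mul (contDiff_const.sub (contDiff_const.mul (contDiff_norm_sq ℝ))))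
      (by exact_mod_cast le_top) ξ (C := C0) (D := 8 * A) (fun k hk => hcC k (hk.trans hi) _)
      (fun k hk _ => q_bound A _ hA hb0 hb1 ξ (by linarith) k hk)
    have h2 : ((fun v : ℝ => ((ψ v : ℝ) : ℂ)) ∘ fun x : E n => A * (1 - (R ^ 2)⁻¹ * ‖x‖ ^ 2)) =
        mu ψ A R := rfl
    rw [h2] at h1
    refine h1.trans ?_
    have h3 : (i.factorial : ℝ) ≤ N.factorial := by exact_mod_cast Nat.factorial_le hi
    have h4 : (8 * A) ^ i ≤ (8 * A) ^ N := pow_le_pow_right₀ (by linarith) hi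
    calc (i.factorial : ℝ) * C0 * (8 * A) ^ i ≤ N.factorial * C0 * (8 * A) ^ N := by gcongr
      _ = (N.factorial : ℝ) * C0 * 8 ^ N * A ^ N := by rw [mul_pow]; ring
      _ ≤ _ := by
        have : 0 ≤ A ^ N := by positivity
        nlinarith
  · rw [indicator_of_notMem hξ]
    have h0 : ξ ∉ tsupport (mu (n := n) ψ A R) := fun h =>
      hξ (mu_tsupp hψ hA0 (by linarith) hR2 h)
    have : iteratedFDeriv ℝ i (mu (n := n) ψ A R) ξ = 0 := by
      by_contra hne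
      exact h0 (support_iteratedFDeriv_subset i hne)
    rw [this, norm_zero]

/-- decay of the kernels -/
theorem Kr_dec (n : ℕ) {ψ : ℝ → ℝ} (hψ : Bump ψ) (N : ℕ) : ∃ C : ℝ, 0 < C ∧ ∀ A R : ℝ, 1 ≤ A →
    1 ≤ R → R ≤ 2 → ∀ w : E n, ‖w‖ ^ N * ‖Kr (n := n) ψ A R w‖ ≤ C * A ^ N := by
  obtain ⟨C, hC, hb⟩ := mu_deriv n hψ N
  set V : ℝ := (volume : Measure (E n)).real (closedBall (0 : E n) 2) with hV
  refine ⟨2 ^ N * ((N + 1) * (C * V)) + 1, by positivity, fun A R hA hR1 hR2 w => ?_⟩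
  have hA0 : 0 < A := by linarith
  have hI : Integrable ((closedBall (0 : E n) 2).indicator (fun _ => C * A ^ N))
      (volume : Measure (E n)) := by
    rw [integrable_indicator_iff isClosed_closedBall.measurableSet]
    exact integrableOn_const measure_closedBall_lt_top.ne
  have hint : ∀ i ≤ N, Integrable (fun v => ‖iteratedFDeriv ℝ i (mu (n := n) ψ A R) v‖) := by
    intro i hi
    refine hI.mono' ?_ ?_
    · exact ((mu_smooth hψ A R).continuous_iteratedFDeriv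
        (by exact_mod_cast le_top)).norm.aestronglyMeasurable
    · refine Eventually.of_forall fun v => ?_
      rw [norm_norm]
      exact hb A R hA hR1 hR2 i hi v
  have hint' : ∀ (k i : ℕ), (k : ℕ∞) ≤ (0 : ℕ∞) → (i : ℕ∞) ≤ (N : ℕ∞) →
      Integrable (fun v => ‖v‖ ^ k * ‖iteratedFDeriv ℝ i (mu (n := n) ψ A R) v‖) := by
    intro k i hk hi
    have hk0 : k = 0 := by
      have : (k : ℕ∞) = 0 := le_antisymm hk bot_le
      exact_mod_cast this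
    subst hk0
    simp only [pow_zero, one_mul]
    exact hint i (by exact_mod_cast hi)
  have h1 := Real.pow_mul_norm_iteratedFDeriv_fourier_le (V := E n) (K := 0) (N := (N : ℕ∞))
    (f := mu (n := n) ψ A R) ((mu_smooth hψ A R).of_le (by exact_mod_cast le_top)) hint'
    (k := 0) (n := N) le_rfl le_rfl w
  rw [norm_iteratedFDeriv_zero] at h1
  refine h1.trans ?_
  have h2 : ∀ i ≤ N, ∫ v, ‖iteratedFDeriv ℝ i (mu (n := n) ψ A R) v‖ ≤ C * A ^ N * V := by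
    intro i hi
    refine (integral_mono (hint i hi) hI fun v => hb A R hA hR1 hR2 i hi v).trans (le_of_eq ?_)
    rw [integral_indicator isClosed_closedBall.measurableSet, setIntegral_const, smul_eq_mul]
    ring
  have h3 : ∑ p ∈ Finset.range (0 + 1) ×ˢ Finset.range (N + 1),
      ∫ v, ‖v‖ ^ p.1 * ‖iteratedFDeriv ℝ p.2 (mu (n := n) ψ A R) v‖ ≤
        (N + 1) * (C * A ^ N * V) := by
    rw [Finset.sum_product]
    simp only [zero_add, Finset.range_one, Finset.sum_singleton, pow_zero, one_mul]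
    calc ∑ x ∈ Finset.range (N + 1), ∫ v, ‖iteratedFDeriv ℝ x (mu (n := n) ψ A R) v‖
        ≤ ∑ x ∈ Finset.range (N + 1), C * A ^ N * V := Finset.sum_le_sum fun i hi =>
          h2 i (by have := Finset.mem_range.1 hi; omega)
      _ = _ := by rw [Finset.sum_const, Finset.card_range, nsmul_eq_mul]; push_cast; ring
  have h4 : 0 ≤ A ^ N := by positivity
  calc (2 * Real.pi) ^ 0 * (2 * ((0 : ℕ) : ℝ) + 2) ^ N *
      ∑ p ∈ Finset.range (0 + 1) ×ˢ Finset.range (N + 1),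
      ∫ v, ‖v‖ ^ p.1 * ‖iteratedFDeriv ℝ p.2 (mu (n := n) ψ A R) v‖
      ≤ (2 * Real.pi) ^ 0 * (2 * ((0 : ℕ) : ℝ) + 2) ^ N * ((N + 1) * (C * A ^ N * V)) := by
        gcongr
    _ = 2 ^ N * ((N + 1) * (C * V)) * A ^ N := by
        rw [pow_zero, one_mul]; push_cast; ring
    _ ≤ _ := by nlinarith

end Pool.Agent.Y248.BA
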