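import Mathlib
import Pool.Agent.Y248.BA.Kern
import Pool.Agent.Y248.BA.Ann
import Pool.Agent.Helper390.CovarioA
set_option autoImplicit false

/-! # Size of the kernels of the annular pieces -/

namespace Pool.Agent.Y248.BA

open MeasureTheory Set Metric Complex Filter
open scoped ENNReal RealInnerProductSpace Topology FourierTransform
open Pool.Agent.H789R2.FR (E sg T sg_finite polar)
open Pool.Agent.H438R2.RZ (Bump)

/-- integrable weight -/
noncomputable def Jw {n : ℕ} (x : E n) : ℝ := (1 + ‖x‖) ^ (-((n : ℝ) + 1))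

theorem Jw_pos {n : ℕ} (x : E n) : 0 < Jw x := by unfold Jw; positivity

theorem Jw_cont {n : ℕ} : Continuous (Jw (n := n)) := by
  unfold Jw
  refine Continuous.rpow_const (by fun_prop) fun x => Or.inl (by positivity)

theorem Jw_int {n : ℕ} : Integrable (Jw (n := n)) := by
  refine integrable_one_add_norm ?_
  rw [finrank_euclideanSpace_fin]
  linarith

theorem Jw_ge {n : ℕ} (x : E n) (hx : 1 ≤ ‖x‖) : ‖x‖ ^ (-((n : ℝ) + 1)) ≤ 2 ^ (n + 1) * Jw x := by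
  unfold Jw
  rw [Real.rpow_neg (by positivity), Real.rpow_neg (by positivity), ← div_eq_mul_inv,
    le_div_iff₀ (by positivity), inv_mul_le_iff₀ (by positivity)]
  have : ((n : ℝ) + 1) = ((n + 1 : ℕ) : ℝ) := by push_cast; ring
  rw [this, Real.rpow_natCast, Real.rpow_natCast, ← mul_pow]
  exact pow_le_pow_left₀ (by positivity) (by linarith) _

theorem Kr_tail (n : ℕ) {ψ : ℝ → ℝ} (hψ : Bump ψ) (ε : ℝ) (hε : 0 < ε) :
    ∃ C : ℝ, 0 < C ∧ ∀ A R : ℝ, 1 ≤ A → 1 ≤ R → R ≤ 2 → ∀ w : E n, A ^ (1 + ε) ≤ ‖w‖ →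
      ‖Kr (n := n) ψ A R w‖ ≤ C * Jw w := by
  obtain ⟨N, hN⟩ := exists_nat_ge (((n : ℝ) + 1) * (1 + ε) / ε)
  obtain ⟨C, hC, hb⟩ := Kr_dec n hψ N
  refine ⟨C * 2 ^ (n + 1), by positivity, fun A R hA hR1 hR2 w hw => ?_⟩
  have hA0 : 0 < A := by linarith
  have h1w : 1 ≤ ‖w‖ := le_trans (Real.one_le_rpow hA (by linarith)) hw
  have hw0 : 0 < ‖w‖ := by linarith
  have hN' : ((n : ℝ) + 1) ≤ N - N / (1 + ε) := by
    rw [div_le_iff₀ hε] at hN
    have : (N : ℝ) - N / (1 + ε) = N * ε / (1 + ε) := by field_simp; ring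
    rw [this, le_div_iff₀ (by positivity)]
    exact hN
  have hAw : A ≤ ‖w‖ ^ (1 / (1 + ε)) := by
    have := Real.rpow_le_rpow (by positivity) hw (show 0 ≤ 1 / (1 + ε) by positivity)
    rwa [← Real.rpow_mul hA0.le, mul_one_div, div_self (by positivity), Real.rpow_one] at this
  have h2 : A ^ N ≤ ‖w‖ ^ ((N : ℝ) / (1 + ε)) := by
    calc A ^ N ≤ (‖w‖ ^ (1 / (1 + ε))) ^ N := pow_le_pow_left₀ hA0.le hAw N
      _ = ‖w‖ ^ ((N : ℝ) / (1 + ε)) := by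
        rw [← Real.rpow_natCast, ← Real.rpow_mul hw0.le]; congr 1; ring
  have h3 := hb A R hA hR1 hR2 w
  have h4 : ‖Kr (n := n) ψ A R w‖ ≤ C * ‖w‖ ^ (-((n : ℝ) + 1)) := by
    have h5 : ‖w‖ ^ N * ‖Kr (n := n) ψ A R w‖ ≤ C * ‖w‖ ^ ((N : ℝ) / (1 + ε)) :=
      h3.trans (by gcongr)
    have h6 : ‖Kr (n := n) ψ A R w‖ ≤ C * ‖w‖ ^ ((N : ℝ) / (1 + ε)) / ‖w‖ ^ N := by
      rw [le_div_iff₀ (by positivity), mul_comm]; exact h5
    refine h6.trans ?_
    rw [mul_div_assoc, ← Real.rpow_natCast ‖w‖ N, ← Real.rpow_sub hw0]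
    refine mul_le_mul_of_nonneg_left ?_ hC.le
    exact Real.rpow_le_rpow_of_exponent_le h1w (by linarith)
  refine h4.trans ?_
  rw [mul_assoc]
  exact mul_le_mul_of_nonneg_left (Jw_ge w h1w) hC.le

theorem Kr_crude (n : ℕ) {ψ : ℝ → ℝ} (hψ : Bump ψ) :
    ∃ C : ℝ, 0 < C ∧ ∀ A R : ℝ, 1 ≤ A → 1 ≤ R → R ≤ 2 → ∀ w : E n,
      ‖Kr (n := n) ψ A R w‖ ≤ C * A ^ (n + 1) * Jw w := by
  obtain ⟨C0, hC0, hb0⟩ := Kr_dec n hψ 0
  obtain ⟨C1, hC1, hb1⟩ := Kr_dec n hψ (n + 1)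
  refine ⟨2 ^ (n + 1) * (C0 + C1), by positivity, fun A R hA hR1 hR2 w => ?_⟩
  have h0 := hb0 A R hA hR1 hR2 w
  have h1 := hb1 A R hA hR1 hR2 w
  rw [pow_zero, one_mul, pow_zero, mul_one] at h0
  have hAp : 1 ≤ A ^ (n + 1) := one_le_pow₀ hA
  have hJ : Jw w = ((1 + ‖w‖) ^ (n + 1))⁻¹ := by
    unfold Jw
    rw [Real.rpow_neg (by positivity), ← Real.rpow_natCast]
    push_cast; rfl
  rw [hJ, ← div_eq_mul_inv, le_div_iff₀ (by positivity)]
  rcases le_total ‖w‖ 1 with h | h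
  · have h2 : (1 + ‖w‖) ^ (n + 1) ≤ 2 ^ (n + 1) :=
      pow_le_pow_left₀ (by positivity) (by linarith) _
    calc ‖Kr (n := n) ψ A R w‖ * (1 + ‖w‖) ^ (n + 1) ≤ C0 * 2 ^ (n + 1) := by gcongr
      _ ≤ 2 ^ (n + 1) * (C0 + C1) * 1 := by nlinarith [pow_pos (show (0:ℝ) < 2 by norm_num) (n + 1)]
      _ ≤ _ := by gcongr
  · have h2 : (1 + ‖w‖) ^ (n + 1) ≤ 2 ^ (n + 1) * ‖w‖ ^ (n + 1) := by
      rw [← mul_pow]
      exact pow_le_pow_left₀ (by positivity) (by linarith) _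
    calc ‖Kr (n := n) ψ A R w‖ * (1 + ‖w‖) ^ (n + 1)
        ≤ ‖Kr (n := n) ψ A R w‖ * (2 ^ (n + 1) * ‖w‖ ^ (n + 1)) := by gcongr
      _ = 2 ^ (n + 1) * (‖w‖ ^ (n + 1) * ‖Kr (n := n) ψ A R w‖) := by ring
      _ ≤ 2 ^ (n + 1) * (C1 * A ^ (n + 1)) := by gcongr
      _ ≤ 2 ^ (n + 1) * ((C0 + C1) * A ^ (n + 1)) := by
        gcongr
        linarith
      _ = _ := by ring

/-- measure of the shells carrying the multipliers -/
theorem shell_vol (n : ℕ) (hn : 2 ≤ n) : ∃ C : ℝ, 0 < C ∧ ∀ A R : ℝ, 1 ≤ A → 1 ≤ R → R ≤ 2 →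
    (volume : Measure (E n)) {ξ : E n | R - 4 / A ≤ ‖ξ‖ ∧ ‖ξ‖ ≤ R} ≤ ENNReal.ofReal (C / A) := by
  have := sg_finite n
  set σ : ℝ := (sg n).real univ with hσ
  have hσ' : (sg n) univ = ENNReal.ofReal σ := by
    rw [hσ, Measure.real, ENNReal.ofReal_toReal (measure_ne_top _ _)]
  have hσ0 : 0 ≤ σ := measureReal_nonneg
  refine ⟨2 ^ (n - 1) * 4 * σ + 1, by positivity, fun A R hA hR1 hR2 => ?_⟩
  have hA0 : 0 < A := by linarith
  have hSm : MeasurableSet {ξ : E n | R - 4 / A ≤ ‖ξ‖ ∧ ‖ξ‖ ≤ R} :=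
    (measurableSet_le measurable_const measurable_norm).inter
      (measurableSet_le measurable_norm measurable_const)
  rw [← lintegral_indicator_one hSm, polar (by omega) _ (measurable_one.indicator hSm)]
  have h1 : ∀ᵐ w ∂(sg n), (∫⁻ r in Ioi (0 : ℝ), ENNReal.ofReal (r ^ (n - 1)) *
      {ξ : E n | R - 4 / A ≤ ‖ξ‖ ∧ ‖ξ‖ ≤ R}.indicator (1 : E n → ℝ≥0∞) (r • w)) ≤
      ENNReal.ofReal (2 ^ (n - 1) * (4 / A)) := by
    filter_upwards [ae_unit n] with w hw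
    calc (∫⁻ r in Ioi (0 : ℝ), ENNReal.ofReal (r ^ (n - 1)) *
        {ξ : E n | R - 4 / A ≤ ‖ξ‖ ∧ ‖ξ‖ ≤ R}.indicator (1 : E n → ℝ≥0∞) (r • w))
        ≤ ∫⁻ r in Icc (R - 4 / A) R, ENNReal.ofReal (2 ^ (n - 1)) := by
          rw [← lintegral_indicator measurableSet_Ioi, ← lintegral_indicator measurableSet_Icc]
          refine lintegral_mono fun r => ?_
          by_cases hr : r ∈ Ioi (0 : ℝ)
          · rw [indicator_of_mem hr]
            have hr0 : (0 : ℝ) < r := hr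
            have hnorm : ‖r • w‖ = r := by rw [norm_smul, hw, mul_one, Real.norm_of_nonneg hr0.le]
            by_cases hrW : r ∈ Icc (R - 4 / A) R
            · have hmem : r • w ∈ {ξ : E n | R - 4 / A ≤ ‖ξ‖ ∧ ‖ξ‖ ≤ R} := by
                change R - 4 / A ≤ ‖r • w‖ ∧ ‖r • w‖ ≤ R
                rw [hnorm]; exact hrW
              rw [indicator_of_mem hmem, indicator_of_mem hrW, Pi.one_apply, mul_one]
              gcongr
              exact hrW.2.trans hR2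
            · have hmem : r • w ∉ {ξ : E n | R - 4 / A ≤ ‖ξ‖ ∧ ‖ξ‖ ≤ R} := by
                change ¬ (R - 4 / A ≤ ‖r • w‖ ∧ ‖r • w‖ ≤ R)
                rw [hnorm]; exact hrW
              rw [indicator_of_notMem hmem, mul_zero]
              exact zero_le
          · rw [indicator_of_notMem hr]
            exact zero_le
      _ = ENNReal.ofReal (2 ^ (n - 1) * (4 / A)) := by
          rw [setLIntegral_const, Real.volume_Icc, ← ENNReal.ofReal_mul (by positivity)]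
          congr 2; ring
  refine (lintegral_mono_ae h1).trans ?_
  rw [lintegral_const, hσ', ← ENNReal.ofReal_mul (by positivity)]
  refine ENNReal.ofReal_le_ofReal ?_
  rw [le_div_iff₀ hA0]
  have : 2 ^ (n - 1) * (4 / A) * σ * A = 2 ^ (n - 1) * 4 * σ := by field_simp
  rw [this]; linarith

/-- location of the support -/
theorem mu_loc {n : ℕ} {ψ : ℝ → ℝ} (hψ : Bump ψ) {A R : ℝ} (hA : 4 ≤ A) (hR : 1 ≤ R) (hR2 : R ≤ 2)
    (ξ : E n) (h : mu ψ A R ξ ≠ 0) : R - 4 / A ≤ ‖ξ‖ ∧ ‖ξ‖ ≤ R := by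
  have hA0 : 0 < A := by linarith
  obtain ⟨h1, h2⟩ := mu_supp hψ hA0 (by linarith) ξ h
  have h3 : 0 < 1 / (2 * A) := by positivity
  have h4 : 2 / A ≤ 1 / 2 := by
    rw [div_le_div_iff₀ hA0 (by norm_num)]; linarith
  have h5 : 0 < 2 / A := by positivity
  constructor
  · by_contra hc
    push Not at hc
    have h6 : R * (1 - 2 / A) ≤ ‖ξ‖ := by
      refine le_of_sq_le_sq ?_ (norm_nonneg _)
      refine le_trans ?_ h1
      have : (R * (1 - 2 / A)) ^ 2 = R ^ 2 * ((1 - 2 / A) * (1 - 2 / A)) := by ring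
      rw [this]
      gcongr
      nlinarith
    have h7 : 4 / A = 2 * (2 / A) := by ring
    nlinarith
  · refine le_of_sq_le_sq ?_ (by linarith)
    nlinarith [mul_pos (pow_pos (show 0 < R by linarith) 2) h3]

end Pool.Agent.Y248.BA
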