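import Mathlib
import Pool.Agent.Y248.BA.Kern2
set_option autoImplicit false

/-! # The operators of the annular pieces -/

namespace Pool.Agent.Y248.BA

open MeasureTheory Set Metric Complex Filter
open scoped ENNReal RealInnerProductSpace Topology FourierTransform
open Pool.Agent.H789R2.FR (E sg T sg_finite polar)
open Pool.Agent.H438R2.RZ (Bump)

/-- the operator of the annular piece -/
noncomputable def Tp {n : ℕ} (ψ : ℝ → ℝ) (A R : ℝ) (f : E n → ℂ) (x : E n) : ℂ :=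
  ∫ y : E n, Kr ψ A R (x - y) * f y

/-- reflected Fourier transform -/
noncomputable def gh {n : ℕ} (g : E n → ℂ) (ξ : E n) : ℂ := 𝓕 g (-ξ)

theorem gh_cont {n : ℕ} {g : E n → ℂ} (hg : Integrable g) : Continuous (gh g) :=
  (four_cont hg).comp continuous_neg

theorem mu_cont {n : ℕ} {ψ : ℝ → ℝ} (hψ : Bump ψ) (A R : ℝ) : Continuous (mu (n := n) ψ A R) :=
  (mu_smooth hψ A R).continuous

theorem mu_bdd {ψ : ℝ → ℝ} (hψ : Bump ψ) : ∃ M : ℝ, 0 < M ∧ ∀ (n : ℕ) (A R : ℝ) (ξ : E n),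
    ‖mu ψ A R ξ‖ ≤ M := by
  obtain ⟨M, hM⟩ := (isCompact_Icc (a := (1 / 2 : ℝ)) (b := 2)).exists_bound_of_continuousOn
    hψ.1.continuous.continuousOn
  refine ⟨max M 1, by positivity, fun n A R ξ => ?_⟩
  unfold mu
  rw [Complex.norm_real]
  by_cases h : ψ (A * (1 - (R ^ 2)⁻¹ * ‖ξ‖ ^ 2)) = 0
  · rw [h]; simp
  · exact (hM _ (hψ.2 _ h)).trans (le_max_left _ _)

theorem mu_int {n : ℕ} {ψ : ℝ → ℝ} (hψ : Bump ψ) {A R : ℝ} (hA : 0 < A) (hR : 0 < R)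
    (hR2 : R ≤ 2) : Integrable (mu (n := n) ψ A R) :=
  (mu_cont hψ A R).integrable_of_hasCompactSupport (mu_comp hψ hA hR hR2)

/-- a kernel given by a continuous compactly supported multiplier -/
theorem conv_eq {n : ℕ} {m : E n → ℂ} (hm : Integrable m) {g : E n → ℂ} (hg : Integrable g)
    (x : E n) : ∫ y : E n, 𝓕 m (x - y) * g y = 𝓕 (fun ξ => m ξ * gh g ξ) x := by
  have hprod : Integrable (fun z : E n × E n => (m z.2 * g z.1) *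
      cexp (((-2 * Real.pi * ⟪z.2, x - z.1⟫ : ℝ) : ℂ) * I))
      ((volume : Measure (E n)).prod volume) := by
    have h1 : Integrable (fun z : E n × E n => m z.2 * g z.1)
        ((volume : Measure (E n)).prod volume) := by
      have := hg.mul_prod hm
      refine this.congr (Eventually.of_forall fun z => mul_comm _ _)
    refine h1.mul_bdd (c := 1) ?_ (Eventually.of_forall fun z => ?_)
    · apply Continuous.aestronglyMeasurable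
      fun_prop
    · rw [Complex.norm_exp_ofReal_mul_I]
  have e1 : ∀ y, 𝓕 m (x - y) * g y = ∫ ξ, (m ξ * g y) *
      cexp (((-2 * Real.pi * ⟪ξ, x - y⟫ : ℝ) : ℂ) * I) := by
    intro y
    rw [four_eq, ← integral_mul_const]
    congr 1; funext ξ
    ring
  have e2 : ∀ ξ, cexp (((-2 * Real.pi * ⟪ξ, x⟫ : ℝ) : ℂ) * I) * (m ξ * gh g ξ) =
      ∫ y, (m ξ * g y) * cexp (((-2 * Real.pi * ⟪ξ, x - y⟫ : ℝ) : ℂ) * I) := by
    intro ξ
    unfold gh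
    rw [four_eq, ← integral_const_mul, ← integral_const_mul]
    congr 1; funext y
    have e3 : (((-2 * Real.pi * ⟪ξ, x - y⟫ : ℝ) : ℂ) * I) =
        (((-2 * Real.pi * ⟪ξ, x⟫ : ℝ) : ℂ) * I) + (((-2 * Real.pi * ⟪y, -ξ⟫ : ℝ) : ℂ) * I) := by
      rw [inner_sub_right, inner_neg_right, real_inner_comm ξ y]
      push_cast; ring
    rw [e3, Complex.exp_add]
    ring
  simp only [e1]
  rw [integral_integral_swap hprod, four_eq]
  congr 1; funext ξ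
  rw [e2]

theorem Tp_eq {n : ℕ} {ψ : ℝ → ℝ} (hψ : Bump ψ) {A R : ℝ} (hA : 0 < A) (hR : 0 < R)
    (hR2 : R ≤ 2) {g : E n → ℂ} (hg : Integrable g) :
    Tp ψ A R g = 𝓕 (fun ξ => mu ψ A R ξ * gh g ξ) := by
  funext x
  exact conv_eq (mu_int hψ hA hR hR2) hg x

/-- Plancherel for lower integrals -/
theorem planch {n : ℕ} {g : E n → ℂ} (h1 : Integrable g) (h2 : MemLp g 2) :
    ∫⁻ ξ, ‖𝓕 g ξ‖ₑ ^ (2 : ℝ) = ∫⁻ x, ‖g x‖ₑ ^ (2 : ℝ) := by
  obtain ⟨h3, h4⟩ := Pool.Agent.Helper390.Covario.plancherel h1 h2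
  have key : ∀ h : E n → ℂ, MemLp h 2 → ∫⁻ x, ‖h x‖ₑ ^ (2 : ℝ) = ENNReal.ofReal (∫ x, ‖h x‖ ^ 2) := by
    intro h hh
    have hi : Integrable fun x => ‖h x‖ ^ 2 := hh.norm.integrable_sq
    rw [ofReal_integral_eq_lintegral_ofReal hi (Eventually.of_forall fun x => by positivity)]
    refine lintegral_congr fun x => ?_
    rw [← ofReal_norm, ENNReal.ofReal_rpow_of_nonneg (norm_nonneg _) (by norm_num)]
    congr 1
    exact_mod_cast Real.rpow_natCast _ 2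
  rw [key _ h3, key _ h2, h4]

theorem gh_planch {n : ℕ} {g : E n → ℂ} (h1 : Integrable g) (h2 : MemLp g 2) :
    ∫⁻ ξ, ‖gh g ξ‖ₑ ^ (2 : ℝ) = ∫⁻ x, ‖g x‖ₑ ^ (2 : ℝ) := by
  rw [← planch h1 h2]
  exact lintegral_neg_eq_self (fun ξ => ‖𝓕 g ξ‖ₑ ^ (2 : ℝ))

/-- admissible families of radii -/
structure Rad (A : ℝ) (K : Finset ℕ) (R : ℕ → ℝ) : Prop where
  lo : ∀ k ∈ K, 1 + k / A ≤ R k
  hi : ∀ k ∈ K, R k ≤ 1 + (k + 1) / A
  two : ∀ k ∈ K, R k ≤ 2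

theorem Rad.one {A : ℝ} {K : Finset ℕ} {R : ℕ → ℝ} (h : Rad A K R) (hA : 0 < A) {k : ℕ}
    (hk : k ∈ K) : 1 ≤ R k := by
  have := h.lo k hk
  have h2 : 0 ≤ (k : ℝ) / A := by positivity
  linarith

/-- bounded overlap of the annuli -/
theorem overlap {n : ℕ} {ψ : ℝ → ℝ} (hψ : Bump ψ) {A : ℝ} (hA : 8 ≤ A) {K : Finset ℕ} {R : ℕ → ℝ}
    (hR : Rad A K R) (ξ : E n) : (K.filter fun k => mu ψ A (R k) ξ ≠ 0).card ≤ 6 := by
  have hA0 : 0 < A := by linarith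
  set F := K.filter fun k => mu ψ A (R k) ξ ≠ 0 with hF
  rcases F.eq_empty_or_nonempty with h | h
  · rw [h]; simp
  have hmem : ∀ k ∈ F, A * (‖ξ‖ - 1) - 1 ≤ k ∧ (k : ℝ) ≤ A * (‖ξ‖ - 1) + 4 := by
    intro k hk
    obtain ⟨hkK, hk2⟩ := Finset.mem_filter.1 hk
    have h1 := mu_loc hψ (by linarith) (hR.one hA0 hkK) (hR.two k hkK) ξ hk2
    have h2 := hR.lo k hkK
    have h3 := hR.hi k hkK
    have h4 : (k : ℝ) / A * A = k := by field_simp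
    have h5 : ((k : ℝ) + 1) / A * A = k + 1 := by field_simp
    have h6 : 4 / A * A = 4 := by field_simp
    constructor <;> nlinarith
  have hsub : F ⊆ Finset.Icc (F.min' h) (F.min' h + 5) := by
    intro k hk
    rw [Finset.mem_Icc]
    refine ⟨Finset.min'_le _ _ hk, ?_⟩
    have h1 := (hmem k hk).2
    have h2 := (hmem _ (Finset.min'_mem F h)).1
    have h3 : (k : ℝ) ≤ F.min' h + 5 := by linarith
    exact_mod_cast h3
  refine (Finset.card_le_card hsub).trans ?_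
  rw [Nat.card_Icc]; omega

theorem sum_mu {n : ℕ} {ψ : ℝ → ℝ} (hψ : Bump ψ) {M : ℝ} (_hM0 : 0 ≤ M)
    (hM : ∀ (A R : ℝ) (ξ : E n), ‖mu ψ A R ξ‖ ≤ M) {A : ℝ} (hA : 8 ≤ A) {K : Finset ℕ} {R : ℕ → ℝ}
    (hR : Rad A K R) (ξ : E n) : ∑ k ∈ K, ‖mu ψ A (R k) ξ‖ ^ 2 ≤ 6 * M ^ 2 := by
  rw [← Finset.sum_filter_add_sum_filter_not K (fun k => mu ψ A (R k) ξ ≠ 0)]
  have h2 : ∑ k ∈ K.filter (fun k => ¬ (mu ψ A (R k) ξ ≠ 0)), ‖mu ψ A (R k) ξ‖ ^ 2 = 0 := by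
    refine Finset.sum_eq_zero fun k hk => ?_
    have := (Finset.mem_filter.1 hk).2
    push Not at this
    rw [this]; simp
  rw [h2, add_zero]
  calc ∑ k ∈ K.filter (fun k => mu ψ A (R k) ξ ≠ 0), ‖mu ψ A (R k) ξ‖ ^ 2
      ≤ ∑ k ∈ K.filter (fun k => mu ψ A (R k) ξ ≠ 0), M ^ 2 := by
        refine Finset.sum_le_sum fun k _ => ?_
        have := hM A (R k) ξ
        gcongr
    _ = ((K.filter (fun k => mu ψ A (R k) ξ ≠ 0)).card : ℝ) * M ^ 2 := by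
        rw [Finset.sum_const, nsmul_eq_mul]
    _ ≤ 6 * M ^ 2 := by
        have := overlap hψ hA hR ξ
        have h3 : ((K.filter (fun k => mu ψ A (R k) ξ ≠ 0)).card : ℝ) ≤ 6 := by exact_mod_cast this
        gcongr

/-- the spectral side of the pieces -/
noncomputable def Fk {n : ℕ} (ψ : ℝ → ℝ) (A R : ℝ) (g : E n → ℂ) (ξ : E n) : ℂ :=
  mu ψ A R ξ * gh g ξ

theorem Fk_cont {n : ℕ} {ψ : ℝ → ℝ} (hψ : Bump ψ) (A R : ℝ) {g : E n → ℂ} (hg : Integrable g) :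
    Continuous (Fk ψ A R g) := (mu_cont hψ A R).mul (gh_cont hg)

theorem Fk_comp {n : ℕ} {ψ : ℝ → ℝ} (hψ : Bump ψ) {A R : ℝ} (hA : 0 < A) (hR : 0 < R)
    (hR2 : R ≤ 2) (g : E n → ℂ) : HasCompactSupport (Fk ψ A R g) :=
  (mu_comp hψ hA hR hR2).mul_right

theorem Fk_int {n : ℕ} {ψ : ℝ → ℝ} (hψ : Bump ψ) {A R : ℝ} (hA : 0 < A) (hR : 0 < R)
    (hR2 : R ≤ 2) {g : E n → ℂ} (hg : Integrable g) : Integrable (Fk ψ A R g) :=
  (Fk_cont hψ A R hg).integrable_of_hasCompactSupport (Fk_comp hψ hA hR hR2 g)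

theorem Fk_two {n : ℕ} {ψ : ℝ → ℝ} (hψ : Bump ψ) {A R : ℝ} (hA : 0 < A) (hR : 0 < R)
    (hR2 : R ≤ 2) {g : E n → ℂ} (hg : Integrable g) : MemLp (Fk ψ A R g) 2 :=
  (Fk_cont hψ A R hg).memLp_of_hasCompactSupport (Fk_comp hψ hA hR hR2 g)

/-- orthogonality of the pieces -/
theorem bessel {n : ℕ} {ψ : ℝ → ℝ} (hψ : Bump ψ) {M : ℝ} (hM0 : 0 ≤ M)
    (hM : ∀ (A R : ℝ) (ξ : E n), ‖mu ψ A R ξ‖ ≤ M) {A : ℝ} (hA : 8 ≤ A) {K : Finset ℕ} {R : ℕ → ℝ}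
    (hR : Rad A K R) {g : E n → ℂ} (hg : Integrable g) (hg2 : MemLp g 2) :
    ∑ k ∈ K, ∫⁻ ξ, ‖Fk ψ A (R k) g ξ‖ₑ ^ (2 : ℝ) ≤
      ENNReal.ofReal (6 * M ^ 2) * ∫⁻ x, ‖g x‖ₑ ^ (2 : ℝ) := by
  rw [← gh_planch hg hg2, ← lintegral_finsetSum _ fun k _ =>
    ((Fk_cont hψ A (R k) hg).measurable.enorm.pow_const _), ← lintegral_const_mul _
    ((gh_cont hg).measurable.enorm.pow_const _)]
  refine lintegral_mono fun ξ => ?_
  have e1 : ∀ k, ‖Fk ψ A (R k) g ξ‖ₑ ^ (2 : ℝ) =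
      ENNReal.ofReal (‖mu ψ A (R k) ξ‖ ^ 2) * ‖gh g ξ‖ₑ ^ (2 : ℝ) := by
    intro k
    unfold Fk
    rw [enorm_mul, ENNReal.mul_rpow_of_nonneg _ _ (by norm_num), ← ofReal_norm (mu ψ A (R k) ξ),
      ENNReal.ofReal_rpow_of_nonneg (norm_nonneg _) (by norm_num)]
    congr 2
    exact_mod_cast Real.rpow_natCast _ 2
  simp only [e1]
  rw [← Finset.sum_mul, ← ENNReal.ofReal_sum_of_nonneg fun k _ => by positivity]
  gcongr
  exact sum_mu hψ hM0 hM hA hR ξ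

end Pool.Agent.Y248.BA
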