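import Mathlib
import Pool.Agent.Y248.BA.Op
set_option autoImplicit false

/-! # Local estimates for several radii: large exponents -/

namespace Pool.Agent.Y248.BA

open MeasureTheory Set Metric Complex Filter
open scoped ENNReal RealInnerProductSpace Topology FourierTransform
open Pool.Agent.H789R2.FR (E sg T sg_finite polar)
open Pool.Agent.H438R2.RZ (Bump)

/-- Hölder on a set -/
theorem loc_norm {n : ℕ} {g : E n → ℂ} (hg : Measurable g) {B : Set (E n)} (hB : MeasurableSet B)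
    (hs : ∀ x, x ∉ B → g x = 0) (q p : ℝ) (hq : 0 < q) (hqp : q ≤ p) :
    ∫⁻ x, ‖g x‖ₑ ^ q ≤ volume B ^ (1 - q / p) * (∫⁻ x, ‖g x‖ₑ ^ p) ^ (q / p) := by
  have hp0 : 0 < p := by linarith
  have h1 := ENNReal.lintegral_mul_norm_pow_le (μ := (volume : Measure (E n)))
    (f := B.indicator (1 : E n → ℝ≥0∞)) (g := fun x => ‖g x‖ₑ ^ p)
    (measurable_one.indicator hB).aemeasurable (hg.enorm.pow_const _).aemeasurable
    (p := 1 - q / p) (q := q / p) (by rw [sub_nonneg, div_le_one hp0]; exact hqp)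
    (by positivity) (by ring)
  rw [lintegral_indicator_one hB] at h1
  refine (lintegral_mono fun x => ?_).trans h1
  by_cases hx : x ∈ B
  · simp only [indicator_of_mem hx, Pi.one_apply, ENNReal.one_rpow, one_mul]
    rw [← ENNReal.rpow_mul, mul_div_cancel₀ _ hp0.ne']
  · rw [hs x hx, enorm_zero, ENNReal.zero_rpow_of_pos hq]
    exact zero_le

theorem sum_rpow_le {ι : Type*} (s : Finset ι) (f : ι → ℝ≥0∞) (p : ℝ) (hp : 1 ≤ p) :
    ∑ i ∈ s, f i ^ p ≤ (∑ i ∈ s, f i) ^ p := by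
  classical
  induction s using Finset.induction_on with
  | empty => simp
  | insert a s ha ih =>
    rw [Finset.sum_insert ha, Finset.sum_insert ha]
    exact (add_le_add le_rfl ih).trans (ENNReal.add_rpow_le_rpow_add _ _ hp)

theorem ball_vol (n : ℕ) : ∃ V : ℝ, 0 < V ∧ ∀ (u : E n) (r : ℝ), 0 ≤ r →
    (volume : Measure (E n)) (closedBall u r) = ENNReal.ofReal (V * r ^ n) := by
  refine ⟨((volume : Measure (E n)) (ball 0 1)).toReal, ?_, fun u r hr => ?_⟩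
  · refine ENNReal.toReal_pos (measure_ball_pos _ _ one_pos).ne' measure_ball_lt_top.ne
  · rw [Measure.addHaar_closedBall _ _ hr, finrank_euclideanSpace_fin,
      ENNReal.ofReal_mul ENNReal.toReal_nonneg, ENNReal.ofReal_toReal measure_ball_lt_top.ne,
      mul_comm]

theorem int_of_loc {n : ℕ} {g : E n → ℂ} (hg : Measurable g) {u : E n} {r : ℝ}
    (hs : ∀ x, x ∉ closedBall u r → g x = 0) (p : ℝ) (hp : 1 ≤ p)
    (hfin : ∫⁻ x, ‖g x‖ₑ ^ p ≠ ∞) : Integrable g := by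
  have h := loc_norm hg isClosed_closedBall.measurableSet hs 1 p one_pos hp
  simp only [ENNReal.rpow_one] at h
  refine ⟨hg.aestronglyMeasurable, h.trans_lt ?_⟩
  refine ENNReal.mul_lt_top (ENNReal.rpow_lt_top_of_nonneg ?_ measure_closedBall_lt_top.ne)
    (ENNReal.rpow_lt_top_of_nonneg (by positivity) hfin)
  rw [sub_nonneg, div_le_one (by linarith)]; exact hp

theorem memLp_two {n : ℕ} {g : E n → ℂ} (hg : Measurable g)
    (hfin : ∫⁻ x, ‖g x‖ₑ ^ (2 : ℝ) ≠ ∞) : MemLp g 2 := by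
  refine ⟨hg.aestronglyMeasurable, ?_⟩
  rw [eLpNorm_eq_lintegral_rpow_enorm_toReal (by norm_num) (by norm_num)]
  refine ENNReal.rpow_lt_top_of_nonneg (by norm_num) ?_
  simpa using hfin

theorem loc_big (n : ℕ) (hn : 2 ≤ n) {ψ : ℝ → ℝ} (hψ : Bump ψ) (p : ℝ) (hp2 : 2 < p)
    (hp : p < 2 * ((n : ℝ) + 1) / ((n : ℝ) - 1)) : ∃ C : ℝ, 0 < C ∧ ∀ A : ℝ, 8 ≤ A →
    ∀ (K : Finset ℕ) (R : ℕ → ℝ), Rad A K R → ∀ ρ : ℝ, 0 < ρ → ∀ u : E n, ∀ g : E n → ℂ,
    Measurable g → (∀ x, x ∉ closedBall u (2 * ρ) → g x = 0) → ∫⁻ x, ‖g x‖ₑ ^ p ≠ ∞ →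
    ∑ k ∈ K, ∫⁻ x in closedBall u ρ, ‖Tp ψ A (R k) g x‖ₑ ^ p ≤
      ENNReal.ofReal (C * ρ ^ (1 + ((n : ℝ) + 1) * (p - 2) / 4) * A ^ (-(p / 2))) *
        ∫⁻ x, ‖g x‖ₑ ^ p := by
  obtain ⟨C, hC, hE⟩ := ext_ann n hn p hp2 hp
  obtain ⟨M, hM, hMb⟩ := mu_bdd hψ
  obtain ⟨V, hV, hVb⟩ := ball_vol n
  have hp0 : 0 < p := by linarith
  refine ⟨C ^ p * 4 ^ (p / 2) * (6 * M ^ 2) ^ (p / 2) * (V * 2 ^ n) ^ (p / 2 - 1), by positivity,
    fun A hA K R hR ρ hρ u g hg hgs hgp => ?_⟩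
  have hA0 : 0 < A := by linarith
  have hgi := int_of_loc hg hgs p (by linarith) hgp
  have hBm : MeasurableSet (closedBall u (2 * ρ)) := isClosed_closedBall.measurableSet
  have hl2 := loc_norm hg hBm hgs 2 p two_pos hp2.le
  have hl2f : ∫⁻ x, ‖g x‖ₑ ^ (2 : ℝ) ≠ ∞ := by
    refine (hl2.trans_lt ?_).ne
    refine ENNReal.mul_lt_top (ENNReal.rpow_lt_top_of_nonneg ?_ measure_closedBall_lt_top.ne)
      (ENNReal.rpow_lt_top_of_nonneg (by positivity) hgp)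
    rw [sub_nonneg, div_le_one (by linarith)]; exact hp2.le
  have hg2 := memLp_two hg hl2f
  -- each radius
  have hk : ∀ k ∈ K, ∫⁻ x in closedBall u ρ, ‖Tp ψ A (R k) g x‖ₑ ^ p ≤
      ENNReal.ofReal (C ^ p * ρ ^ tau n p * (4 / A) ^ (p / 2)) *
        (∫⁻ ξ, ‖Fk ψ A (R k) g ξ‖ₑ ^ (2 : ℝ)) ^ (p / 2) := by
    intro k hk
    have hR1 := hR.one hA0 hk
    have hR2 := hR.two k hk
    have h4A : 4 / A ≤ 1 / 2 := by
      rw [div_le_div_iff₀ hA0 (by norm_num)]; linarith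
    have h4A0 : 0 < 4 / A := by positivity
    have hWs : Icc (R k - 4 / A) (R k) ⊆ Icc (1 / 4 : ℝ) 4 := by
      intro r hr
      exact ⟨by linarith [hr.1], by linarith [hr.2]⟩
    have h1 := hE (Fk ψ A (R k) g) (Fk_cont hψ A (R k) hgi).measurable
      (Fk_int hψ hA0 (by linarith) hR2 hgi) (Icc (R k - 4 / A) (R k)) measurableSet_Icc hWs
      (fun ξ hξ => by
        unfold Fk
        have : mu ψ A (R k) ξ = 0 := by
          by_contra hne
          exact hξ (mu_loc hψ (by linarith) hR1 hR2 ξ hne)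
        rw [this, zero_mul]) u ρ hρ
    rw [Tp_eq hψ hA0 (by linarith) hR2 hgi]
    have h2 := ENNReal.rpow_le_rpow h1 hp0.le
    rw [← ENNReal.rpow_mul, one_div, inv_mul_cancel₀ hp0.ne', ENNReal.rpow_one] at h2
    refine h2.trans (le_of_eq ?_)
    rw [Real.volume_Icc, show R k - (R k - 4 / A) = 4 / A by ring,
      ENNReal.mul_rpow_of_nonneg _ _ hp0.le, ENNReal.mul_rpow_of_nonneg _ _ hp0.le,
      ENNReal.ofReal_rpow_of_nonneg (by positivity) hp0.le,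
      ENNReal.ofReal_rpow_of_nonneg (by positivity) (by norm_num),
      ENNReal.ofReal_rpow_of_nonneg (by positivity) hp0.le, ← ENNReal.rpow_mul,
      ← ENNReal.ofReal_mul (by positivity)]
    congr 2
    · rw [Real.mul_rpow hC.le (by positivity), ← Real.rpow_mul hρ.le, ← Real.rpow_mul h4A0.le,
        div_mul_cancel₀ _ hp0.ne']
      congr 2
      ring
    · ring
  calc ∑ k ∈ K, ∫⁻ x in closedBall u ρ, ‖Tp ψ A (R k) g x‖ₑ ^ p
      ≤ ∑ k ∈ K, ENNReal.ofReal (C ^ p * ρ ^ tau n p * (4 / A) ^ (p / 2)) *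
        (∫⁻ ξ, ‖Fk ψ A (R k) g ξ‖ₑ ^ (2 : ℝ)) ^ (p / 2) := Finset.sum_le_sum hk
    _ = ENNReal.ofReal (C ^ p * ρ ^ tau n p * (4 / A) ^ (p / 2)) *
        ∑ k ∈ K, (∫⁻ ξ, ‖Fk ψ A (R k) g ξ‖ₑ ^ (2 : ℝ)) ^ (p / 2) := by rw [Finset.mul_sum]
    _ ≤ ENNReal.ofReal (C ^ p * ρ ^ tau n p * (4 / A) ^ (p / 2)) *
        (∑ k ∈ K, ∫⁻ ξ, ‖Fk ψ A (R k) g ξ‖ₑ ^ (2 : ℝ)) ^ (p / 2) := by
        gcongr
        exact sum_rpow_le _ _ _ (by linarith)
    _ ≤ ENNReal.ofReal (C ^ p * ρ ^ tau n p * (4 / A) ^ (p / 2)) *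
        (ENNReal.ofReal (6 * M ^ 2) * (ENNReal.ofReal (V * (2 * ρ) ^ n) ^ (1 - 2 / p) *
          (∫⁻ x, ‖g x‖ₑ ^ p) ^ (2 / p))) ^ (p / 2) := by
        gcongr
        refine (bessel hψ hM.le (hMb n) hA hR hgi hg2).trans ?_
        gcongr
        rwa [hVb u (2 * ρ) (by positivity)] at hl2
    _ = _ := by
        have hp2' : 0 ≤ p / 2 := by positivity
        rw [ENNReal.mul_rpow_of_nonneg _ _ hp2', ENNReal.mul_rpow_of_nonneg _ _ hp2',
          ← ENNReal.rpow_mul, ← ENNReal.rpow_mul, show 2 / p * (p / 2) = 1 by field_simp,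
          ENNReal.rpow_one, show (1 - 2 / p) * (p / 2) = p / 2 - 1 by field_simp,
          ENNReal.ofReal_rpow_of_nonneg (by positivity) hp2',
          ENNReal.ofReal_rpow_of_nonneg (by positivity) (by linarith), ← mul_assoc, ← mul_assoc,
          ← ENNReal.ofReal_mul (by positivity), ← ENNReal.ofReal_mul (by positivity)]
        congr 2
        have e1 : ρ ^ (1 + ((n : ℝ) + 1) * (p - 2) / 4) =
            ρ ^ tau n p * ρ ^ ((n : ℝ) * (p / 2 - 1)) := by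
          rw [← Real.rpow_add hρ]; congr 1; unfold tau; ring
        have e2 : (V * (2 * ρ) ^ n) ^ (p / 2 - 1) =
            (V * 2 ^ n) ^ (p / 2 - 1) * ρ ^ ((n : ℝ) * (p / 2 - 1)) := by
          rw [mul_pow, ← mul_assoc, Real.mul_rpow (by positivity) (by positivity),
            ← Real.rpow_natCast ρ n, ← Real.rpow_mul hρ.le]
        have e3 : (4 / A) ^ (p / 2) = 4 ^ (p / 2) * A ^ (-(p / 2)) := by
          rw [Real.div_rpow (by norm_num) hA0.le, Real.rpow_neg hA0.le]; ring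
        rw [e1, e2, e3]
        ring

end Pool.Agent.Y248.BA
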