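import Mathlib
import Pool.Agent.Y248.BA.LocA
set_option autoImplicit false

/-! # Local estimates for several radii: small exponents -/

namespace Pool.Agent.Y248.BA

open MeasureTheory Set Metric Complex Filter
open scoped ENNReal RealInnerProductSpace Topology FourierTransform
open Pool.Agent.H789R2.FR (E sg T sg_finite polar)
open Pool.Agent.H438R2.RZ (Bump)

theorem sum_rpow_small {ι : Type*} (s : Finset ι) (f : ι → ℝ≥0∞) (r : ℝ) (hr0 : 0 < r)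
    (hr : r ≤ 1) : ∑ i ∈ s, f i ^ r ≤ (s.card : ℝ≥0∞) ^ (1 - r) * (∑ i ∈ s, f i) ^ r := by
  have h1 := ENNReal.rpow_sum_le_const_mul_sum_rpow s (fun i => f i ^ r)
    (one_le_inv_iff₀.2 ⟨hr0, hr⟩)
  have e1 : ∀ i, (f i ^ r) ^ r⁻¹ = f i := fun i => by
    rw [← ENNReal.rpow_mul, mul_inv_cancel₀ hr0.ne', ENNReal.rpow_one]
  simp only [e1] at h1
  have h2 := ENNReal.rpow_le_rpow h1 hr0.le
  rw [← ENNReal.rpow_mul, inv_mul_cancel₀ hr0.ne', ENNReal.rpow_one,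
    ENNReal.mul_rpow_of_nonneg _ _ hr0.le, ← ENNReal.rpow_mul] at h2
  refine h2.trans (le_of_eq ?_)
  congr 2
  field_simp

theorem gh_conj {n : ℕ} (g : E n → ℂ) (ξ : E n) :
    (starRingEnd ℂ) (gh g ξ) = 𝓕 (fun x => (starRingEnd ℂ) (g x)) ξ := by
  unfold gh
  rw [four_eq, four_eq, ← integral_conj]
  congr 1; funext y
  rw [map_mul, ← Complex.exp_conj]
  congr 2
  rw [map_mul, Complex.conj_ofReal, Complex.conj_I, inner_neg_right]
  push_cast; ring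

theorem mu_conj {n : ℕ} (ψ : ℝ → ℝ) (A R : ℝ) (ξ : E n) :
    (starRingEnd ℂ) (mu ψ A R ξ) = mu ψ A R ξ := by
  unfold mu; exact Complex.conj_ofReal _

/-- the total multiplier -/
noncomputable def sqm {n : ℕ} (ψ : ℝ → ℝ) (A : ℝ) (K : Finset ℕ) (R : ℕ → ℝ) (ξ : E n) : ℝ :=
  ∑ k ∈ K, ‖mu ψ A (R k) ξ‖ ^ 2

theorem sqm_cont {n : ℕ} {ψ : ℝ → ℝ} (hψ : Bump ψ) (A : ℝ) (K : Finset ℕ) (R : ℕ → ℝ) :
    Continuous (sqm (n := n) ψ A K R) :=
  continuous_finsetSum _ fun k _ => ((mu_cont hψ A (R k)).norm).pow 2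

theorem sqm_nonneg {n : ℕ} (ψ : ℝ → ℝ) (A : ℝ) (K : Finset ℕ) (R : ℕ → ℝ) (ξ : E n) :
    0 ≤ sqm ψ A K R ξ := Finset.sum_nonneg fun k _ => by positivity

/-- the shell of all radii -/
def Wset (A : ℝ) (K : Finset ℕ) (R : ℕ → ℝ) : Set ℝ := ⋃ k ∈ K, Icc (R k - 4 / A) (R k)

theorem Wset_meas (A : ℝ) (K : Finset ℕ) (R : ℕ → ℝ) : MeasurableSet (Wset A K R) :=
  Finset.measurableSet_biUnion _ fun _ _ => measurableSet_Icc

theorem Wset_vol {A : ℝ} (_hA : 0 < A) (K : Finset ℕ) (R : ℕ → ℝ) :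
    volume (Wset A K R) ≤ ENNReal.ofReal (4 * K.card / A) := by
  refine (measure_biUnion_finset_le _ _).trans ?_
  have : ∀ k ∈ K, volume (Icc (R k - 4 / A) (R k)) = ENNReal.ofReal (4 / A) := by
    intro k _
    rw [Real.volume_Icc]; congr 1; ring
  rw [Finset.sum_congr rfl this, Finset.sum_const, nsmul_eq_mul, ← ENNReal.ofReal_natCast,
    ← ENNReal.ofReal_mul (by positivity)]
  refine ENNReal.ofReal_le_ofReal (le_of_eq ?_)
  ring

theorem sqm_supp {n : ℕ} {ψ : ℝ → ℝ} (hψ : Bump ψ) {A : ℝ} (hA : 8 ≤ A) {K : Finset ℕ} {R : ℕ → ℝ}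
    (hR : Rad A K R) (ξ : E n) (h : ‖ξ‖ ∉ Wset A K R) : sqm ψ A K R ξ = 0 := by
  refine Finset.sum_eq_zero fun k hk => ?_
  have : mu ψ A (R k) ξ = 0 := by
    by_contra hne
    exact h (mem_biUnion hk (mu_loc hψ (by linarith) (hR.one (by linarith) hk) (hR.two k hk) ξ hne))
  rw [this]; simp

theorem Wset_sub {A : ℝ} (hA : 8 ≤ A) {K : Finset ℕ} {R : ℕ → ℝ} (hR : Rad A K R) :
    Wset A K R ⊆ Icc (1 / 4 : ℝ) 4 := by
  intro r hr
  unfold Wset at hr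
  simp only [mem_iUnion] at hr
  obtain ⟨k, hk, hr⟩ := hr
  have hA0 : 0 < A := by linarith
  have h4A : 4 / A ≤ 1 / 2 := by
    rw [div_le_div_iff₀ hA0 (by norm_num)]; linarith
  have h1 := hR.one hA0 hk
  have h2 := hR.two k hk
  exact ⟨by linarith [hr.1], by linarith [hr.2]⟩

/-- **Spectral restriction estimate.** -/
theorem restr_multi (n : ℕ) (hn : 2 ≤ n) {ψ : ℝ → ℝ} (hψ : Bump ψ) (p : ℝ) (hp1 : 1 < p)
    (hp2 : p < 2) (P : ℝ) (hqP : p / (p - 1) ≤ P) (hP : P < 2 * ((n : ℝ) + 1) / ((n : ℝ) - 1)) :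
    ∃ C : ℝ, 0 < C ∧ ∀ A : ℝ, 8 ≤ A →
    ∀ (K : Finset ℕ) (R : ℕ → ℝ), Rad A K R → ∀ ρ : ℝ, 0 < ρ → ∀ u : E n, ∀ g : E n → ℂ,
    Measurable g → (∀ x, x ∉ closedBall u (2 * ρ) → g x = 0) → ∫⁻ x, ‖g x‖ₑ ^ p ≠ ∞ →
    ∑ k ∈ K, ∫⁻ ξ, ‖Fk ψ A (R k) g ξ‖ₑ ^ (2 : ℝ) ≤
      ENNReal.ofReal (C * (ρ ^ (2 * tau n P / P) * (K.card / A)) ^
        ((1 / p - 1 / 2) / (1 / 2 - 1 / P))) *
        (∫⁻ x, ‖g x‖ₑ ^ p) ^ (2 / p) := by
  set q : ℝ := p / (p - 1) with hq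
  have hpq : p.HolderConjugate q := by
    have := Real.HolderConjugate.conjExponent hp1
    exact this
  have hq2 : 2 < q := by
    rw [hq, lt_div_iff₀ (by linarith)]; linarith
  have hP2 : 2 < P := by linarith
  have hq0 : 0 < q := by linarith
  have hp0 : 0 < p := by linarith
  have hP0 : 0 < P := by linarith
  obtain ⟨C, hC, hE⟩ := ext_ann n hn P hP2 hP
  obtain ⟨M, hM, hMb⟩ := mu_bdd hψ
  set θ : ℝ := (1 / p - 1 / 2) / (1 / 2 - 1 / P) with hθ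
  have hsum : 1 / p + 1 / q = 1 := by
    have := hpq.inv_add_inv_eq_one
    rw [one_div, one_div]; exact this
  have hs1 : 0 < 1 / p - 1 / 2 := by
    rw [sub_pos]; exact one_div_lt_one_div_of_lt hp0 hp2
  have hs2 : 0 < 1 / 2 - 1 / P := by
    rw [sub_pos]; exact one_div_lt_one_div_of_lt two_pos hP2
  have hθ0 : 0 < θ := div_pos hs1 hs2
  set a : ℝ := (P - q) / (P - 2) with ha
  set b : ℝ := (q - 2) / (P - 2) with hb
  have hP20 : 0 < P - 2 := by linarith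
  have ha0 : 0 ≤ a := div_nonneg (by linarith) hP20.le
  have hb0 : 0 ≤ b := div_nonneg (by linarith) hP20.le
  have hab : a + b = 1 := by rw [ha, hb]; field_simp; ring
  have hθb : θ = P * b / q := by
    have e1 : 1 / p - 1 / 2 = (q - 2) / (2 * q) := by
      have : 1 / p = 1 - 1 / q := by linarith
      rw [this]; field_simp; ring
    have e2 : 1 / 2 - 1 / P = (P - 2) / (2 * P) := by field_simp
    rw [hθ, hb, e1, e2]
    field_simp
  have hexp : a / q + θ / 2 = 1 / 2 := by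
    have e1 : 2 * a + P * b = q := by
      rw [ha, hb]; field_simp; ring
    rw [hθb]
    field_simp
    linarith
  refine ⟨(C ^ 2 * 2 ^ (2 * tau n P / P) * 4) ^ θ * (6 * M ^ 2), by positivity,
    fun A hA K R hR ρ hρ u g hg hgs hgp => ?_⟩
  have hA0 : 0 < A := by linarith
  have hgi := int_of_loc hg hgs p (by linarith) hgp
  have hBm : MeasurableSet (closedBall u (2 * ρ)) := isClosed_closedBall.measurableSet
  set B : Set (E n) := closedBall u (2 * ρ) with hB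
  -- the total function
  set F : E n → ℂ := fun ξ => ((sqm ψ A K R ξ : ℝ) : ℂ) * gh g ξ with hF
  have hGc := gh_cont hgi
  have hsc := sqm_cont (n := n) hψ A K R
  have hFc : Continuous F := (Complex.continuous_ofReal.comp hsc).mul hGc
  have hscomp : HasCompactSupport fun ξ : E n => ((sqm ψ A K R ξ : ℝ) : ℂ) := by
    refine HasCompactSupport.of_support_subset_isCompact (isCompact_closedBall (0 : E n) 4)
      fun ξ hξ => ?_
    rw [mem_closedBall_zero_iff]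
    by_contra hc
    refine hξ ?_
    have : sqm ψ A K R ξ = 0 := sqm_supp hψ hA hR ξ fun h => hc (Wset_sub hA hR h).2
    simp [this]
  have hFcomp : HasCompactSupport F := hscomp.mul_right
  have hFi : Integrable F := hFc.integrable_of_hasCompactSupport hFcomp
  have hF2 : MemLp F 2 := hFc.memLp_of_hasCompactSupport hFcomp
  set A0 : ℝ≥0∞ := ∑ k ∈ K, ∫⁻ ξ, ‖Fk ψ A (R k) g ξ‖ₑ ^ (2 : ℝ) with hA0d
  -- `A0` as an integral
  have hA0e : A0 = ∫⁻ ξ, ENNReal.ofReal (sqm ψ A K R ξ * ‖gh g ξ‖ ^ 2) := by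
    rw [hA0d, ← lintegral_finsetSum _ fun k _ =>
      ((Fk_cont hψ A (R k) hgi).measurable.enorm.pow_const _)]
    refine lintegral_congr fun ξ => ?_
    unfold sqm
    rw [Finset.sum_mul, ENNReal.ofReal_sum_of_nonneg fun k _ => by positivity]
    refine Finset.sum_congr rfl fun k _ => ?_
    unfold Fk
    rw [← ofReal_norm, ENNReal.ofReal_rpow_of_nonneg (norm_nonneg _) (by norm_num), norm_mul]
    congr 1
    rw [show ((2 : ℝ)) = ((2 : ℕ) : ℝ) by norm_num, Real.rpow_natCast, mul_pow]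
  have hintA : Integrable fun ξ => sqm ψ A K R ξ * ‖gh g ξ‖ ^ 2 := by
    have hc : Continuous fun ξ : E n => sqm ψ A K R ξ * ‖gh g ξ‖ ^ 2 :=
      hsc.mul (hGc.norm.pow 2)
    refine hc.integrable_of_hasCompactSupport ?_
    refine HasCompactSupport.of_support_subset_isCompact (isCompact_closedBall (0 : E n) 4)
      fun ξ hξ => ?_
    rw [mem_closedBall_zero_iff]
    by_contra hc
    refine hξ ?_
    have : sqm ψ A K R ξ = 0 := sqm_supp hψ hA hR ξ fun h => hc (Wset_sub hA hR h).2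
    simp [this]
  have hA0i : A0 = ENNReal.ofReal (∫ ξ, sqm ψ A K R ξ * ‖gh g ξ‖ ^ 2) := by
    rw [hA0e, ofReal_integral_eq_lintegral_ofReal hintA
      (Eventually.of_forall fun ξ => mul_nonneg (sqm_nonneg ψ A K R ξ) (by positivity))]
  have hA0t : A0 ≠ ∞ := by rw [hA0i]; exact ENNReal.ofReal_ne_top
  -- duality
  have hgc : Integrable fun x => (starRingEnd ℂ) (g x) := by
    have := (Complex.conjCLE : ℂ →L[ℝ] ℂ).integrable_comp hgi
    exact this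
  have hpair : A0 ≤ ∫⁻ x in B, ‖𝓕 F x‖ₑ * ‖g x‖ₑ := by
    have e1 : ∫ ξ, sqm ψ A K R ξ * ‖gh g ξ‖ ^ 2 = ‖∫ x, 𝓕 F x • (starRingEnd ℂ) (g x)‖ := by
      have h := VectorFourier.integral_fourierIntegral_smul_eq_flip (L := innerₗ (E n))
        (μ := volume) (ν := volume) Real.continuous_fourierChar continuous_inner hFi hgc
      have hfl : (innerₗ (E n)).flip = innerₗ (E n) := by
        ext x y; simp
      rw [hfl] at h
      have h' : ∫ x, 𝓕 F x • (starRingEnd ℂ) (g x) =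
          ∫ ξ, F ξ • 𝓕 (fun x => (starRingEnd ℂ) (g x)) ξ := h
      rw [h']
      have e2 : ∀ ξ, F ξ • 𝓕 (fun x => (starRingEnd ℂ) (g x)) ξ =
          ((sqm ψ A K R ξ * ‖gh g ξ‖ ^ 2 : ℝ) : ℂ) := by
        intro ξ
        rw [← gh_conj, hF]
        simp only [smul_eq_mul]
        rw [mul_assoc, Complex.mul_conj, Complex.normSq_eq_norm_sq]
        push_cast; ring
      simp only [e2]
      rw [integral_complex_ofReal, Complex.norm_real, Real.norm_of_nonneg]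
      exact integral_nonneg fun ξ => mul_nonneg (sqm_nonneg ψ A K R ξ) (by positivity)
    rw [hA0i, e1, ofReal_norm]
    refine (enorm_integral_le_lintegral_enorm _).trans ?_
    rw [← lintegral_indicator hBm]
    refine lintegral_mono fun x => ?_
    by_cases hx : x ∈ B
    · rw [indicator_of_mem hx, smul_eq_mul, enorm_mul]
      refine le_of_eq ?_
      congr 1
      rw [← ofReal_norm, ← ofReal_norm, RCLike.norm_conj]
    · rw [hgs x hx]; simp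
  have hFFc : Continuous (𝓕 F) := four_cont hFi
  -- Hölder
  have hH := ENNReal.lintegral_mul_le_Lp_mul_Lq (volume.restrict B) hpq.symm
    (f := fun x => ‖𝓕 F x‖ₑ) (g := fun x => ‖g x‖ₑ) hFFc.measurable.enorm.aemeasurable
    hg.enorm.aemeasurable
  -- log convexity
  have hLC := ENNReal.lintegral_mul_norm_pow_le (μ := volume.restrict B)
    (f := fun x => ‖𝓕 F x‖ₑ ^ (2 : ℝ)) (g := fun x => ‖𝓕 F x‖ₑ ^ P)
    (hFFc.measurable.enorm.pow_const _).aemeasurable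
    (hFFc.measurable.enorm.pow_const _).aemeasurable (p := a) (q := b) ha0 hb0 hab
  have e3 : ∀ x, (‖𝓕 F x‖ₑ ^ (2 : ℝ)) ^ a * (‖𝓕 F x‖ₑ ^ P) ^ b = ‖𝓕 F x‖ₑ ^ q := by
    intro x
    rw [← ENNReal.rpow_mul, ← ENNReal.rpow_mul, ← ENNReal.rpow_add_of_nonneg _ _ (by positivity)
      (by positivity)]
    congr 1
    rw [ha, hb]; field_simp; ring
  simp only [e3] at hLC
  set Z : ℝ≥0∞ := ∫⁻ ξ, ‖F ξ‖ₑ ^ (2 : ℝ) with hZ
  have hZ1 : ∫⁻ x in B, ‖𝓕 F x‖ₑ ^ (2 : ℝ) ≤ Z := by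
    refine (setLIntegral_le_lintegral _ _).trans (le_of_eq ?_)
    exact planch hFi hF2
  have hZA : Z ≤ ENNReal.ofReal (6 * M ^ 2) * A0 := by
    rw [hZ, hA0e, ← lintegral_const_mul _ (by
      exact ((hsc.mul (hGc.norm.pow 2)).measurable).ennreal_ofReal)]
    refine lintegral_mono fun ξ => ?_
    rw [← ofReal_norm, ENNReal.ofReal_rpow_of_nonneg (norm_nonneg _) (by norm_num),
      ← ENNReal.ofReal_mul (by positivity)]
    refine ENNReal.ofReal_le_ofReal ?_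
    have h1 : sqm ψ A K R ξ ≤ 6 * M ^ 2 := sum_mu hψ hM.le (hMb n) hA hR ξ
    have h2 := sqm_nonneg ψ A K R ξ
    rw [show ((2 : ℝ)) = ((2 : ℕ) : ℝ) by norm_num, Real.rpow_natCast, hF]
    simp only
    rw [norm_mul, Complex.norm_real, Real.norm_of_nonneg h2, mul_pow, pow_two (sqm ψ A K R ξ)]
    calc sqm ψ A K R ξ * sqm ψ A K R ξ * ‖gh g ξ‖ ^ 2
        ≤ 6 * M ^ 2 * sqm ψ A K R ξ * ‖gh g ξ‖ ^ 2 := by gcongr
      _ = _ := by ring
  have hX := hE F hFc.measurable hFi (Wset A K R) (Wset_meas A K R) (Wset_sub hA hR)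
    (fun ξ hξ => by rw [hF]; simp only; rw [sqm_supp hψ hA hR ξ hξ]; simp) u (2 * ρ) (by positivity)
  set D : ℝ := C * (2 * ρ) ^ (tau n P / P) * (4 * K.card / A) ^ (1 / 2 : ℝ) with hD
  have hD0 : 0 ≤ D := by positivity
  have hX2 : (∫⁻ x in B, ‖𝓕 F x‖ₑ ^ P) ^ (1 / P) ≤ ENNReal.ofReal D * Z ^ (1 / 2 : ℝ) := by
    refine hX.trans ?_
    have e5 : ENNReal.ofReal D = ENNReal.ofReal (C * (2 * ρ) ^ (tau n P / P)) *
        ENNReal.ofReal (4 * K.card / A) ^ (1 / 2 : ℝ) := by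
      rw [ENNReal.ofReal_rpow_of_nonneg (by positivity) (by norm_num),
        ← ENNReal.ofReal_mul (by positivity)]
    rw [e5]
    gcongr
    exact Wset_vol hA0 K R
  have hmain : A0 ≤ (ENNReal.ofReal D ^ θ * ENNReal.ofReal (6 * M ^ 2) ^ (1 / 2 : ℝ) *
      (∫⁻ x, ‖g x‖ₑ ^ p) ^ (1 / p)) * A0 ^ (1 / 2 : ℝ) := by
    refine hpair.trans (hH.trans ?_)
    have h1 : (∫⁻ x in B, ‖g x‖ₑ ^ p) ^ (1 / p) ≤ (∫⁻ x, ‖g x‖ₑ ^ p) ^ (1 / p) := by
      gcongr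
      exact Measure.restrict_le_self
    have h2 : (∫⁻ x in B, ‖𝓕 F x‖ₑ ^ q) ^ (1 / q) ≤
        ENNReal.ofReal D ^ θ * Z ^ (1 / 2 : ℝ) := by
      calc (∫⁻ x in B, ‖𝓕 F x‖ₑ ^ q) ^ (1 / q)
          ≤ ((∫⁻ x in B, ‖𝓕 F x‖ₑ ^ (2 : ℝ)) ^ a * (∫⁻ x in B, ‖𝓕 F x‖ₑ ^ P) ^ b) ^ (1 / q) := by
            gcongr
        _ = (∫⁻ x in B, ‖𝓕 F x‖ₑ ^ (2 : ℝ)) ^ (a / q) *
            ((∫⁻ x in B, ‖𝓕 F x‖ₑ ^ P) ^ (1 / P)) ^ θ := by
            rw [ENNReal.mul_rpow_of_nonneg _ _ (by positivity), ← ENNReal.rpow_mul,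
              ← ENNReal.rpow_mul, ← ENNReal.rpow_mul, mul_one_div, mul_one_div, hθb]
            congr 2
            field_simp
        _ ≤ Z ^ (a / q) * (ENNReal.ofReal D * Z ^ (1 / 2 : ℝ)) ^ θ := by
            gcongr
        _ = ENNReal.ofReal D ^ θ * Z ^ (1 / 2 : ℝ) := by
            rw [ENNReal.mul_rpow_of_nonneg _ _ hθ0.le, ← ENNReal.rpow_mul, mul_left_comm,
              ← ENNReal.rpow_add_of_nonneg _ _ (by positivity) (by positivity),
              show a / q + 1 / 2 * θ = 1 / 2 by linarith [hexp]]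
    have h3 : Z ^ (1 / 2 : ℝ) ≤ ENNReal.ofReal (6 * M ^ 2) ^ (1 / 2 : ℝ) * A0 ^ (1 / 2 : ℝ) := by
      rw [← ENNReal.mul_rpow_of_nonneg _ _ (by norm_num)]
      gcongr
    calc (∫⁻ x in B, ‖𝓕 F x‖ₑ ^ q) ^ (1 / q) * (∫⁻ x in B, ‖g x‖ₑ ^ p) ^ (1 / p)
        ≤ (ENNReal.ofReal D ^ θ * (ENNReal.ofReal (6 * M ^ 2) ^ (1 / 2 : ℝ) *
          A0 ^ (1 / 2 : ℝ))) * (∫⁻ x, ‖g x‖ₑ ^ p) ^ (1 / p) := by
          refine mul_le_mul' (h2.trans ?_) h1
          gcongr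
      _ = _ := by ring
  have hhalf : A0 ^ (1 / 2 : ℝ) ≤ ENNReal.ofReal D ^ θ * ENNReal.ofReal (6 * M ^ 2) ^ (1 / 2 : ℝ) *
      (∫⁻ x, ‖g x‖ₑ ^ p) ^ (1 / p) := by
    rcases eq_or_ne A0 0 with h0 | h0
    · rw [h0, ENNReal.zero_rpow_of_pos (by norm_num)]; exact zero_le
    have hXp : A0 ^ (1 / 2 : ℝ) ≠ 0 := by
      rw [Ne, ENNReal.rpow_eq_zero_iff]
      push Not
      exact ⟨fun h => absurd h h0, fun h => absurd h hA0t⟩
    have hXp' : A0 ^ (1 / 2 : ℝ) ≠ ∞ := by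
      rw [Ne, ENNReal.rpow_eq_top_iff]
      push Not
      exact ⟨fun h => absurd h h0, fun h => absurd h hA0t⟩
    have h5 : A0 ^ (1 / 2 : ℝ) * A0 ^ (1 / 2 : ℝ) ≤
        (ENNReal.ofReal D ^ θ * ENNReal.ofReal (6 * M ^ 2) ^ (1 / 2 : ℝ) *
      (∫⁻ x, ‖g x‖ₑ ^ p) ^ (1 / p)) * A0 ^ (1 / 2 : ℝ) := by
      rw [← ENNReal.rpow_add _ _ h0 hA0t, show (1 / 2 : ℝ) + 1 / 2 = 1 by norm_num,
        ENNReal.rpow_one]
      exact hmain
    exact (ENNReal.mul_le_mul_iff_left hXp hXp').1 h5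
  have h6 := ENNReal.rpow_le_rpow hhalf (show (0 : ℝ) ≤ 2 by norm_num)
  rw [← ENNReal.rpow_mul, show (1 / 2 : ℝ) * 2 = 1 by norm_num, ENNReal.rpow_one] at h6
  refine h6.trans (le_of_eq ?_)
  rw [ENNReal.mul_rpow_of_nonneg _ _ (by norm_num), ENNReal.mul_rpow_of_nonneg _ _ (by norm_num),
    ← ENNReal.rpow_mul, ← ENNReal.rpow_mul, ← ENNReal.rpow_mul,
    show (1 / 2 : ℝ) * 2 = 1 by norm_num, ENNReal.rpow_one, show 1 / p * 2 = 2 / p by ring,
    ENNReal.ofReal_rpow_of_nonneg hD0 (by positivity), ← ENNReal.ofReal_mul (by positivity)]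
  congr 2
  have e4 : D ^ (θ * 2) = (C ^ 2 * 2 ^ (2 * tau n P / P) * 4) ^ θ *
      (ρ ^ (2 * tau n P / P) * (K.card / A)) ^ θ := by
    rw [mul_comm θ 2, Real.rpow_mul hD0, ← Real.mul_rpow (by positivity) (by positivity)]
    congr 1
    rw [hD, show ((2 : ℝ)) = ((2 : ℕ) : ℝ) by norm_num, Real.rpow_natCast]
    push_cast
    rw [mul_pow, mul_pow, ← Real.rpow_natCast ((2 * ρ) ^ (tau n P / P)) 2,
      ← Real.rpow_mul (by positivity), ← Real.rpow_natCast ((4 * (K.card : ℝ) / A) ^ (1 / 2 : ℝ)) 2,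
      ← Real.rpow_mul (by positivity), Real.mul_rpow (by norm_num) hρ.le]
    push_cast
    rw [show (1 / 2 : ℝ) * 2 = 1 by norm_num, Real.rpow_one,
      show tau n P / P * 2 = 2 * tau n P / P by ring]
    ring
  rw [e4]; ring

end Pool.Agent.Y248.BA
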