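import Mathlib
import Pool.Agent.Y248.BA.LocB
import Pool.Agent.H438R2.RZ.R8
set_option autoImplicit false

/-! # Global estimates for several radii -/

namespace Pool.Agent.Y248.BA

open MeasureTheory Set Metric Complex Filter
open scoped ENNReal RealInnerProductSpace Topology FourierTransform
open Pool.Agent.H789R2.FR (E sg T sg_finite polar)
open Pool.Agent.H438R2.RZ (Bump)

theorem loc_small (n : ℕ) (hn : 2 ≤ n) {ψ : ℝ → ℝ} (hψ : Bump ψ) (p : ℝ) (hp1 : 1 < p)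
    (hp2 : p < 2) (P : ℝ) (hqP : p / (p - 1) ≤ P) (hP : P < 2 * ((n : ℝ) + 1) / ((n : ℝ) - 1)) :
    ∃ C : ℝ, 0 < C ∧ ∀ A : ℝ, 8 ≤ A →
    ∀ (K : Finset ℕ) (R : ℕ → ℝ), Rad A K R → ∀ ρ : ℝ, 0 < ρ → ∀ u : E n, ∀ g : E n → ℂ,
    Measurable g → (∀ x, x ∉ closedBall u (2 * ρ) → g x = 0) → ∫⁻ x, ‖g x‖ₑ ^ p ≠ ∞ →
    ∑ k ∈ K, ∫⁻ x in closedBall u ρ, ‖Tp ψ A (R k) g x‖ₑ ^ p ≤
      ENNReal.ofReal (C * ρ ^ ((n : ℝ) * (1 - p / 2)) * (K.card : ℝ) ^ (1 - p / 2) *
        (ρ ^ (2 * tau n P / P) * (K.card / A)) ^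
        ((1 / p - 1 / 2) / (1 / 2 - 1 / P) * (p / 2))) * ∫⁻ x, ‖g x‖ₑ ^ p := by
  obtain ⟨C, hC, hE⟩ := restr_multi n hn hψ p hp1 hp2 P hqP hP
  obtain ⟨V, hV, hVb⟩ := ball_vol n
  set θ : ℝ := (1 / p - 1 / 2) / (1 / 2 - 1 / P) with hθ
  have hp0 : 0 < p := by linarith
  refine ⟨V ^ (1 - p / 2) * C ^ (p / 2), by positivity, fun A hA K R hR ρ hρ u g hg hgs hgp => ?_⟩
  have hA0 : 0 < A := by linarith
  have hgi := int_of_loc hg hgs p (by linarith) hgp
  have h1p : 0 ≤ 1 - p / 2 := by linarith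
  have hk : ∀ k ∈ K, ∫⁻ x in closedBall u ρ, ‖Tp ψ A (R k) g x‖ₑ ^ p ≤
      ENNReal.ofReal (V * ρ ^ n) ^ (1 - p / 2) *
        (∫⁻ ξ, ‖Fk ψ A (R k) g ξ‖ₑ ^ (2 : ℝ)) ^ (p / 2) := by
    intro k hk
    have hR1 := hR.one hA0 hk
    have hR2 := hR.two k hk
    have hFi := Fk_int hψ hA0 (show 0 < R k by linarith) hR2 hgi
    have hF2 := Fk_two hψ hA0 (show 0 < R k by linarith) hR2 hgi
    rw [Tp_eq hψ hA0 (by linarith) hR2 hgi]
    have hc : Continuous (𝓕 (fun ξ => mu ψ A (R k) ξ * gh g ξ)) := four_cont hFi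
    have h1 := ENNReal.lintegral_mul_norm_pow_le (μ := (volume : Measure (E n)).restrict
      (closedBall u ρ)) (f := fun _ => (1 : ℝ≥0∞))
      (g := fun x => ‖𝓕 (fun ξ => mu ψ A (R k) ξ * gh g ξ) x‖ₑ ^ (2 : ℝ))
      aemeasurable_const (hc.measurable.enorm.pow_const _).aemeasurable
      (p := 1 - p / 2) (q := p / 2) h1p (by positivity) (by ring)
    have e1 : ∀ x, (1 : ℝ≥0∞) ^ (1 - p / 2) *
        (‖𝓕 (fun ξ => mu ψ A (R k) ξ * gh g ξ) x‖ₑ ^ (2 : ℝ)) ^ (p / 2) =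
        ‖𝓕 (fun ξ => mu ψ A (R k) ξ * gh g ξ) x‖ₑ ^ p := by
      intro x
      rw [ENNReal.one_rpow, one_mul, ← ENNReal.rpow_mul]
      congr 1; ring
    simp only [e1] at h1
    refine h1.trans ?_
    rw [lintegral_one, Measure.restrict_apply_univ, hVb u ρ hρ.le]
    exact mul_le_mul' le_rfl (ENNReal.rpow_le_rpow
      ((setLIntegral_le_lintegral _ _).trans (le_of_eq (planch hFi hF2))) (by positivity))
  calc ∑ k ∈ K, ∫⁻ x in closedBall u ρ, ‖Tp ψ A (R k) g x‖ₑ ^ p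
      ≤ ∑ k ∈ K, ENNReal.ofReal (V * ρ ^ n) ^ (1 - p / 2) *
        (∫⁻ ξ, ‖Fk ψ A (R k) g ξ‖ₑ ^ (2 : ℝ)) ^ (p / 2) := Finset.sum_le_sum hk
    _ = ENNReal.ofReal (V * ρ ^ n) ^ (1 - p / 2) *
        ∑ k ∈ K, (∫⁻ ξ, ‖Fk ψ A (R k) g ξ‖ₑ ^ (2 : ℝ)) ^ (p / 2) := by rw [Finset.mul_sum]
    _ ≤ ENNReal.ofReal (V * ρ ^ n) ^ (1 - p / 2) * ((K.card : ℝ≥0∞) ^ (1 - p / 2) *
        (∑ k ∈ K, ∫⁻ ξ, ‖Fk ψ A (R k) g ξ‖ₑ ^ (2 : ℝ)) ^ (p / 2)) := by
        gcongr
        exact sum_rpow_small _ _ _ (by positivity) (by linarith)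
    _ ≤ ENNReal.ofReal (V * ρ ^ n) ^ (1 - p / 2) * ((K.card : ℝ≥0∞) ^ (1 - p / 2) *
        (ENNReal.ofReal (C * (ρ ^ (2 * tau n P / P) * (K.card / A)) ^ θ) *
        (∫⁻ x, ‖g x‖ₑ ^ p) ^ (2 / p)) ^ (p / 2)) := by
        gcongr
        exact hE A hA K R hR ρ hρ u g hg hgs hgp
    _ = _ := by
        rw [ENNReal.mul_rpow_of_nonneg _ _ (by positivity), ← ENNReal.rpow_mul,
          show 2 / p * (p / 2) = 1 by field_simp, ENNReal.rpow_one, ← mul_assoc, ← mul_assoc,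
          ← ENNReal.ofReal_natCast, ENNReal.ofReal_rpow_of_nonneg (by positivity) h1p,
          ENNReal.ofReal_rpow_of_nonneg (by positivity) h1p,
          ENNReal.ofReal_rpow_of_nonneg (by positivity) (by positivity),
          ← ENNReal.ofReal_mul (by positivity), ← ENNReal.ofReal_mul (by positivity)]
        congr 2
        rw [Real.mul_rpow hV.le (by positivity), Real.mul_rpow hC.le (by positivity),
          ← Real.rpow_natCast ρ n, ← Real.rpow_mul hρ.le, ← Real.rpow_mul (by positivity)]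
        ring

/-- averaging over balls -/
theorem avg_ball {n : ℕ} (r : ℝ) (h : E n → ℝ≥0∞) (hh : Measurable h) :
    ∫⁻ u : E n, ∫⁻ x in closedBall u r, h x =
      (volume : Measure (E n)) (closedBall 0 r) * ∫⁻ x, h x := by
  have hS : MeasurableSet {z : E n × E n | dist z.2 z.1 ≤ r} :=
    measurableSet_le (by fun_prop) measurable_const
  have e1 : ∀ u : E n, ∫⁻ x in closedBall u r, h x =
      ∫⁻ x, {z : E n × E n | dist z.2 z.1 ≤ r}.indicator (fun z => h z.2) (u, x) := by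
    intro u
    rw [← lintegral_indicator isClosed_closedBall.measurableSet]
    refine lintegral_congr fun x => ?_
    by_cases hx : dist x u ≤ r
    · rw [indicator_of_mem (show x ∈ closedBall u r from hx), indicator_of_mem
        (show (u, x) ∈ {z : E n × E n | dist z.2 z.1 ≤ r} from hx)]
    · rw [indicator_of_notMem (show x ∉ closedBall u r from hx), indicator_of_notMem
        (show (u, x) ∉ {z : E n × E n | dist z.2 z.1 ≤ r} from hx)]
  simp only [e1]
  have hm : Measurable ({z : E n × E n | dist z.2 z.1 ≤ r}.indicator (fun z => h z.2)) :=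
    (hh.comp measurable_snd).indicator hS
  have hsw := lintegral_lintegral_swap (μ := (volume : Measure (E n)))
    (ν := (volume : Measure (E n))) (f := fun u x => {z : E n × E n | dist z.2 z.1 ≤ r}.indicator
      (fun z => h z.2) (u, x)) hm.aemeasurable
  rw [hsw, ← lintegral_const_mul _ hh]
  refine lintegral_congr fun x => ?_
  have e2 : ∀ u : E n, {z : E n × E n | dist z.2 z.1 ≤ r}.indicator (fun z => h z.2) (u, x) =
      (closedBall x r).indicator (fun _ => h x) u := by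
    intro u
    by_cases hx : dist x u ≤ r
    · rw [indicator_of_mem (show u ∈ closedBall x r by rw [mem_closedBall, dist_comm]; exact hx),
        indicator_of_mem (show (u, x) ∈ {z : E n × E n | dist z.2 z.1 ≤ r} from hx)]
    · rw [indicator_of_notMem (show u ∉ closedBall x r by
        rw [mem_closedBall, dist_comm]; exact hx), indicator_of_notMem
        (show (u, x) ∉ {z : E n × E n | dist z.2 z.1 ≤ r} from hx)]
  simp only [e2]
  rw [lintegral_indicator isClosed_closedBall.measurableSet, setLIntegral_const, mul_comm,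
    Measure.addHaar_closedBall_center]

/-- far part of the kernel -/
noncomputable def kf {n : ℕ} (ψ : ℝ → ℝ) (A R ρ : ℝ) : E n → ℝ≥0∞ :=
  {w : E n | ρ < ‖w‖}.indicator fun w => ‖Kr ψ A R w‖ₑ

theorem Kr_cont {n : ℕ} {ψ : ℝ → ℝ} (hψ : Bump ψ) {A R : ℝ} (hA : 0 < A) (hR : 0 < R)
    (hR2 : R ≤ 2) : Continuous (Kr (n := n) ψ A R) := four_cont (mu_int hψ hA hR hR2)

theorem kf_meas {n : ℕ} {ψ : ℝ → ℝ} (hψ : Bump ψ) {A R : ℝ} (hA : 0 < A) (hR : 0 < R)
    (hR2 : R ≤ 2) (ρ : ℝ) : Measurable (kf (n := n) ψ A R ρ) :=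
  (Kr_cont hψ hA hR hR2).measurable.enorm.indicator
    (measurableSet_lt measurable_const measurable_norm)

theorem kf_int (n : ℕ) {ψ : ℝ → ℝ} (hψ : Bump ψ) (ε : ℝ) (hε : 0 < ε) :
    ∃ C : ℝ, 0 < C ∧ ∀ A R : ℝ, 1 ≤ A → 1 ≤ R → R ≤ 2 →
      ∫⁻ w : E n, kf ψ A R (A ^ (1 + ε)) w ≤ ENNReal.ofReal C := by
  obtain ⟨C, hC, hb⟩ := Kr_tail n hψ ε hε
  refine ⟨C * ∫ w : E n, Jw w, ?_, fun A R hA hR1 hR2 => ?_⟩
  · refine mul_pos hC ?_
    rw [integral_pos_iff_support_of_nonneg (fun w => (Jw_pos w).le) Jw_int]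
    have : Function.support (Jw (n := n)) = univ := by
      ext w; simp [(Jw_pos w).ne']
    rw [this]
    exact (Measure.measure_univ_pos.2 (NeZero.ne _))
  · rw [← integral_const_mul, ofReal_integral_eq_lintegral_ofReal (Jw_int.const_mul C)
      (Eventually.of_forall fun w => (mul_pos hC (Jw_pos w)).le)]
    refine lintegral_mono fun w => ?_
    unfold kf
    by_cases hw : A ^ (1 + ε) < ‖w‖
    · rw [indicator_of_mem (show w ∈ {w : E n | A ^ (1 + ε) < ‖w‖} from hw), ← ofReal_norm]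
      exact ENNReal.ofReal_le_ofReal (hb A R hA hR1 hR2 w hw.le)
    · rw [indicator_of_notMem (show w ∉ {w : E n | A ^ (1 + ε) < ‖w‖} from hw)]
      exact zero_le

theorem Tp_meas {n : ℕ} {ψ : ℝ → ℝ} (hψ : Bump ψ) {A R : ℝ} (hA : 0 < A) (hR : 0 < R)
    (hR2 : R ≤ 2) {f : E n → ℂ} (hf : Measurable f) : Measurable (Tp ψ A R f) := by
  have hm : Measurable fun z : E n × E n => Kr ψ A R (z.1 - z.2) * f z.2 :=
    ((Kr_cont hψ hA hR hR2).measurable.comp (measurable_fst.sub measurable_snd)).mul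
      (hf.comp measurable_snd)
  exact (hm.stronglyMeasurable.integral_prod_right' (ν := (volume : Measure (E n)))).measurable

/-- splitting into near and far parts -/
theorem split {n : ℕ} {ψ : ℝ → ℝ} {A R : ℝ} (f : E n → ℂ) (u x : E n) (ρ : ℝ)
    (hx : x ∈ closedBall u ρ) :
    ‖Tp ψ A R f x‖ₑ ≤ ‖Tp ψ A R ((closedBall u (2 * ρ)).indicator f) x‖ₑ +
      ∫⁻ y, kf ψ A R ρ (x - y) * ‖f y‖ₑ := by
  by_cases hi : Integrable fun y : E n => Kr ψ A R (x - y) * f y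
  · set B := closedBall u (2 * ρ) with hB
    have hBm : MeasurableSet B := isClosed_closedBall.measurableSet
    have e1 : Tp ψ A R f x = Tp ψ A R (B.indicator f) x +
        ∫ y in Bᶜ, Kr ψ A R (x - y) * f y := by
      unfold Tp
      have e2 : ∫ y, Kr ψ A R (x - y) * B.indicator f y = ∫ y in B, Kr ψ A R (x - y) * f y := by
        rw [← integral_indicator hBm]
        congr 1; funext y
        by_cases hy : y ∈ B
        · rw [indicator_of_mem hy, indicator_of_mem hy]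
        · rw [indicator_of_notMem hy, indicator_of_notMem hy, mul_zero]
      rw [e2, integral_add_compl hBm hi]
    rw [e1]
    refine (enorm_add_le _ _).trans (add_le_add le_rfl ?_)
    refine (enorm_integral_le_lintegral_enorm _).trans ?_
    rw [← lintegral_indicator hBm.compl]
    refine lintegral_mono fun y => ?_
    by_cases hy : y ∈ Bᶜ
    · rw [indicator_of_mem hy, enorm_mul]
      have h1 : ρ < ‖x - y‖ := by
        have h2 : ¬ (dist y u ≤ 2 * ρ) := hy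
        push Not at h2
        have h3 : dist x u ≤ ρ := hx
        have h4 := dist_triangle y x u
        rw [dist_comm y x] at h4
        rw [← dist_eq_norm]; linarith
      unfold kf
      rw [indicator_of_mem (show x - y ∈ {w : E n | ρ < ‖w‖} from h1)]
    · rw [indicator_of_notMem hy]; exact zero_le
  · have : Tp ψ A R f x = 0 := integral_undef hi
    rw [this, enorm_zero]; exact zero_le

/-- **Globalisation.** -/
theorem glob (n : ℕ) {ψ : ℝ → ℝ} (hψ : Bump ψ) (p : ℝ) (hp : 1 ≤ p) (ε : ℝ) (hε : 0 < ε) :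
    ∃ C : ℝ, 0 < C ∧ ∀ A : ℝ, 8 ≤ A → ∀ (K : Finset ℕ) (R : ℕ → ℝ), Rad A K R → ∀ D : ℝ, 0 ≤ D →
    (∀ u : E n, ∀ g : E n → ℂ, Measurable g →
      (∀ x, x ∉ closedBall u (2 * A ^ (1 + ε)) → g x = 0) → ∫⁻ x, ‖g x‖ₑ ^ p ≠ ∞ →
      ∑ k ∈ K, ∫⁻ x in closedBall u (A ^ (1 + ε)), ‖Tp ψ A (R k) g x‖ₑ ^ p ≤
        ENNReal.ofReal D * ∫⁻ x, ‖g x‖ₑ ^ p) →
    ∀ f : E n → ℂ, Measurable f → ∫⁻ x, ‖f x‖ₑ ^ p ≠ ∞ →
      ∑ k ∈ K, ∫⁻ x, ‖Tp ψ A (R k) f x‖ₑ ^ p ≤
        ENNReal.ofReal (2 ^ (p - 1) * (2 ^ n * D + K.card * C)) * ∫⁻ x, ‖f x‖ₑ ^ p := by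
  obtain ⟨C0, hC0, hb⟩ := kf_int n hψ ε hε
  obtain ⟨V, hV, hVb⟩ := ball_vol n
  have hp0 : 0 < p := by linarith
  refine ⟨C0 ^ p, by positivity, fun A hA K R hR D hD hloc f hf hfp => ?_⟩
  have hA0 : 0 < A := by linarith
  set ρ : ℝ := A ^ (1 + ε) with hρd
  have hρ : 0 < ρ := by positivity
  set Φ : ℕ → E n → ℝ≥0∞ := fun k x => ∫⁻ y, kf ψ A (R k) ρ (x - y) * ‖f y‖ₑ with hΦ
  have hΦm : ∀ k ∈ K, Measurable (Φ k) := by
    intro k hk
    have hR1 := hR.one hA0 hk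
    refine Measurable.lintegral_prod_right' (f := fun z : E n × E n =>
      kf ψ A (R k) ρ (z.1 - z.2) * ‖f z.2‖ₑ) ?_
    exact ((kf_meas hψ hA0 (by linarith) (hR.two k hk) ρ).comp
      (measurable_fst.sub measurable_snd)).mul (hf.comp measurable_snd).enorm
  have hTm : ∀ k ∈ K, Measurable (Tp ψ A (R k) f) := fun k hk =>
    Tp_meas hψ hA0 (by have := hR.one hA0 hk; linarith) (hR.two k hk) hf
  -- on each ball
  have hball : ∀ u : E n, ∑ k ∈ K, ∫⁻ x in closedBall u ρ, ‖Tp ψ A (R k) f x‖ₑ ^ p ≤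
      2 ^ (p - 1) * (ENNReal.ofReal D * (∫⁻ x in closedBall u (2 * ρ), ‖f x‖ₑ ^ p) +
        ∑ k ∈ K, ∫⁻ x in closedBall u ρ, Φ k x ^ p) := by
    intro u
    have hBm : MeasurableSet (closedBall u (2 * ρ)) := isClosed_closedBall.measurableSet
    have h1 := hloc u ((closedBall u (2 * ρ)).indicator f) (hf.indicator hBm)
      (fun x hx => indicator_of_notMem hx _) (by
        refine ne_top_of_le_ne_top hfp (lintegral_mono fun x => ?_)
        by_cases hx : x ∈ closedBall u (2 * ρ)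
        · rw [indicator_of_mem hx]
        · rw [indicator_of_notMem hx, enorm_zero, ENNReal.zero_rpow_of_pos hp0]; exact zero_le)
    have e1 : ∫⁻ x, ‖(closedBall u (2 * ρ)).indicator f x‖ₑ ^ p =
        ∫⁻ x in closedBall u (2 * ρ), ‖f x‖ₑ ^ p := by
      rw [← lintegral_indicator hBm]
      refine lintegral_congr fun x => ?_
      by_cases hx : x ∈ closedBall u (2 * ρ)
      · rw [indicator_of_mem hx, indicator_of_mem hx]
      · rw [indicator_of_notMem hx, indicator_of_notMem hx, enorm_zero,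
          ENNReal.zero_rpow_of_pos hp0]
    rw [e1] at h1
    calc ∑ k ∈ K, ∫⁻ x in closedBall u ρ, ‖Tp ψ A (R k) f x‖ₑ ^ p
        ≤ ∑ k ∈ K, 2 ^ (p - 1) * ((∫⁻ x in closedBall u ρ,
            ‖Tp ψ A (R k) ((closedBall u (2 * ρ)).indicator f) x‖ₑ ^ p) +
            ∫⁻ x in closedBall u ρ, Φ k x ^ p) := by
          refine Finset.sum_le_sum fun k hk => ?_
          rw [← lintegral_add_right _ ((hΦm k hk).pow_const _), ← lintegral_const_mul' _ _
            (ENNReal.rpow_ne_top_of_nonneg (by linarith) (by norm_num))]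
          refine setLIntegral_mono' isClosed_closedBall.measurableSet fun x hx => ?_
          refine (ENNReal.rpow_le_rpow (split f u x ρ hx) hp0.le).trans ?_
          exact ENNReal.rpow_add_le_mul_rpow_add_rpow _ _ hp
      _ = 2 ^ (p - 1) * ((∑ k ∈ K, ∫⁻ x in closedBall u ρ,
            ‖Tp ψ A (R k) ((closedBall u (2 * ρ)).indicator f) x‖ₑ ^ p) +
            ∑ k ∈ K, ∫⁻ x in closedBall u ρ, Φ k x ^ p) := by
          rw [← Finset.mul_sum, Finset.sum_add_distrib]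
      _ ≤ _ := by gcongr
  -- integrate over the centres
  have hint := lintegral_mono (μ := (volume : Measure (E n))) hball
  have hfm : Measurable fun x => ‖f x‖ₑ ^ p := hf.enorm.pow_const _
  have hmeas : ∀ (r : ℝ) (h : E n → ℝ≥0∞), Measurable h →
      Measurable fun u : E n => ∫⁻ x in closedBall u r, h x := by
    intro r h hh
    have hS : MeasurableSet {z : E n × E n | dist z.2 z.1 ≤ r} :=
      measurableSet_le (by fun_prop) measurable_const
    have e1 : (fun u : E n => ∫⁻ x in closedBall u r, h x) = fun u : E n =>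
        ∫⁻ x, {z : E n × E n | dist z.2 z.1 ≤ r}.indicator (fun z => h z.2) (u, x) := by
      funext u
      rw [← lintegral_indicator isClosed_closedBall.measurableSet]
      refine lintegral_congr fun x => ?_
      by_cases hx : dist x u ≤ r
      · rw [indicator_of_mem (show x ∈ closedBall u r from hx), indicator_of_mem
          (show (u, x) ∈ {z : E n × E n | dist z.2 z.1 ≤ r} from hx)]
      · rw [indicator_of_notMem (show x ∉ closedBall u r from hx), indicator_of_notMem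
          (show (u, x) ∉ {z : E n × E n | dist z.2 z.1 ≤ r} from hx)]
    rw [e1]
    exact Measurable.lintegral_prod_right' ((hh.comp measurable_snd).indicator hS)
  rw [lintegral_finsetSum _ fun k hk => hmeas ρ _ ((hTm k hk).enorm.pow_const _),
    lintegral_const_mul' _ _ (ENNReal.rpow_ne_top_of_nonneg (by linarith) (by norm_num)),
    lintegral_add_left ((hmeas _ _ hfm).const_mul _), lintegral_const_mul _ (hmeas _ _ hfm),
    lintegral_finsetSum _ fun k hk => hmeas ρ _ ((hΦm k hk).pow_const _),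
    Finset.sum_congr rfl fun k hk => avg_ball ρ _ ((hTm k hk).enorm.pow_const _),
    Finset.sum_congr rfl fun k hk => avg_ball ρ _ ((hΦm k hk).pow_const p),
    avg_ball (2 * ρ) _ hfm, ← Finset.mul_sum, ← Finset.mul_sum, hVb 0 ρ hρ.le,
    hVb 0 (2 * ρ) (by positivity)] at hint
  have hVρ : 0 < V * ρ ^ n := by positivity
  have e2 : ENNReal.ofReal (V * (2 * ρ) ^ n) = ENNReal.ofReal (V * ρ ^ n) * ENNReal.ofReal (2 ^ n) := by
    rw [← ENNReal.ofReal_mul hVρ.le]; congr 1; rw [mul_pow]; ring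
  rw [e2] at hint
  have h3 : ENNReal.ofReal (V * ρ ^ n) * ∑ k ∈ K, ∫⁻ x, ‖Tp ψ A (R k) f x‖ₑ ^ p ≤
      ENNReal.ofReal (V * ρ ^ n) * (2 ^ (p - 1) * (ENNReal.ofReal D * (ENNReal.ofReal (2 ^ n) *
        ∫⁻ x, ‖f x‖ₑ ^ p) + ∑ k ∈ K, ∫⁻ x, Φ k x ^ p)) := by
    refine hint.trans (le_of_eq ?_)
    ring
  have h4 := (ENNReal.mul_le_mul_iff_right (by
    rw [Ne, ENNReal.ofReal_eq_zero]; push Not; exact hVρ) ENNReal.ofReal_ne_top).1 h3
  refine h4.trans ?_
  have h5 : ∀ k ∈ K, ∫⁻ x, Φ k x ^ p ≤ ENNReal.ofReal (C0 ^ p) * ∫⁻ x, ‖f x‖ₑ ^ p := by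
    intro k hk
    have hR1 := hR.one hA0 hk
    refine (Pool.Agent.H438R2.RZ.R8aux.young _ _ (kf_meas hψ hA0 (by linarith) (hR.two k hk) ρ)
      hf.enorm p hp).trans ?_
    rw [← ENNReal.ofReal_rpow_of_nonneg hC0.le hp0.le]
    gcongr
    exact hb A (R k) (by linarith) hR1 (hR.two k hk)
  calc 2 ^ (p - 1) * (ENNReal.ofReal D * (ENNReal.ofReal (2 ^ n) * ∫⁻ x, ‖f x‖ₑ ^ p) +
        ∑ k ∈ K, ∫⁻ x, Φ k x ^ p)
      ≤ 2 ^ (p - 1) * (ENNReal.ofReal D * (ENNReal.ofReal (2 ^ n) * ∫⁻ x, ‖f x‖ₑ ^ p) +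
        ∑ k ∈ K, ENNReal.ofReal (C0 ^ p) * ∫⁻ x, ‖f x‖ₑ ^ p) := by
        gcongr with k hk
        exact h5 k hk
    _ = ENNReal.ofReal (2 ^ (p - 1)) * ((ENNReal.ofReal (2 ^ n) * ENNReal.ofReal D +
          ENNReal.ofReal K.card * ENNReal.ofReal (C0 ^ p)) * ∫⁻ x, ‖f x‖ₑ ^ p) := by
        rw [Finset.sum_const, nsmul_eq_mul, ENNReal.ofReal_natCast,
          ← ENNReal.ofReal_rpow_of_pos two_pos, ENNReal.ofReal_ofNat]
        ring
    _ = _ := by
        rw [ENNReal.ofReal_mul (by positivity), ENNReal.ofReal_add (by positivity) (by positivity),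
          ENNReal.ofReal_mul (by positivity), ENNReal.ofReal_mul (by positivity)]
        ring

end Pool.Agent.Y248.BA
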