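import Mathlib
import Pool.Agent.Y248.BA.LocC
set_option autoImplicit false

/-! # Counting radii with large norm -/

namespace Pool.Agent.Y248.BA

open MeasureTheory Set Metric Complex Filter
open scoped ENNReal RealInnerProductSpace Topology FourierTransform
open Pool.Agent.H789R2.FR (E sg T sg_finite polar)
open Pool.Agent.H438R2.RZ (Bump)

/-- from a sum bound to a count -/
theorem count_gen {ι : Type*} (K : Finset ι) (h : ι → ℝ≥0∞) (N : ℝ≥0∞) (L a c : ℝ)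
    (ha : 0 ≤ a) (hLc : 2 * c ≤ L)
    (h1 : ∑ k ∈ K, h k ≤ ENNReal.ofReal (a + K.card * c) * N)
    (h2 : ∀ k ∈ K, ENNReal.ofReal L * N < h k) : (K.card : ℝ) * L ≤ 2 * a := by
  rcases K.eq_empty_or_nonempty with hK | hK
  · rw [hK]; simp; exact ha
  have h3 : ∑ k ∈ K, ENNReal.ofReal L * N < ∑ k ∈ K, h k := by
    refine ENNReal.sum_lt_sum_of_nonempty hK h2
  have h4 : ∑ k ∈ K, ENNReal.ofReal L * N = ENNReal.ofReal (K.card * L) * N := by
    rw [Finset.sum_const, nsmul_eq_mul, ENNReal.ofReal_mul (by positivity),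
      ENNReal.ofReal_natCast, mul_assoc]
  rw [h4] at h3
  have h5 := h3.trans_le h1
  have h6 : (K.card : ℝ) * L < a + K.card * c := by
    by_contra hcon
    push Not at hcon
    have : ENNReal.ofReal (a + K.card * c) * N ≤ ENNReal.ofReal (K.card * L) * N := by gcongr
    exact absurd h5 (not_lt.mpr this)
  have h7 : (0 : ℝ) ≤ K.card := by positivity
  nlinarith

theorem count_big (n : ℕ) (hn : 2 ≤ n) {ψ : ℝ → ℝ} (hψ : Bump ψ) (p : ℝ) (hp2 : 2 < p)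
    (hp : p < 2 * ((n : ℝ) + 1) / ((n : ℝ) - 1)) (δ : ℝ) (hδ : 0 < δ) (η : ℝ)
    (hη : ((n : ℝ) - 1) * (p - 2) / 4 - p * δ < η) :
    ∃ δ' : ℝ, 0 < δ' ∧ δ' < δ ∧ ∃ C : ℝ, 0 < C ∧ ∃ L0 : ℝ, 8 ≤ L0 ∧ ∀ A : ℝ, L0 ≤ A →
    ∀ (K : Finset ℕ) (R : ℕ → ℝ), Rad A K R → ∀ f : E n → ℂ, Measurable f →
      ∫⁻ x, ‖f x‖ₑ ^ p ≠ ∞ →
      (∀ k ∈ K, ENNReal.ofReal (A ^ (p * δ')) * ∫⁻ x, ‖f x‖ₑ ^ p <
        ∫⁻ x, ‖Tp ψ A (R k) f x‖ₑ ^ p) → (K.card : ℝ) ≤ C * A ^ η := by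
  have hp0 : 0 < p := by linarith
  have hn2 : (2 : ℝ) ≤ n := by exact_mod_cast hn
  set g : ℝ := η - (((n : ℝ) - 1) * (p - 2) / 4 - p * δ) with hg
  have hg0 : 0 < g := by linarith
  set e1 : ℝ := 1 + ((n : ℝ) + 1) * (p - 2) / 4 with he1
  have he10 : 0 < e1 := by
    have : 0 ≤ ((n : ℝ) + 1) * (p - 2) / 4 := by
      have : 0 ≤ ((n : ℝ) + 1) * (p - 2) := mul_nonneg (by linarith) (by linarith)
      linarith
    linarith
  set δ' : ℝ := max (δ / 2) (δ - g / (2 * p)) with hδ'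
  have hδ'0 : 0 < δ' := lt_of_lt_of_le (by linarith) (le_max_left _ _)
  have hδ'1 : δ' < δ := by
    refine max_lt (by linarith) ?_
    have : 0 < g / (2 * p) := by positivity
    linarith
  have hδ'2 : p * (δ - δ') ≤ g / 2 := by
    have h1 : δ - δ' ≤ g / (2 * p) := by
      have := le_max_right (δ / 2) (δ - g / (2 * p))
      linarith
    calc p * (δ - δ') ≤ p * (g / (2 * p)) := by gcongr
      _ = g / 2 := by field_simp
  set ε : ℝ := g / (2 * e1) with hε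
  have hε0 : 0 < ε := by positivity
  have hεe : ε * e1 = g / 2 := by rw [hε]; field_simp
  obtain ⟨C, hC, hloc⟩ := loc_big n hn hψ p hp2 hp
  obtain ⟨C1, hC1, hglob⟩ := glob n hψ p (by linarith) ε hε0
  set c : ℝ := 2 ^ (p - 1) * C1 with hc
  have hc0 : 0 < c := by positivity
  refine ⟨δ', hδ'0, hδ'1, 2 * (2 ^ (p - 1) * (2 ^ n * C)), by positivity,
    max 8 ((2 * c) ^ (1 / (p * δ'))), le_max_left _ _, fun A hA K R hR f hf hfp hbad => ?_⟩
  have hA8 : 8 ≤ A := (le_max_left _ _).trans hA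
  have hA0 : 0 < A := by linarith
  have hpδ : 0 < p * δ' := by positivity
  have hLc : 2 * c ≤ A ^ (p * δ') := by
    have h1 := (le_max_right 8 ((2 * c) ^ (1 / (p * δ')))).trans hA
    have h2 := Real.rpow_le_rpow (by positivity) h1 hpδ.le
    rwa [← Real.rpow_mul (by positivity), one_div, inv_mul_cancel₀ hpδ.ne', Real.rpow_one] at h2
  set D : ℝ := C * (A ^ (1 + ε)) ^ e1 * A ^ (-(p / 2)) with hD
  have hD0 : 0 ≤ D := by positivity
  have hDe : D = C * A ^ (((n : ℝ) - 1) * (p - 2) / 4 + g / 2) := by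
    rw [hD, ← Real.rpow_mul hA0.le, mul_assoc, ← Real.rpow_add hA0]
    congr 2
    have : (1 + ε) * e1 = e1 + g / 2 := by rw [add_mul, one_mul, hεe]
    rw [this, he1]; ring
  have h1 := hglob A hA8 K R hR D hD0 (fun u g' hg' hgs hgp =>
    hloc A hA8 K R hR (A ^ (1 + ε)) (by positivity) u g' hg' hgs hgp) f hf hfp
  have h2 := count_gen K (fun k => ∫⁻ x, ‖Tp ψ A (R k) f x‖ₑ ^ p) (∫⁻ x, ‖f x‖ₑ ^ p)
    (A ^ (p * δ')) (2 ^ (p - 1) * (2 ^ n * D)) c (by positivity) hLc (by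
      refine h1.trans (le_of_eq ?_)
      congr 2; rw [hc]; ring) hbad
  have hAp : 0 < A ^ (p * δ') := by positivity
  rw [← le_div_iff₀ hAp] at h2
  refine h2.trans ?_
  rw [hDe, show 2 * (2 ^ (p - 1) * (2 ^ n * (C * A ^ (((n : ℝ) - 1) * (p - 2) / 4 + g / 2)))) /
    A ^ (p * δ') = 2 * (2 ^ (p - 1) * (2 ^ n * C)) *
      (A ^ (((n : ℝ) - 1) * (p - 2) / 4 + g / 2) / A ^ (p * δ')) by ring,
    ← Real.rpow_sub hA0]
  refine mul_le_mul_of_nonneg_left ?_ (by positivity)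
  refine Real.rpow_le_rpow_of_exponent_le (by linarith) ?_
  have : p * δ - p * δ' ≤ g / 2 := by rw [← mul_sub]; exact hδ'2
  linarith

theorem exists_theta (a η x0 : ℝ) (hx0 : x0 < 1) (h : a / (1 - x0) < η) :
    ∃ x : ℝ, x0 < x ∧ x < 1 ∧ a / (1 - x) < η := by
  have hc : ContinuousAt (fun x : ℝ => a / (1 - x)) x0 := by
    refine ContinuousAt.div continuousAt_const (by fun_prop) (by linarith)
  have h1 : ∀ᶠ x in 𝓝 x0, a / (1 - x) < η := hc.eventually (Iio_mem_nhds h)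
  have h2 : ∀ᶠ x in 𝓝 x0, x < 1 := Iio_mem_nhds hx0
  have h3 : ∀ᶠ x in 𝓝[>] x0, a / (1 - x) < η := nhdsWithin_le_nhds h1
  have h4 : ∀ᶠ x in 𝓝[>] x0, x < 1 := nhdsWithin_le_nhds h2
  have h5 : ∀ᶠ x in 𝓝[>] x0, x0 < x := self_mem_nhdsWithin
  obtain ⟨x, ha, hb, hc'⟩ := (h3.and (h4.and h5)).exists
  exact ⟨x, hc', hb, ha⟩

theorem count_small (n : ℕ) (hn : 2 ≤ n) {ψ : ℝ → ℝ} (hψ : Bump ψ) (p : ℝ) (hp2 : p < 2)
    (hp : 2 * (n : ℝ) / ((n : ℝ) + 1) ≤ p) (δ : ℝ) (hδ : 0 < δ) (η : ℝ)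
    (hη : (((n : ℝ) - 1) * (1 / p - 1 / 2) - 2 * δ) / (1 - ((n : ℝ) + 1) * (1 / p - 1 / 2)) < η) :
    ∃ δ' : ℝ, 0 < δ' ∧ δ' < δ ∧ ∃ C : ℝ, 0 < C ∧ ∃ L0 : ℝ, 8 ≤ L0 ∧ ∀ A : ℝ, L0 ≤ A →
    ∀ (K : Finset ℕ) (R : ℕ → ℝ), Rad A K R → ∀ f : E n → ℂ, Measurable f →
      ∫⁻ x, ‖f x‖ₑ ^ p ≠ ∞ →
      (∀ k ∈ K, ENNReal.ofReal (A ^ (p * δ')) * ∫⁻ x, ‖f x‖ₑ ^ p <
        ∫⁻ x, ‖Tp ψ A (R k) f x‖ₑ ^ p) → (K.card : ℝ) ≤ C * A ^ η := by
  have hn2 : (2 : ℝ) ≤ n := by exact_mod_cast hn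
  have hp1 : 1 < p := by
    refine lt_of_lt_of_le ?_ hp
    rw [lt_div_iff₀ (by linarith)]; linarith
  have hp0 : 0 < p := by linarith
  set s : ℝ := 1 / p - 1 / 2 with hs
  have hs0 : 0 < s := by
    rw [hs, sub_pos]; exact one_div_lt_one_div_of_lt hp0 hp2
  have hsn : 2 * n * s ≤ 1 := by
    have h1 : 1 / p ≤ ((n : ℝ) + 1) / (2 * n) := by
      rw [div_le_div_iff₀ hp0 (by positivity)]
      rw [div_le_iff₀ (by positivity)] at hp
      linarith
    have h2 : s ≤ ((n : ℝ) + 1) / (2 * n) - 1 / 2 := by rw [hs]; linarith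
    have h3 : ((n : ℝ) + 1) / (2 * n) - 1 / 2 = 1 / (2 * n) := by field_simp; ring
    rw [h3, le_div_iff₀ (by positivity)] at h2
    linarith
  have hs1 : ((n : ℝ) + 1) * s < 1 := by nlinarith
  obtain ⟨θ, hθ0, hθ1, hθη⟩ := exists_theta _ η _ hs1 hη
  have hθp : 0 < θ := lt_trans (by positivity) hθ0
  set sP : ℝ := s / θ with hsP
  have hsP0 : 0 < sP := by positivity
  have hsP1 : s < sP := by
    rw [hsP, lt_div_iff₀ hθp]; nlinarith
  have hsP2 : ((n : ℝ) + 1) * sP < 1 := by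
    rw [hsP, ← mul_div_assoc, div_lt_one hθp]; exact hθ0
  have hsP3 : sP < 1 / 2 := by nlinarith
  set P : ℝ := 1 / (1 / 2 - sP) with hP
  have hPi : 1 / P = 1 / 2 - sP := by rw [hP, one_div_one_div]
  have hP0 : 0 < P := by rw [hP]; exact one_div_pos.2 (by linarith)
  have hPc : P < 2 * ((n : ℝ) + 1) / ((n : ℝ) - 1) := by
    rw [hP, div_lt_div_iff₀ (by linarith) (by linarith)]
    nlinarith
  have hqi : 1 / (p / (p - 1)) = 1 / 2 - s := by
    rw [hs]; field_simp; ring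
  have hqP : p / (p - 1) ≤ P := by
    have hq0 : 0 < p / (p - 1) := div_pos hp0 (by linarith)
    rw [← one_div_le_one_div hP0 hq0, hPi, hqi]; linarith
  have hθe : (1 / p - 1 / 2) / (1 / 2 - 1 / P) = θ := by
    rw [hPi, show (1 / 2 : ℝ) - (1 / 2 - sP) = sP by ring, ← hs, hsP]
    field_simp
  have hτ : tau n P / P = 1 / 2 - ((n : ℝ) + 1) * sP / 2 := by
    have h1 : tau n P / P = (1 + ((n : ℝ) - 1) / 2) * (1 / P) - ((n : ℝ) - 1) / 4 := by
      unfold tau; field_simp; ring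
    rw [h1, hPi]; ring
  have hτ0 : 0 < tau n P / P := by rw [hτ]; linarith
  -- parameters
  set g : ℝ := η * (1 - θ) - (((n : ℝ) - 1) * s - 2 * δ) with hg
  have hg0 : 0 < g := by
    rw [div_lt_iff₀ (by linarith)] at hθη
    linarith
  set e2 : ℝ := (n : ℝ) * (1 - p / 2) + 2 * tau n P / P * (θ * (p / 2)) with he2
  have he20 : 0 < e2 := by
    have h1 : 0 < (n : ℝ) * (1 - p / 2) := mul_pos (by linarith) (by linarith)
    have h2 : 0 < 2 * tau n P / P := by rw [mul_div_assoc]; linarith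
    have h3 : 0 < 2 * tau n P / P * (θ * (p / 2)) := by positivity
    linarith
  set δ' : ℝ := max (δ / 2) (δ - g / 4) with hδ'
  have hδ'0 : 0 < δ' := lt_of_lt_of_le (by linarith) (le_max_left _ _)
  have hδ'1 : δ' < δ := max_lt (by linarith) (by linarith)
  have hδ'2 : δ - δ' ≤ g / 4 := by
    have := le_max_right (δ / 2) (δ - g / 4)
    linarith
  set ε : ℝ := p * g / (4 * e2) with hε
  have hε0 : 0 < ε := by positivity
  have hεe : ε * e2 = p * g / 4 := by rw [hε]; field_simp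
  obtain ⟨C, hC, hloc⟩ := loc_small n hn hψ p hp1 hp2 P hqP hPc
  rw [hθe] at hloc
  obtain ⟨C1, hC1, hglob⟩ := glob n hψ p (by linarith) ε hε0
  set c : ℝ := 2 ^ (p - 1) * C1 with hc
  have hc0 : 0 < c := by positivity
  set w : ℝ := p / 2 * (1 - θ) with hw
  have hw0 : 0 < w := mul_pos (by linarith) (by linarith)
  refine ⟨δ', hδ'0, hδ'1, (2 * (2 ^ (p - 1) * (2 ^ n * C))) ^ (1 / w), by positivity,
    max 8 ((2 * c) ^ (1 / (p * δ'))), le_max_left _ _, fun A hA K R hR f hf hfp hbad => ?_⟩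
  have hA8 : 8 ≤ A := (le_max_left _ _).trans hA
  have hA0 : 0 < A := by linarith
  have hpδ : 0 < p * δ' := by positivity
  have hLc : 2 * c ≤ A ^ (p * δ') := by
    have h1 := (le_max_right 8 ((2 * c) ^ (1 / (p * δ')))).trans hA
    have h2 := Real.rpow_le_rpow (by positivity) h1 hpδ.le
    rwa [← Real.rpow_mul (by positivity), one_div, inv_mul_cancel₀ hpδ.ne', Real.rpow_one] at h2
  rcases K.eq_empty_or_nonempty with hK | hK
  · rw [hK]; simp; positivity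
  have hm : (0 : ℝ) < K.card := by exact_mod_cast hK.card_pos
  set m : ℝ := (K.card : ℝ) with hmd
  set ρ : ℝ := A ^ (1 + ε) with hρ
  have hρ0 : 0 < ρ := by positivity
  set D : ℝ := C * ρ ^ ((n : ℝ) * (1 - p / 2)) * m ^ (1 - p / 2) *
    (ρ ^ (2 * tau n P / P) * (m / A)) ^ (θ * (p / 2)) with hD
  have hD0 : 0 ≤ D := by positivity
  have hDe : D = C * A ^ (p * (((n : ℝ) - 1) * s) / 2 + p * g / 4) *
      m ^ (1 - w) := by
    have e3 : (ρ ^ (2 * tau n P / P) * (m / A)) ^ (θ * (p / 2)) =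
        ρ ^ (2 * tau n P / P * (θ * (p / 2))) * (m ^ (θ * (p / 2)) * A ^ (-(θ * (p / 2)))) := by
      rw [Real.mul_rpow (by positivity) (by positivity), ← Real.rpow_mul hρ0.le,
        Real.div_rpow hm.le hA0.le, Real.rpow_neg hA0.le, ← div_eq_mul_inv]
    have e4 : ρ ^ ((n : ℝ) * (1 - p / 2)) * ρ ^ (2 * tau n P / P * (θ * (p / 2))) *
        A ^ (-(θ * (p / 2))) = A ^ (p * (((n : ℝ) - 1) * s) / 2 + p * g / 4) := by
      rw [← Real.rpow_add hρ0, hρ, ← Real.rpow_mul hA0.le, ← Real.rpow_add hA0]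
      congr 1
      have h1 : (1 + ε) * e2 = e2 + p * g / 4 := by rw [add_mul, one_mul, hεe]
      rw [← he2, h1, he2]
      have h2 : 2 * tau n P / P = 1 - ((n : ℝ) + 1) * sP := by
        rw [mul_div_assoc, hτ]; ring
      have h3 : sP * θ = s := by rw [hsP]; field_simp
      have h4 : 1 - p / 2 = p * s := by rw [hs]; field_simp
      rw [h2, h4]
      have h5 : (1 - ((n : ℝ) + 1) * sP) * (θ * (p / 2)) =
          θ * (p / 2) - ((n : ℝ) + 1) * (sP * θ) * (p / 2) := by ring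
      rw [h5, h3]; ring
    have e5 : m ^ (1 - p / 2) * m ^ (θ * (p / 2)) = m ^ (1 - w) := by
      rw [← Real.rpow_add hm]; congr 1; rw [hw]; ring
    rw [hD, e3, ← e4, ← e5]; ring
  have h1 := hglob A hA8 K R hR D hD0 (fun u g' hg' hgs hgp =>
    hloc A hA8 K R hR ρ hρ0 u g' hg' hgs hgp) f hf hfp
  have h2 := count_gen K (fun k => ∫⁻ x, ‖Tp ψ A (R k) f x‖ₑ ^ p) (∫⁻ x, ‖f x‖ₑ ^ p)
    (A ^ (p * δ')) (2 ^ (p - 1) * (2 ^ n * D)) c (by positivity) hLc (by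
      refine h1.trans (le_of_eq ?_)
      congr 2; rw [hc]; ring) hbad
  rw [← hmd] at h2
  have hAp : 0 < A ^ (p * δ') := by positivity
  -- `m ^ w ≤ C' A ^ ...`
  have h3 : m ^ w ≤ 2 * (2 ^ (p - 1) * (2 ^ n * C)) *
      A ^ (p * (((n : ℝ) - 1) * s) / 2 + p * g / 4 - p * δ') := by
    rw [hDe] at h2
    have hmw : 0 < m ^ (1 - w) := by positivity
    have e6 : m = m ^ w * m ^ (1 - w) := by
      rw [← Real.rpow_add hm, show w + (1 - w) = 1 by ring, Real.rpow_one]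
    have h4 : (m ^ w * A ^ (p * δ')) * m ^ (1 - w) ≤ (2 * (2 ^ (p - 1) * (2 ^ n * C)) *
        A ^ (p * (((n : ℝ) - 1) * s) / 2 + p * g / 4)) * m ^ (1 - w) := by
      calc (m ^ w * A ^ (p * δ')) * m ^ (1 - w) = (m ^ w * m ^ (1 - w)) * A ^ (p * δ') := by ring
        _ = m * A ^ (p * δ') := by rw [← e6]
        _ ≤ _ := h2
        _ = _ := by ring
    have h5 := le_of_mul_le_mul_right h4 hmw
    rw [Real.rpow_sub hA0, ← mul_div_assoc, le_div_iff₀ hAp]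
    exact h5
  have h6 := Real.rpow_le_rpow (by positivity) h3 (show 0 ≤ 1 / w by positivity)
  rw [← Real.rpow_mul hm.le, mul_one_div, div_self hw0.ne', Real.rpow_one,
    Real.mul_rpow (by positivity) (by positivity), ← Real.rpow_mul hA0.le] at h6
  refine h6.trans ?_
  refine mul_le_mul_of_nonneg_left ?_ (by positivity)
  refine Real.rpow_le_rpow_of_exponent_le (by linarith) ?_
  rw [mul_one_div, div_le_iff₀ hw0, hw]
  have h7 : η * (p / 2 * (1 - θ)) = p / 2 * (g + (((n : ℝ) - 1) * s - 2 * δ)) := by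
    rw [hg]; ring
  rw [h7]
  have h8 : p * (δ - δ') ≤ p * (g / 4) := by gcongr
  calc p * (((n : ℝ) - 1) * s) / 2 + p * g / 4 - p * δ' =
      p / 2 * (g + (((n : ℝ) - 1) * s - 2 * δ)) - (p * (g / 4) - p * (δ - δ')) := by ring
    _ ≤ _ := by linarith

end Pool.Agent.Y248.BA
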