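import Mathlib
set_option autoImplicit false

/-! # Dimension of limsup sets of few intervals -/

namespace Pool.Agent.Y248.BA

open MeasureTheory Set Metric Filter
open scoped ENNReal NNReal Topology

theorem dim_limsup (S : Set ℝ) (t : ℕ → ℕ → Set ℝ) (K : ℕ → Finset ℕ) (C η1 η : ℝ) (hC : 0 ≤ C)
    (hη0 : 0 < η) (hη : η1 < η) (J0 : ℕ)
    (hS : ∀ x ∈ S, ∀ J : ℕ, ∃ j, J ≤ j ∧ ∃ k ∈ K j, x ∈ t j k)
    (hd : ∀ j, J0 ≤ j → ∀ k ∈ K j, ediam (t j k) ≤ ENNReal.ofReal ((2 : ℝ) ^ (-(j : ℝ))))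
    (hK : ∀ j, J0 ≤ j → ((K j).card : ℝ) ≤ C * (2 : ℝ) ^ ((j : ℝ) * η1)) :
    dimH S ≤ ENNReal.ofReal η := by
  have h2 : (0 : ℝ) < 2 := by norm_num
  -- index the pieces beyond level `J`
  let u : ℕ → ℕ × ℕ → Set ℝ := fun J q =>
    if q.2 ∈ K (J0 + J + q.1) then t (J0 + J + q.1) q.2 else ∅
  have hu : ∀ J q, ediam (u J q) ≤ ENNReal.ofReal ((2 : ℝ) ^ (-(J : ℝ))) := by
    intro J q
    simp only [u]
    split_ifs with h
    · refine (hd _ (by omega) _ h).trans (ENNReal.ofReal_le_ofReal ?_)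
      refine Real.rpow_le_rpow_of_exponent_le (by norm_num) ?_
      push_cast
      have : (0 : ℝ) ≤ J0 := by positivity
      have : (0 : ℝ) ≤ q.1 := by positivity
      linarith
    · simp
  have hcov : ∀ J, S ⊆ ⋃ q, u J q := by
    intro J x hx
    obtain ⟨j, hj, k, hk, hxk⟩ := hS x hx (J0 + J)
    refine mem_iUnion.2 ⟨(j - (J0 + J), k), ?_⟩
    simp only [u]
    rw [show J0 + J + (j - (J0 + J)) = j by omega, if_pos hk]
    exact hxk
  have hr : Tendsto (fun J : ℕ => ENNReal.ofReal ((2 : ℝ) ^ (-(J : ℝ)))) atTop (𝓝 0) := by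
    have h1 : Tendsto (fun J : ℕ => ((1 / 2 : ℝ)) ^ J) atTop (𝓝 0) :=
      tendsto_pow_atTop_nhds_zero_of_lt_one (by norm_num) (by norm_num)
    have h3 := ENNReal.tendsto_ofReal h1
    rw [ENNReal.ofReal_zero] at h3
    refine h3.congr fun J => ?_
    congr 1
    rw [Real.rpow_neg h2.le, Real.rpow_natCast, one_div, inv_pow]
  have hm := Measure.hausdorffMeasure_le_liminf_tsum η S _ hr u
    (Eventually.of_forall fun J q => hu J q) (Eventually.of_forall fun J => hcov J)
  -- bound of the sums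
  set c : ℝ := (2 : ℝ) ^ (η1 - η) with hc
  have hc0 : 0 < c := by positivity
  have hc1 : c < 1 := Real.rpow_lt_one_of_one_lt_of_neg (by norm_num) (by linarith)
  have hsum : ∀ J, ∑' q, ediam (u J q) ^ η ≤ ∑' i : ℕ, ENNReal.ofReal (C * c ^ i) := by
    intro J
    rw [ENNReal.tsum_prod']
    refine ENNReal.tsum_le_tsum fun i => ?_
    have e1 : ∑' k, ediam (u J (i, k)) ^ η =
        ∑ k ∈ K (J0 + J + i), ediam (u J (i, k)) ^ η := by
      refine tsum_eq_sum fun k hk => ?_
      simp only [u]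
      rw [if_neg hk]
      simp [hη0]
    rw [e1]
    calc ∑ k ∈ K (J0 + J + i), ediam (u J (i, k)) ^ η
        ≤ ∑ k ∈ K (J0 + J + i), ENNReal.ofReal ((2 : ℝ) ^ (-((J0 + J + i : ℕ) : ℝ))) ^ η := by
          refine Finset.sum_le_sum fun k hk => ?_
          refine ENNReal.rpow_le_rpow ?_ hη0.le
          simp only [u]
          rw [if_pos hk]
          exact hd _ (by omega) k hk
      _ = ENNReal.ofReal ((K (J0 + J + i)).card * ((2 : ℝ) ^ (-((J0 + J + i : ℕ) : ℝ))) ^ η) := by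
          rw [Finset.sum_const, nsmul_eq_mul, ENNReal.ofReal_mul (by positivity),
            ENNReal.ofReal_natCast, ENNReal.ofReal_rpow_of_nonneg (by positivity) hη0.le]
      _ ≤ ENNReal.ofReal (C * c ^ i) := by
          refine ENNReal.ofReal_le_ofReal ?_
          have h3 := hK (J0 + J + i) (by omega)
          calc ((K (J0 + J + i)).card : ℝ) * ((2 : ℝ) ^ (-((J0 + J + i : ℕ) : ℝ))) ^ η
              ≤ (C * (2 : ℝ) ^ (((J0 + J + i : ℕ) : ℝ) * η1)) *
                ((2 : ℝ) ^ (-((J0 + J + i : ℕ) : ℝ))) ^ η := by gcongr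
            _ = C * ((2 : ℝ) ^ (((J0 + J + i : ℕ) : ℝ) * (η1 - η))) := by
                rw [← Real.rpow_mul h2.le, mul_assoc, ← Real.rpow_add h2]
                congr 2; ring
            _ = C * c ^ (J0 + J + i) := by
                rw [hc, ← Real.rpow_natCast, ← Real.rpow_mul h2.le]
                congr 2; ring
            _ ≤ C * c ^ i := by
                refine mul_le_mul_of_nonneg_left ?_ hC
                exact pow_le_pow_of_le_one hc0.le hc1.le (by omega)
  have hfin : ∑' i : ℕ, ENNReal.ofReal (C * c ^ i) ≠ ∞ := by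
    rw [← ENNReal.ofReal_tsum_of_nonneg (fun i => by positivity)
      ((summable_geometric_of_lt_one hc0.le hc1).mul_left C)]
    exact ENNReal.ofReal_ne_top
  have hm2 : μH[η] S ≠ ∞ := by
    refine ne_top_of_le_ne_top hfin (hm.trans ?_)
    refine (liminf_le_liminf (Eventually.of_forall hsum)).trans ?_
    rw [liminf_const]
  have h4 := dimH_le_of_hausdorffMeasure_ne_top (d := η.toNNReal) (s := S) (by
    rw [Real.coe_toNNReal _ hη0.le]; exact hm2)
  exact h4

end Pool.Agent.Y248.BA
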