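import Mathlib
import Pool.Agent.Y248.BA.LocC
import Pool.Agent.H438R2.RZ.R7
set_option autoImplicit false

/-! # The Bochner-Riesz kernel as a sum of pieces -/

namespace Pool.Agent.Y248.BA

open MeasureTheory Set Metric Complex Filter
open scoped ENNReal RealInnerProductSpace Topology FourierTransform
open Pool.Agent.H789R2.FR (E sg T sg_finite polar)
open Pool.Agent.H438R2.RZ (Bump)

theorem mu_two {n : ℕ} {ψ : ℝ → ℝ} (hψ : Bump ψ) {A R : ℝ} (hA : 0 < A) (hR : 0 < R)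
    (hR2 : R ≤ 2) : MemLp (mu (n := n) ψ A R) 2 :=
  (mu_cont hψ A R).memLp_of_hasCompactSupport (mu_comp hψ hA hR hR2)

theorem mu_L2 (n : ℕ) (hn : 2 ≤ n) {ψ : ℝ → ℝ} (hψ : Bump ψ) : ∃ C : ℝ, 0 < C ∧ ∀ A R : ℝ, 1 ≤ A →
    1 ≤ R → R ≤ 2 → ∫⁻ ξ : E n, ‖mu ψ A R ξ‖ₑ ^ (2 : ℝ) ≤ ENNReal.ofReal (C / A) := by
  obtain ⟨M, hM, hMb⟩ := mu_bdd hψ
  obtain ⟨C, hC, hb⟩ := shell_vol n hn
  obtain ⟨V, hV, hVb⟩ := ball_vol n
  refine ⟨M ^ 2 * (C + V * 2 ^ n * 4), by positivity, fun A R hA hR1 hR2 => ?_⟩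
  have hA0 : 0 < A := by linarith
  have key : ∀ S : Set (E n), MeasurableSet S → (∀ ξ, mu ψ A R ξ ≠ 0 → ξ ∈ S) →
      ∫⁻ ξ : E n, ‖mu ψ A R ξ‖ₑ ^ (2 : ℝ) ≤ ENNReal.ofReal (M ^ 2) * volume S := by
    intro S hS hsup
    rw [← setLIntegral_const, ← lintegral_indicator hS]
    refine lintegral_mono fun ξ => ?_
    by_cases h : mu ψ A R ξ = 0
    · rw [h, enorm_zero, ENNReal.zero_rpow_of_pos (by norm_num)]; exact zero_le
    · rw [indicator_of_mem (hsup ξ h), ← ofReal_norm,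
        ENNReal.ofReal_rpow_of_nonneg (norm_nonneg _) (by norm_num)]
      refine ENNReal.ofReal_le_ofReal ?_
      rw [show ((2 : ℝ)) = ((2 : ℕ) : ℝ) by norm_num, Real.rpow_natCast]
      exact pow_le_pow_left₀ (norm_nonneg _) (hMb n A R ξ) 2
  rcases le_total 4 A with h4 | h4
  · have hSm : MeasurableSet {ξ : E n | R - 4 / A ≤ ‖ξ‖ ∧ ‖ξ‖ ≤ R} :=
      (measurableSet_le measurable_const measurable_norm).inter
        (measurableSet_le measurable_norm measurable_const)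
    refine (key _ hSm fun ξ hξ => mu_loc hψ h4 hR1 hR2 ξ hξ).trans ?_
    refine (mul_le_mul' le_rfl (hb A R hA hR1 hR2)).trans ?_
    rw [← ENNReal.ofReal_mul (by positivity), ← mul_div_assoc]
    refine ENNReal.ofReal_le_ofReal ?_
    gcongr
    have : 0 < V * 2 ^ n * 4 := by positivity
    linarith
  · refine (key (closedBall 0 2) isClosed_closedBall.measurableSet fun ξ hξ => ?_).trans ?_
    · rw [mem_closedBall_zero_iff]
      by_contra hc
      push Not at hc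
      exact hξ (mu_far hψ hA0 (by linarith) ξ (by linarith))
    · rw [hVb 0 2 (by norm_num), ← ENNReal.ofReal_mul (by positivity)]
      refine ENNReal.ofReal_le_ofReal ?_
      rw [mul_div_assoc]
      refine mul_le_mul_of_nonneg_left ?_ (by positivity)
      rw [le_div_iff₀ hA0]
      have : V * 2 ^ n * A ≤ V * 2 ^ n * 4 := by gcongr
      linarith

theorem Kr_L2 (n : ℕ) (hn : 2 ≤ n) {ψ : ℝ → ℝ} (hψ : Bump ψ) : ∃ C : ℝ, 0 < C ∧ ∀ A R : ℝ, 1 ≤ A →
    1 ≤ R → R ≤ 2 → ∫⁻ w : E n, ‖Kr ψ A R w‖ₑ ^ (2 : ℝ) ≤ ENNReal.ofReal (C / A) := by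
  obtain ⟨C, hC, hb⟩ := mu_L2 n hn hψ
  refine ⟨C, hC, fun A R hA hR1 hR2 => (le_of_eq ?_).trans (hb A R hA hR1 hR2)⟩
  exact planch (mu_int hψ (by linarith) (by linarith) hR2)
    (mu_two hψ (by linarith) (by linarith) hR2)

theorem Jw_le_one {n : ℕ} (x : E n) : Jw x ≤ 1 := by
  unfold Jw
  refine Real.rpow_le_one_of_one_le_of_nonpos (by linarith [norm_nonneg x]) ?_
  have : (0 : ℝ) ≤ n := by positivity
  linarith

/-- `L^q` norms of the kernels in the critical range -/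
theorem Kr_Lq (n : ℕ) (hn : 2 ≤ n) {ψ : ℝ → ℝ} (hψ : Bump ψ) (q : ℝ)
    (hq : 2 * (n : ℝ) / ((n : ℝ) + 1) ≤ q) (ε : ℝ) (hε : 0 < ε) :
    ∃ C : ℝ, 0 < C ∧ ∀ A R : ℝ, 1 ≤ A → 1 ≤ R → R ≤ 2 →
      ∫⁻ w : E n, ‖Kr ψ A R w‖ₑ ^ q ≤ ENNReal.ofReal (C * A ^ ε) := by
  have hn2 : (2 : ℝ) ≤ n := by exact_mod_cast hn
  have hq1 : 1 < q := by
    refine lt_of_lt_of_le ?_ hq
    rw [lt_div_iff₀ (by linarith)]; linarith
  have hq0 : 0 < q := by linarith
  obtain ⟨C2, hC2, hb2⟩ := Kr_L2 n hn hψ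
  rcases le_or_gt q 2 with hq2 | hq2
  · obtain ⟨C1, hC1, hb1⟩ := Kr_tail n hψ (ε / n) (by positivity)
    obtain ⟨V, hV, hVb⟩ := ball_vol n
    have hJ : 0 ≤ ∫ w : E n, Jw w := integral_nonneg fun w => (Jw_pos w).le
    refine ⟨V ^ (1 - q / 2) * C2 ^ (q / 2) + C1 ^ q * ∫ w : E n, Jw w, by positivity,
      fun A R hA hR1 hR2 => ?_⟩
    have hA0 : 0 < A := by linarith
    set ρ : ℝ := A ^ (1 + ε / n) with hρ
    have hρ0 : 0 < ρ := by positivity
    have hBm : MeasurableSet (closedBall (0 : E n) ρ) := isClosed_closedBall.measurableSet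
    have hKm : Measurable (Kr (n := n) ψ A R) :=
      (Kr_cont hψ hA0 (by linarith) hR2).measurable
    rw [← lintegral_add_compl _ hBm]
    have h1 : ∫⁻ w in closedBall (0 : E n) ρ, ‖Kr ψ A R w‖ₑ ^ q ≤
        ENNReal.ofReal (V ^ (1 - q / 2) * C2 ^ (q / 2) * A ^ ε) := by
      have h1 := ENNReal.lintegral_mul_norm_pow_le (μ := (volume : Measure (E n)).restrict
        (closedBall 0 ρ)) (f := fun _ => (1 : ℝ≥0∞))
        (g := fun x => ‖Kr ψ A R x‖ₑ ^ (2 : ℝ))
        aemeasurable_const (hKm.enorm.pow_const _).aemeasurable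
        (p := 1 - q / 2) (q := q / 2) (by linarith) (by positivity) (by ring)
      have e1 : ∀ x, (1 : ℝ≥0∞) ^ (1 - q / 2) *
          (‖Kr (n := n) ψ A R x‖ₑ ^ (2 : ℝ)) ^ (q / 2) = ‖Kr (n := n) ψ A R x‖ₑ ^ q := by
        intro x
        rw [ENNReal.one_rpow, one_mul, ← ENNReal.rpow_mul]
        congr 1; ring
      simp only [e1] at h1
      refine h1.trans ?_
      rw [lintegral_one, Measure.restrict_apply_univ, hVb 0 ρ hρ0.le]
      refine (mul_le_mul' le_rfl (ENNReal.rpow_le_rpow ((setLIntegral_le_lintegral _ _).trans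
        (hb2 A R hA hR1 hR2)) (by positivity))).trans ?_
      rw [ENNReal.ofReal_rpow_of_nonneg (by positivity) (by linarith),
        ENNReal.ofReal_rpow_of_nonneg (by positivity) (by positivity),
        ← ENNReal.ofReal_mul (by positivity)]
      refine ENNReal.ofReal_le_ofReal ?_
      rw [Real.mul_rpow hV.le (by positivity), Real.div_rpow hC2.le hA0.le, hρ,
        ← Real.rpow_natCast (A ^ (1 + ε / n)) n, ← Real.rpow_mul (by positivity),
        ← Real.rpow_mul hA0.le, div_eq_mul_inv (C2 ^ (q / 2)), ← Real.rpow_neg hA0.le]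
      have e2 : V ^ (1 - q / 2) * A ^ ((1 + ε / n) * (n * (1 - q / 2))) *
          (C2 ^ (q / 2) * A ^ (-(q / 2))) = V ^ (1 - q / 2) * C2 ^ (q / 2) *
          (A ^ ((1 + ε / n) * (n * (1 - q / 2))) * A ^ (-(q / 2))) := by ring
      rw [e2, ← Real.rpow_add hA0]
      refine mul_le_mul_of_nonneg_left ?_ (by positivity)
      refine Real.rpow_le_rpow_of_exponent_le hA ?_
      have e3 : (1 + ε / n) * (n * (1 - q / 2)) + -(q / 2) =
          n - q * (n + 1) / 2 + ε * (1 - q / 2) := by field_simp; ring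
      rw [e3]
      rw [div_le_iff₀ (by linarith)] at hq
      nlinarith
    have h2 : ∫⁻ w in (closedBall (0 : E n) ρ)ᶜ, ‖Kr ψ A R w‖ₑ ^ q ≤
        ENNReal.ofReal (C1 ^ q * ∫ w : E n, Jw w) := by
      rw [← integral_const_mul, ofReal_integral_eq_lintegral_ofReal (Jw_int.const_mul _)
        (Eventually.of_forall fun w => (mul_pos (by positivity) (Jw_pos w)).le),
        ← lintegral_indicator hBm.compl]
      refine lintegral_mono fun w => ?_
      by_cases hw : w ∈ (closedBall (0 : E n) ρ)ᶜ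
      · rw [indicator_of_mem hw, ← ofReal_norm,
          ENNReal.ofReal_rpow_of_nonneg (norm_nonneg _) hq0.le]
        refine ENNReal.ofReal_le_ofReal ?_
        rw [mem_compl_iff, mem_closedBall_zero_iff, not_le] at hw
        have h3 := hb1 A R hA hR1 hR2 w hw.le
        calc ‖Kr ψ A R w‖ ^ q ≤ (C1 * Jw w) ^ q := by gcongr
          _ = C1 ^ q * Jw w ^ q := Real.mul_rpow hC1.le (Jw_pos w).le
          _ ≤ C1 ^ q * Jw w := by
            refine mul_le_mul_of_nonneg_left ?_ (by positivity)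
            calc Jw w ^ q ≤ Jw w ^ (1 : ℝ) :=
                  Real.rpow_le_rpow_of_exponent_ge (Jw_pos w) (Jw_le_one w) hq1.le
              _ = Jw w := Real.rpow_one _
      · rw [indicator_of_notMem hw]; exact zero_le
    refine (add_le_add h1 h2).trans ?_
    rw [← ENNReal.ofReal_add (by positivity) (by positivity)]
    refine ENNReal.ofReal_le_ofReal ?_
    rw [add_mul]
    have h5 : 1 ≤ A ^ ε := Real.one_le_rpow hA hε.le
    have h6 : 0 ≤ C1 ^ q * ∫ w : E n, Jw w := by positivity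
    nlinarith
  · obtain ⟨C0, hC0, hb0⟩ := Kr_dec n hψ 0
    refine ⟨C0 ^ (q - 2) * C2, by positivity, fun A R hA hR1 hR2 => ?_⟩
    have hA0 : 0 < A := by linarith
    have hKm : Measurable (Kr (n := n) ψ A R) :=
      (Kr_cont hψ hA0 (by linarith) hR2).measurable
    calc ∫⁻ w : E n, ‖Kr ψ A R w‖ₑ ^ q
        ≤ ∫⁻ w : E n, ENNReal.ofReal (C0 ^ (q - 2)) * ‖Kr ψ A R w‖ₑ ^ (2 : ℝ) := by
          refine lintegral_mono fun w => ?_
          have h0 := hb0 A R hA hR1 hR2 w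
          rw [pow_zero, one_mul, pow_zero, mul_one] at h0
          rw [← ofReal_norm, ENNReal.ofReal_rpow_of_nonneg (norm_nonneg _) hq0.le,
            ENNReal.ofReal_rpow_of_nonneg (norm_nonneg _) (by norm_num),
            ← ENNReal.ofReal_mul (by positivity)]
          refine ENNReal.ofReal_le_ofReal ?_
          rcases (norm_nonneg (Kr ψ A R w)).eq_or_lt with h | h
          · rw [← h, Real.zero_rpow hq0.ne']; positivity
          · calc ‖Kr ψ A R w‖ ^ q = ‖Kr ψ A R w‖ ^ (q - 2) * ‖Kr ψ A R w‖ ^ (2 : ℝ) := by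
                  rw [← Real.rpow_add h]; congr 1; ring
              _ ≤ _ := by
                  refine mul_le_mul_of_nonneg_right ?_ (by positivity)
                  exact Real.rpow_le_rpow h.le h0 (by linarith)
      _ = ENNReal.ofReal (C0 ^ (q - 2)) * ∫⁻ w : E n, ‖Kr ψ A R w‖ₑ ^ (2 : ℝ) := by
          rw [lintegral_const_mul _ (hKm.enorm.pow_const _)]
      _ ≤ ENNReal.ofReal (C0 ^ (q - 2)) * ENNReal.ofReal (C2 / A) := by
          gcongr
          exact hb2 A R hA hR1 hR2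
      _ ≤ _ := by
          rw [← ENNReal.ofReal_mul (by positivity)]
          refine ENNReal.ofReal_le_ofReal ?_
          have h5 : 1 ≤ A ^ ε := Real.one_le_rpow hA hε.le
          have h6 : C2 / A ≤ C2 := div_le_self hC2.le hA
          calc C0 ^ (q - 2) * (C2 / A) ≤ C0 ^ (q - 2) * C2 * 1 := by
                rw [mul_one]; gcongr
            _ ≤ _ := by gcongr

/-- the multiplier of the mean at radius `R` -/
noncomputable def bm {n : ℕ} (δ R : ℝ) (ξ : E n) : ℂ :=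
  (((max (1 - (R ^ 2)⁻¹ * ‖ξ‖ ^ 2) 0) ^ δ : ℝ) : ℂ)

/-- its kernel -/
noncomputable def KR {n : ℕ} (δ R : ℝ) : E n → ℂ := 𝓕 (bm (n := n) δ R)

/-- the pieces sum to the kernel -/
theorem KR_sum (n : ℕ) (δ : ℝ) (hδ : 0 < δ) {ψ : ℝ → ℝ} (hψ : Bump ψ)
    (hd : ∀ u : ℝ, 0 ≤ u → HasSum (fun j : ℕ => (2 : ℝ) ^ (-(δ * j)) * ψ (2 ^ j * (1 - u)))
      ((max (1 - u) 0) ^ δ)) (R : ℝ) (hR : 0 < R) (hR2 : R ≤ 2) (w : E n) :
    HasSum (fun j : ℕ => (((2 : ℝ) ^ (-(δ * j)) : ℝ) : ℂ) * Kr ψ (2 ^ j) R w) (KR δ R w) := by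
  obtain ⟨M, hM, hMb⟩ := mu_bdd hψ
  have h2 : ∀ j : ℕ, 0 ≤ (2 : ℝ) ^ (-(δ * j)) := fun j => Real.rpow_nonneg (by norm_num) _
  have hgeo : Summable fun j : ℕ => (2 : ℝ) ^ (-(δ * j)) := by
    have : (fun j : ℕ => (2 : ℝ) ^ (-(δ * j))) = fun j : ℕ => ((2 : ℝ) ^ (-δ)) ^ j := by
      funext j
      rw [← Real.rpow_natCast, ← Real.rpow_mul (by norm_num)]; congr 1; ring
    rw [this]
    exact summable_geometric_of_lt_one (Real.rpow_nonneg (by norm_num) _)
      (Real.rpow_lt_one_of_one_lt_of_neg (by norm_num) (by linarith))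
  set V : ℝ := (volume : Measure (E n)).real (closedBall (0 : E n) 2) with hV
  set F : ℕ → E n → ℂ := fun j ξ => (((2 : ℝ) ^ (-(δ * j)) : ℝ) : ℂ) *
    (cexp (((-2 * Real.pi * ⟪ξ, w⟫ : ℝ) : ℂ) * I) * mu ψ (2 ^ j) R ξ) with hF
  have hFi : ∀ j, Integrable (F j) := by
    intro j
    refine Integrable.const_mul ?_ _
    refine (mu_int hψ (by positivity) hR hR2).bdd_mul (c := 1) ?_ (Eventually.of_forall fun ξ => ?_)
    · apply Continuous.aestronglyMeasurable; fun_prop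
    · rw [Complex.norm_exp_ofReal_mul_I]
  have hFn : ∀ j, ∫ ξ, ‖F j ξ‖ ≤ (2 : ℝ) ^ (-(δ * j)) * (M * V) := by
    intro j
    have hI : Integrable ((closedBall (0 : E n) 2).indicator
        (fun _ => (2 : ℝ) ^ (-(δ * j)) * M)) (volume : Measure (E n)) := by
      rw [integrable_indicator_iff isClosed_closedBall.measurableSet]
      exact integrableOn_const measure_closedBall_lt_top.ne
    refine (integral_mono (hFi j).norm hI fun ξ => ?_).trans (le_of_eq ?_)
    · simp only [hF]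
      rw [norm_mul, norm_mul, Complex.norm_exp_ofReal_mul_I, one_mul, Complex.norm_real,
        Real.norm_of_nonneg (h2 j)]
      by_cases hξ : ξ ∈ closedBall (0 : E n) 2
      · rw [indicator_of_mem hξ]
        exact mul_le_mul_of_nonneg_left (hMb n _ _ _) (h2 j)
      · rw [indicator_of_notMem hξ]
        rw [mem_closedBall_zero_iff, not_le] at hξ
        rw [mu_far hψ (by positivity) hR ξ (by linarith)]; simp
    · rw [integral_indicator isClosed_closedBall.measurableSet, setIntegral_const, smul_eq_mul]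
      ring
  have hs := hasSum_integral_of_summable_integral_norm (μ := (volume : Measure (E n)))
    (F := F) hFi (Summable.of_nonneg_of_le (fun j => integral_nonneg fun ξ => norm_nonneg _) hFn
      (hgeo.mul_right _))
  have e1 : (∫ ξ : E n, ∑' j : ℕ, F j ξ) = KR δ R w := by
    unfold KR
    rw [four_eq]
    congr 1; funext ξ
    have hu : 0 ≤ (R ^ 2)⁻¹ * ‖ξ‖ ^ 2 := by positivity
    have h := (Complex.hasSum_ofReal.mpr (hd _ hu)).mul_left
      (cexp (((-2 * Real.pi * ⟪ξ, w⟫ : ℝ) : ℂ) * I))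
    have h3 : (fun j : ℕ => F j ξ) = fun j : ℕ => cexp (((-2 * Real.pi * ⟪ξ, w⟫ : ℝ) : ℂ) * I) *
        (((2 : ℝ) ^ (-(δ * j)) * ψ (2 ^ j * (1 - (R ^ 2)⁻¹ * ‖ξ‖ ^ 2)) : ℝ) : ℂ) := by
      funext j
      simp only [hF]
      unfold mu
      push_cast; ring
    rw [h3]
    exact h.tsum_eq
  rw [e1] at hs
  have e2 : (fun j : ℕ => (((2 : ℝ) ^ (-(δ * j)) : ℝ) : ℂ) * Kr ψ (2 ^ j) R w) =
      fun j : ℕ => ∫ ξ, F j ξ := by
    funext j
    simp only [hF]
    rw [integral_const_mul]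
    unfold Kr
    rw [four_eq]
  rw [e2]
  exact hs

end Pool.Agent.Y248.BA
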