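import Mathlib
import Pool.Agent.Y248.BA.Sum
set_option autoImplicit false

/-! # The means of `L^p` functions as sums of pieces -/

namespace Pool.Agent.Y248.BA

open MeasureTheory Set Metric Complex Filter
open scoped ENNReal RealInnerProductSpace Topology FourierTransform
open Pool.Agent.H789R2.FR (E sg T sg_finite polar)
open Pool.Agent.H438R2.RZ (Bump)

/-- the mean at radius `R` -/
noncomputable def SR {n : ℕ} (δ R : ℝ) (f : E n → ℂ) (x : E n) : ℂ := ∫ y : E n, KR δ R (x - y) * f y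

/-- decomposition property of a bump -/
def Dec (δ : ℝ) (ψ : ℝ → ℝ) : Prop :=
  ∀ u : ℝ, 0 ≤ u → HasSum (fun j : ℕ => (2 : ℝ) ^ (-(δ * j)) * ψ (2 ^ j * (1 - u)))
      ((max (1 - u) 0) ^ δ)

theorem geo_sum (δ : ℝ) (hδ : 0 < δ) : Summable fun j : ℕ => (2 : ℝ) ^ (-(δ * j)) := by
  have : (fun j : ℕ => (2 : ℝ) ^ (-(δ * j))) = fun j : ℕ => ((2 : ℝ) ^ (-δ)) ^ j := by
    funext j
    rw [← Real.rpow_natCast, ← Real.rpow_mul (by norm_num)]; congr 1; ring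
  rw [this]
  exact summable_geometric_of_lt_one (Real.rpow_nonneg (by norm_num) _)
    (Real.rpow_lt_one_of_one_lt_of_neg (by norm_num) (by linarith))

theorem bm_cont {n : ℕ} {δ : ℝ} (hδ : 0 < δ) (R : ℝ) : Continuous (bm (n := n) δ R) := by
  unfold bm
  refine Complex.continuous_ofReal.comp ?_
  refine Continuous.rpow_const (by fun_prop) fun x => Or.inr hδ.le

theorem bm_comp {n : ℕ} {δ : ℝ} (hδ : 0 < δ) {R : ℝ} (hR : 0 < R) :
    HasCompactSupport (bm (n := n) δ R) := by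
  refine HasCompactSupport.of_support_subset_isCompact (isCompact_closedBall (0 : E n) R)
    fun ξ hξ => ?_
  rw [mem_closedBall_zero_iff]
  by_contra hc
  push Not at hc
  refine hξ ?_
  unfold bm
  have h1 : 1 - (R ^ 2)⁻¹ * ‖ξ‖ ^ 2 ≤ 0 := by
    have : R ^ 2 ≤ ‖ξ‖ ^ 2 := by gcongr
    rw [sub_nonpos, ← div_eq_inv_mul, one_le_div (by positivity)]
    exact this
  rw [max_eq_right h1, Real.zero_rpow hδ.ne']; simp

theorem bm_int {n : ℕ} {δ : ℝ} (hδ : 0 < δ) {R : ℝ} (hR : 0 < R) :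
    Integrable (bm (n := n) δ R) :=
  (bm_cont hδ R).integrable_of_hasCompactSupport (bm_comp hδ hR)

theorem KR_cont {n : ℕ} {δ : ℝ} (hδ : 0 < δ) {R : ℝ} (hR : 0 < R) :
    Continuous (KR (n := n) δ R) := four_cont (bm_int hδ hR)

theorem piece_holder {n : ℕ} {ψ : ℝ → ℝ} (hψ : Bump ψ) {A R : ℝ} (hA : 0 < A) (hR : 0 < R)
    (hR2 : R ≤ 2) {p q : ℝ} (hpq : p.HolderConjugate q) {f : E n → ℂ} (hf : Measurable f) (x : E n) :
    ∫⁻ y, ‖Kr ψ A R (x - y) * f y‖ₑ ≤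
      (∫⁻ w : E n, ‖Kr ψ A R w‖ₑ ^ q) ^ (1 / q) * (∫⁻ y, ‖f y‖ₑ ^ p) ^ (1 / p) := by
  have hKm : Measurable (Kr (n := n) ψ A R) := (Kr_cont hψ hA hR hR2).measurable
  have h := ENNReal.lintegral_mul_le_Lp_mul_Lq (volume : Measure (E n)) hpq.symm
    (f := fun y => ‖Kr ψ A R (x - y)‖ₑ) (g := fun y => ‖f y‖ₑ)
    (hKm.comp (measurable_const.sub measurable_id)).enorm.aemeasurable hf.enorm.aemeasurable
  have e1 : ∫⁻ y : E n, ‖Kr ψ A R (x - y)‖ₑ ^ q = ∫⁻ w : E n, ‖Kr ψ A R w‖ₑ ^ q :=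
    lintegral_sub_left_eq_self (fun w => ‖Kr ψ A R w‖ₑ ^ q) x
  rw [e1] at h
  refine (le_of_eq ?_).trans h
  refine lintegral_congr fun y => ?_
  rw [enorm_mul]; rfl

theorem SR_sum (n : ℕ) (hn : 2 ≤ n) (δ : ℝ) (hδ : 0 < δ) {ψ : ℝ → ℝ} (hψ : Bump ψ)
    (hd : Dec δ ψ) (p : ℝ) (hp1 : 1 < p) (hp : p ≤ 2 * (n : ℝ) / ((n : ℝ) - 1)) (R : ℝ)
    (hR1 : 1 ≤ R) (hR2 : R ≤ 2) (f : E n → ℂ) (hf : Measurable f) (hfp : ∫⁻ x, ‖f x‖ₑ ^ p ≠ ∞)
    (x : E n) : Integrable (fun y => KR δ R (x - y) * f y) ∧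
      HasSum (fun j : ℕ => (((2 : ℝ) ^ (-(δ * j)) : ℝ) : ℂ) * Tp ψ (2 ^ j) R f x) (SR δ R f x) := by
  have hn2 : (2 : ℝ) ≤ n := by exact_mod_cast hn
  have hR0 : 0 < R := by linarith
  set q : ℝ := p / (p - 1) with hq
  have hpq : p.HolderConjugate q := Real.HolderConjugate.conjExponent hp1
  have hq0 : 0 < q := hpq.symm.pos
  have hqn : 2 * (n : ℝ) / ((n : ℝ) + 1) ≤ q := by
    rw [hq, div_le_div_iff₀ (by linarith) (by linarith)]
    rw [le_div_iff₀ (by linarith)] at hp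
    nlinarith
  obtain ⟨C, hC, hb⟩ := Kr_Lq n hn hψ q hqn (δ * q / 2) (by positivity)
  have h2 : ∀ j : ℕ, 0 ≤ (2 : ℝ) ^ (-(δ * j)) := fun j => Real.rpow_nonneg (by norm_num) _
  set N : ℝ := ((∫⁻ y, ‖f y‖ₑ ^ p) ^ (1 / p)).toReal with hN
  have hNe : (∫⁻ y, ‖f y‖ₑ ^ p) ^ (1 / p) = ENNReal.ofReal N := by
    rw [hN, ENNReal.ofReal_toReal]
    exact ENNReal.rpow_ne_top_of_nonneg (by positivity) hfp
  have hN0 : 0 ≤ N := ENNReal.toReal_nonneg
  set F : ℕ → E n → ℂ := fun j y => (((2 : ℝ) ^ (-(δ * j)) : ℝ) : ℂ) *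
    (Kr ψ (2 ^ j) R (x - y) * f y) with hF
  have hA1 : ∀ j : ℕ, (1 : ℝ) ≤ 2 ^ j := fun j => one_le_pow₀ (by norm_num)
  have hFm : ∀ j, Measurable (F j) := fun j => measurable_const.mul
    (((Kr_cont hψ (by positivity) hR0 hR2).measurable.comp
      (measurable_const.sub measurable_id)).mul hf)
  have hFe : ∀ j, ∫⁻ y, ‖F j y‖ₑ ≤ ENNReal.ofReal (C ^ (1 / q) * N * (2 : ℝ) ^ (-(δ / 2 * j))) := by
    intro j
    have e1 : ∀ y, ‖F j y‖ₑ = ENNReal.ofReal ((2 : ℝ) ^ (-(δ * j))) *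
        ‖Kr ψ (2 ^ j) R (x - y) * f y‖ₑ := by
      intro y
      simp only [hF]
      rw [enorm_mul, ← ofReal_norm, Complex.norm_real, Real.norm_of_nonneg (h2 j)]
    simp only [e1]
    rw [lintegral_const_mul' _ _ ENNReal.ofReal_ne_top]
    refine (mul_le_mul' le_rfl (piece_holder hψ (by positivity) hR0 hR2 hpq hf x)).trans ?_
    refine (mul_le_mul' le_rfl (mul_le_mul' (ENNReal.rpow_le_rpow (hb (2 ^ j) R (hA1 j) hR1 hR2)
      (by positivity)) le_rfl)).trans ?_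
    rw [hNe, ENNReal.ofReal_rpow_of_nonneg (by positivity) (by positivity),
      ← ENNReal.ofReal_mul (by positivity), ← ENNReal.ofReal_mul (by positivity)]
    refine ENNReal.ofReal_le_ofReal (le_of_eq ?_)
    rw [Real.mul_rpow hC.le (by positivity), ← Real.rpow_natCast 2 j, ← Real.rpow_mul (by norm_num),
      ← Real.rpow_mul (by norm_num)]
    have e2 : (j : ℝ) * (δ * q / 2 * (1 / q)) = δ / 2 * j := by field_simp
    rw [e2]
    have e3 : (2 : ℝ) ^ (-(δ * j)) * 2 ^ (δ / 2 * (j : ℝ)) = 2 ^ (-(δ / 2 * (j : ℝ))) := by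
      rw [← Real.rpow_add (by norm_num)]; congr 1; ring
    rw [← e3]; ring
  have hFi : ∀ j, Integrable (F j) := fun j =>
    ⟨(hFm j).aestronglyMeasurable, (hFe j).trans_lt ENNReal.ofReal_lt_top⟩
  have hgeo := (geo_sum (δ / 2) (by linarith)).mul_left (C ^ (1 / q) * N)
  have hFn : ∀ j, ∫ y, ‖F j y‖ ≤ C ^ (1 / q) * N * (2 : ℝ) ^ (-(δ / 2 * j)) := by
    intro j
    rw [integral_norm_eq_lintegral_enorm (hFm j).aestronglyMeasurable]
    exact ENNReal.toReal_le_of_le_ofReal (by positivity) (hFe j)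
  have hs := hasSum_integral_of_summable_integral_norm (μ := (volume : Measure (E n)))
    (F := F) hFi (Summable.of_nonneg_of_le (fun j => integral_nonneg fun ξ => norm_nonneg _) hFn
      hgeo)
  have hsum : ∀ y, HasSum (fun j => F j y) (KR δ R (x - y) * f y) := by
    intro y
    have h := (KR_sum n δ hδ hψ hd R hR0 hR2 (x - y)).mul_right (f y)
    have e : (fun j : ℕ => F j y) = fun j : ℕ =>
        (((2 : ℝ) ^ (-(δ * j)) : ℝ) : ℂ) * Kr ψ (2 ^ j) R (x - y) * f y := by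
      funext j; simp only [hF]; ring
    rw [e]; exact h
  constructor
  · refine ⟨(((KR_cont hδ hR0).measurable.comp (measurable_const.sub measurable_id)).mul
      hf).aestronglyMeasurable, ?_⟩
    have h1 : ∫⁻ y, ‖KR δ R (x - y) * f y‖ₑ ≤ ∫⁻ y, ∑' j, ‖F j y‖ₑ := by
      refine lintegral_mono fun y => ?_
      rw [← (hsum y).tsum_eq]
      exact enorm_tsum_le_tsum_enorm
    rw [lintegral_tsum fun j => (hFm j).enorm.aemeasurable] at h1
    refine lt_of_le_of_lt (h1.trans (ENNReal.tsum_le_tsum hFe)) ?_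
    rw [← ENNReal.ofReal_tsum_of_nonneg (fun j => by positivity) hgeo]
    exact ENNReal.ofReal_lt_top
  · have e1 : (∫ y : E n, ∑' j : ℕ, F j y) = SR δ R f x := by
      unfold SR
      congr 1; funext y
      exact (hsum y).tsum_eq
    rw [e1] at hs
    have e : (fun j : ℕ => (((2 : ℝ) ^ (-(δ * j)) : ℝ) : ℂ) * Tp ψ (2 ^ j) R f x) =
        fun j : ℕ => ∫ y, F j y := by
      funext j
      simp only [hF]
      rw [integral_const_mul]
      rfl
    rw [e]; exact hs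

/-- each piece is bounded on `L^p` -/
theorem Tp_Lp (n : ℕ) {ψ : ℝ → ℝ} (hψ : Bump ψ) (A R : ℝ) (hA : 1 ≤ A) (hR1 : 1 ≤ R)
    (hR2 : R ≤ 2) (p : ℝ) (hp : 1 ≤ p) (f : E n → ℂ) (hf : Measurable f)
    (hfp : ∫⁻ x, ‖f x‖ₑ ^ p ≠ ∞) : ∫⁻ x, ‖Tp ψ A R f x‖ₑ ^ p ≠ ∞ := by
  have hKm : Measurable (Kr (n := n) ψ A R) :=
    (Kr_cont hψ (by linarith) (by linarith) hR2).measurable
  obtain ⟨C, hC, hb⟩ := Kr_crude n hψ
  have hKi : ∫⁻ w : E n, ‖Kr ψ A R w‖ₑ ≠ ∞ := by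
    have h1 : Integrable (Kr (n := n) ψ A R) := by
      refine (Jw_int.const_mul (C * A ^ (n + 1))).mono' hKm.aestronglyMeasurable
        (Eventually.of_forall fun w => hb A R hA hR1 hR2 w)
    exact h1.hasFiniteIntegral.ne
  have h1 : ∀ x, ‖Tp ψ A R f x‖ₑ ≤ ∫⁻ y : E n, ‖Kr ψ A R (x - y)‖ₑ * ‖f y‖ₑ := by
    intro x
    refine (enorm_integral_le_lintegral_enorm _).trans (lintegral_mono fun y => ?_)
    rw [enorm_mul]
  have h2 := Pool.Agent.H438R2.RZ.R8aux.young (n := n) (fun w => ‖Kr ψ A R w‖ₑ) (fun y => ‖f y‖ₑ)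
    hKm.enorm hf.enorm p hp
  refine ne_top_of_le_ne_top ?_ ((lintegral_mono fun x =>
    ENNReal.rpow_le_rpow (h1 x) (by linarith)).trans h2)
  exact ENNReal.mul_ne_top (ENNReal.rpow_ne_top_of_nonneg (by linarith) hKi) hfp

theorem SR_Lp (n : ℕ) (hn : 2 ≤ n) (δ δ' : ℝ) (hδ' : δ' < δ) (hδ'0 : 0 < δ') {ψ : ℝ → ℝ}
    (hψ : Bump ψ) (hd : Dec δ ψ) (p : ℝ) (hp1 : 1 < p) (hp : p ≤ 2 * (n : ℝ) / ((n : ℝ) - 1)) (R : ℝ)
    (hR1 : 1 ≤ R) (hR2 : R ≤ 2) (f : E n → ℂ) (hf : Measurable f) (hfp : ∫⁻ x, ‖f x‖ₑ ^ p ≠ ∞)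
    (J : ℕ) (hJ : ∀ j, J ≤ j → ∫⁻ x, ‖Tp ψ (2 ^ j) R f x‖ₑ ^ p ≤
      ENNReal.ofReal (((2 : ℝ) ^ j) ^ (p * δ')) * ∫⁻ x, ‖f x‖ₑ ^ p) :
    MemLp (SR δ R f) (ENNReal.ofReal p) := by
  have hδ : 0 < δ := by linarith
  have hR0 : 0 < R := by linarith
  have hp0 : 0 < p := by linarith
  have h0 : ENNReal.ofReal p ≠ 0 := by
    rw [Ne, ENNReal.ofReal_eq_zero]; linarith
  have hp1' : 1 ≤ ENNReal.ofReal p := by
    rw [← ENNReal.ofReal_one]; exact ENNReal.ofReal_le_ofReal hp1.le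
  have hA1 : ∀ j : ℕ, (1 : ℝ) ≤ 2 ^ j := fun j => one_le_pow₀ (by norm_num)
  have hTm : ∀ j : ℕ, Measurable (Tp ψ (2 ^ j) R f) := fun j =>
    Tp_meas hψ (by positivity) hR0 hR2 hf
  have h2n : ∀ j : ℕ, 0 ≤ (2 : ℝ) ^ (-(δ * j)) := fun j => Real.rpow_nonneg (by norm_num) _
  -- norms of the pieces
  have hN : ∀ j : ℕ, eLpNorm (Tp ψ (2 ^ j) R f) (ENNReal.ofReal p) volume =
      (∫⁻ x, ‖Tp ψ (2 ^ j) R f x‖ₑ ^ p) ^ (1 / p) := fun j => by
    rw [eLpNorm_eq_lintegral_rpow_enorm_toReal h0 ENNReal.ofReal_ne_top,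
      ENNReal.toReal_ofReal hp0.le]
  set a : ℕ → ℝ≥0∞ := fun j => eLpNorm (Tp ψ (2 ^ j) R f) (ENNReal.ofReal p) volume with ha
  have haf : ∀ j, a j ≠ ∞ := fun j => by
    simp only [ha]
    rw [hN]
    exact ENNReal.rpow_ne_top_of_nonneg (by positivity)
      (Tp_Lp n hψ _ R (hA1 j) hR1 hR2 p hp1.le f hf hfp)
  set B : ℝ≥0∞ := (∫⁻ x, ‖f x‖ₑ ^ p) ^ (1 / p) + ∑ j ∈ Finset.range J, a j with hB
  have hBf : B ≠ ∞ := by
    refine ENNReal.add_ne_top.2 ⟨ENNReal.rpow_ne_top_of_nonneg (by positivity) hfp, ?_⟩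
    exact ENNReal.sum_ne_top.2 fun j _ => haf j
  have hab : ∀ j, a j ≤ ENNReal.ofReal ((2 : ℝ) ^ (δ' * j)) * B := by
    intro j
    have h1 : 1 ≤ ENNReal.ofReal ((2 : ℝ) ^ (δ' * j)) := by
      rw [← ENNReal.ofReal_one]
      exact ENNReal.ofReal_le_ofReal (Real.one_le_rpow (by norm_num) (by positivity))
    by_cases hj : J ≤ j
    · simp only [ha]
      rw [hN]
      refine (ENNReal.rpow_le_rpow (hJ j hj) (by positivity)).trans ?_
      rw [ENNReal.mul_rpow_of_nonneg _ _ (by positivity),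
        ENNReal.ofReal_rpow_of_nonneg (by positivity) (by positivity), ← Real.rpow_mul
        (by positivity), ← Real.rpow_natCast 2 j, ← Real.rpow_mul (by norm_num),
        show (j : ℝ) * (p * δ' * (1 / p)) = δ' * j by field_simp]
      gcongr
      exact le_self_add
    · push Not at hj
      calc a j ≤ ∑ i ∈ Finset.range J, a i :=
            Finset.single_le_sum (f := a) (fun i _ => zero_le) (Finset.mem_range.2 hj)
        _ ≤ B := le_add_self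
        _ ≤ _ := by
            calc B = 1 * B := (one_mul _).symm
              _ ≤ _ := by gcongr
  set P : ℕ → E n → ℂ := fun J x => ∑ j ∈ Finset.range J,
    (((2 : ℝ) ^ (-(δ * j)) : ℝ) : ℂ) * Tp ψ (2 ^ j) R f x with hP
  have hPm : ∀ J, AEStronglyMeasurable (P J) volume := by
    intro J
    have : Measurable (P J) := by
      rw [hP]
      exact Finset.measurable_sum _ fun j _ => measurable_const.mul (hTm j)
    exact this.aestronglyMeasurable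
  have hPlim : ∀ x, Tendsto (fun J => P J x) atTop (𝓝 (SR δ R f x)) := fun x =>
    (SR_sum n hn δ hδ hψ hd p hp1 hp R hR1 hR2 f hf hfp x).2.tendsto_sum_nat
  have hlim := Lp.eLpNorm_lim_le_liminf_eLpNorm (p := ENNReal.ofReal p) hPm _
    (Filter.Eventually.of_forall hPlim)
  have hmeas : AEStronglyMeasurable (SR δ R f) volume :=
    aestronglyMeasurable_of_tendsto_ae atTop hPm (Filter.Eventually.of_forall hPlim)
  refine ⟨hmeas, hlim.trans_lt ?_⟩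
  have hgeo := geo_sum (δ - δ') (by linarith)
  have hfin : B * ∑' j : ℕ, ENNReal.ofReal ((2 : ℝ) ^ (-((δ - δ') * j))) < ∞ := by
    refine ENNReal.mul_lt_top hBf.lt_top ?_
    rw [← ENNReal.ofReal_tsum_of_nonneg (fun j => by positivity) hgeo]
    exact ENNReal.ofReal_lt_top
  refine lt_of_le_of_lt ?_ hfin
  refine liminf_le_of_le (by isBoundedDefault) ?_
  intro b hb'
  obtain ⟨J', hJ'⟩ := hb'.exists
  refine hJ'.trans ?_
  calc eLpNorm (P J') (ENNReal.ofReal p) volume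
      ≤ ∑ j ∈ Finset.range J', eLpNorm (fun x => (((2 : ℝ) ^ (-(δ * j)) : ℝ) : ℂ) *
          Tp ψ (2 ^ j) R f x) (ENNReal.ofReal p) volume := by
        have h := eLpNorm_sum_le (μ := (volume : Measure (E n))) (p := ENNReal.ofReal p)
          (f := fun (j : ℕ) (x : E n) => (((2 : ℝ) ^ (-(δ * j)) : ℝ) : ℂ) *
          Tp ψ (2 ^ j) R f x) (s := Finset.range J')
          (fun j _ => (measurable_const.mul (hTm j)).aestronglyMeasurable) hp1'
        have e2 : (∑ j ∈ Finset.range J', fun (x : E n) => (((2 : ℝ) ^ (-(δ * j)) : ℝ) : ℂ) *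
          Tp ψ (2 ^ j) R f x) = P J' := by
          funext x; rw [Finset.sum_apply]
        rw [e2] at h
        exact h
    _ ≤ ∑ j ∈ Finset.range J', B * ENNReal.ofReal ((2 : ℝ) ^ (-((δ - δ') * j))) := by
        refine Finset.sum_le_sum fun j _ => ?_
        have h := eLpNorm_const_smul (((2 : ℝ) ^ (-(δ * j)) : ℝ) : ℂ)
          (Tp ψ (2 ^ j) R f) (ENNReal.ofReal p) (volume : Measure (E n))
        have e3 : ‖(((2 : ℝ) ^ (-(δ * j)) : ℝ) : ℂ)‖ₑ = ENNReal.ofReal ((2 : ℝ) ^ (-(δ * j))) := by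
          rw [← ofReal_norm, Complex.norm_real, Real.norm_of_nonneg (h2n j)]
        rw [e3] at h
        refine (le_of_eq h).trans ((mul_le_mul' le_rfl (hab j)).trans (le_of_eq ?_))
        rw [← mul_assoc, ← ENNReal.ofReal_mul (h2n j), mul_comm B]
        congr 2
        rw [← Real.rpow_add (by norm_num)]; congr 1; ring
    _ = B * ∑ j ∈ Finset.range J', ENNReal.ofReal ((2 : ℝ) ^ (-((δ - δ') * j))) := by
        rw [Finset.mul_sum]
    _ ≤ _ := by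
        gcongr
        exact ENNReal.sum_le_tsum _

end Pool.Agent.Y248.BA
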