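import Mathlib
import Pool.Agent.Y248.BA.Sum2
import Pool.Agent.Y248.BA.Count
import Pool.Agent.Y248.BA.Dim
set_option autoImplicit false

/-! # Exceptional radii in `[1,2]` -/

namespace Pool.Agent.Y248.BA

open MeasureTheory Set Metric Complex Filter
open scoped ENNReal NNReal RealInnerProductSpace Topology FourierTransform
open Pool.Agent.H789R2.FR (E sg T sg_finite polar)
open Pool.Agent.H438R2.RZ (Bump)

/-- counting bound for the radii of large norm -/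
def CountHyp (n : ℕ) (ψ : ℝ → ℝ) (p δ η : ℝ) : Prop :=
  ∃ δ' : ℝ, 0 < δ' ∧ δ' < δ ∧ ∃ C : ℝ, 0 < C ∧ ∃ L0 : ℝ, 8 ≤ L0 ∧ ∀ A : ℝ, L0 ≤ A →
    ∀ (K : Finset ℕ) (R : ℕ → ℝ), Rad A K R → ∀ f : E n → ℂ, Measurable f →
      ∫⁻ x, ‖f x‖ₑ ^ p ≠ ∞ →
      (∀ k ∈ K, ENNReal.ofReal (A ^ (p * δ')) * ∫⁻ x, ‖f x‖ₑ ^ p <
        ∫⁻ x, ‖Tp ψ A (R k) f x‖ₑ ^ p) → (K.card : ℝ) ≤ C * A ^ η

theorem dim_unit (n : ℕ) (hn : 2 ≤ n) (δ : ℝ) {ψ : ℝ → ℝ} (hψ : Bump ψ)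
    (hd : Dec δ ψ) (p : ℝ) (hp1 : 1 < p) (hp : p ≤ 2 * (n : ℝ) / ((n : ℝ) - 1)) (tgt : ℝ)
    (H : ∀ η, tgt < η → CountHyp n ψ p δ η) (f : E n → ℂ) (hf : Measurable f)
    (hfp : ∫⁻ x, ‖f x‖ₑ ^ p ≠ ∞) :
    dimH {R : ℝ | 1 ≤ R ∧ R ≤ 2 ∧ ¬ MemLp (SR δ R f) (ENNReal.ofReal p)} ≤ ENNReal.ofReal tgt := by
  refine ENNReal.le_of_forall_pos_le_add fun ε hε _ => ?_
  have hε' : (0 : ℝ) < ε := hε
  set t0 : ℝ := max tgt 0 with ht0
  have h0 : 0 ≤ t0 := le_max_right _ _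
  obtain ⟨δ', hδ'0, hδ'1, C, hC, L0, hL0, hcount⟩ := H (t0 + ε / 2)
    (lt_of_le_of_lt (le_max_left tgt 0) (by linarith))
  obtain ⟨J0, hJ0⟩ := pow_unbounded_of_one_lt L0 (by norm_num : (1 : ℝ) < 2)
  have hJL : ∀ j, J0 ≤ j → L0 ≤ (2 : ℝ) ^ j := fun j hj =>
    hJ0.le.trans (pow_le_pow_right₀ (by norm_num) hj)
  set N : ℝ≥0∞ := ∫⁻ x, ‖f x‖ₑ ^ p with hN
  set Bad : ℕ → Set ℝ := fun j => {R | 1 ≤ R ∧ R ≤ 2 ∧
    ENNReal.ofReal (((2 : ℝ) ^ j) ^ (p * δ')) * N < ∫⁻ x, ‖Tp ψ (2 ^ j) R f x‖ₑ ^ p} with hBad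
  set t : ℕ → ℕ → Set ℝ := fun j k => Icc (1 + (k : ℝ) / 2 ^ j) (1 + ((k : ℝ) + 1) / 2 ^ j) with ht
  classical
  set K : ℕ → Finset ℕ := fun j => (Finset.range (2 ^ j + 1)).filter
    fun k => (Bad j ∩ t j k).Nonempty with hK
  have hdim := dim_limsup {R : ℝ | 1 ≤ R ∧ R ≤ 2 ∧ ¬ MemLp (SR δ R f) (ENNReal.ofReal p)} t K C
    (t0 + ε / 2) (t0 + ε) hC.le (by linarith) (by linarith) J0 ?_ ?_ ?_
  · refine hdim.trans ?_
    rw [ENNReal.ofReal_add h0 hε'.le, ht0]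
    refine add_le_add (le_of_eq ?_) (le_of_eq (ENNReal.ofReal_coe_nnreal))
    rcases le_total tgt 0 with h | h
    · rw [max_eq_right h, ENNReal.ofReal_zero, ENNReal.ofReal_of_nonpos h]
    · rw [max_eq_left h]
  · rintro R ⟨hR1, hR2, hRn⟩ J
    by_contra hcon
    push Not at hcon
    refine hRn (SR_Lp n hn δ δ' hδ'1 hδ'0 hψ hd p hp1 hp R hR1 hR2 f hf hfp J fun j hj => ?_)
    by_contra hbad
    push Not at hbad
    have hB : R ∈ Bad j := ⟨hR1, hR2, hbad⟩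
    have h2j : (0 : ℝ) < 2 ^ j := by positivity
    set k : ℕ := ⌊(R - 1) * 2 ^ j⌋₊ with hk
    have hnn : 0 ≤ (R - 1) * 2 ^ j := mul_nonneg (by linarith) h2j.le
    have hk1 : (k : ℝ) ≤ (R - 1) * 2 ^ j := Nat.floor_le hnn
    have hk2 : (R - 1) * 2 ^ j < k + 1 := Nat.lt_floor_add_one _
    have hkt : R ∈ t j k := by
      refine ⟨?_, ?_⟩
      · rw [← le_sub_iff_add_le', div_le_iff₀ h2j]; exact hk1
      · rw [← sub_le_iff_le_add', le_div_iff₀ h2j]; exact hk2.le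
    have hkK : k ∈ K j := by
      simp only [hK, Finset.mem_filter, Finset.mem_range]
      refine ⟨?_, R, hB, hkt⟩
      have h3 : (k : ℝ) ≤ 2 ^ j := by nlinarith
      have h4 : k ≤ 2 ^ j := by exact_mod_cast h3
      omega
    exact hcon j hj k hkK hkt
  · intro j _ k _
    simp only [ht]
    rw [Real.ediam_Icc]
    refine ENNReal.ofReal_le_ofReal (le_of_eq ?_)
    rw [Real.rpow_neg (by norm_num), Real.rpow_natCast]
    field_simp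
    ring
  · intro j hj
    have hne : ∀ k ∈ K j, (Bad j ∩ t j k).Nonempty := fun k hk => (Finset.mem_filter.1 hk).2
    set R : ℕ → ℝ := fun k => if h : (Bad j ∩ t j k).Nonempty then h.some else 1 with hR
    have hRs : ∀ k ∈ K j, R k ∈ Bad j ∩ t j k := by
      intro k hk
      simp only [hR]
      rw [dif_pos (hne k hk)]
      exact (hne k hk).some_mem
    have hRad : Rad ((2 : ℝ) ^ j) (K j) R :=
      ⟨fun k hk => (hRs k hk).2.1, fun k hk => (hRs k hk).2.2, fun k hk => (hRs k hk).1.2.1⟩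
    have h1 := hcount ((2 : ℝ) ^ j) (hJL j hj) (K j) R hRad f hf hfp
      fun k hk => (hRs k hk).1.2.2
    rwa [← Real.rpow_natCast 2 j, ← Real.rpow_mul (by norm_num)] at h1

end Pool.Agent.Y248.BA
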