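import Mathlib
import Pool.Agent.Y248.BA.Unit
set_option autoImplicit false

/-! # Exceptional radii: all radii -/

namespace Pool.Agent.Y248.BA

open MeasureTheory Set Metric Complex Filter
open scoped ENNReal NNReal RealInnerProductSpace Topology FourierTransform
open Pool.Agent.H789R2.FR (E sg T sg_finite polar)
open Pool.Agent.H438R2.RZ (Bump)

/-- local bound at `p = 2` -/
theorem loc_two (n : ℕ) {ψ : ℝ → ℝ} (hψ : Bump ψ) : ∃ C : ℝ, 0 < C ∧ ∀ A : ℝ, 8 ≤ A →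
    ∀ (K : Finset ℕ) (R : ℕ → ℝ), Rad A K R → ∀ ρ : ℝ, 0 < ρ → ∀ u : E n, ∀ g : E n → ℂ,
    Measurable g → (∀ x, x ∉ closedBall u (2 * ρ) → g x = 0) → ∫⁻ x, ‖g x‖ₑ ^ (2 : ℝ) ≠ ∞ →
    ∑ k ∈ K, ∫⁻ x in closedBall u ρ, ‖Tp ψ A (R k) g x‖ₑ ^ (2 : ℝ) ≤
      ENNReal.ofReal C * ∫⁻ x, ‖g x‖ₑ ^ (2 : ℝ) := by
  obtain ⟨M, hM, hMb⟩ := mu_bdd hψ
  refine ⟨6 * M ^ 2, by positivity, fun A hA K R hR ρ hρ u g hg hgs hgp => ?_⟩
  have hA0 : 0 < A := by linarith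
  have hgi := int_of_loc hg hgs 2 (by norm_num) hgp
  have hg2 := memLp_two hg hgp
  refine (Finset.sum_le_sum fun k hk => ?_).trans (bessel hψ hM.le (hMb n) hA hR hgi hg2)
  have hR1 := hR.one hA0 hk
  have hR2 := hR.two k hk
  rw [Tp_eq hψ hA0 (by linarith) hR2 hgi]
  refine (setLIntegral_le_lintegral _ _).trans (le_of_eq ?_)
  exact planch (Fk_int hψ hA0 (by linarith) hR2 hgi) (Fk_two hψ hA0 (by linarith) hR2 hgi)

theorem count_two (n : ℕ) {ψ : ℝ → ℝ} (hψ : Bump ψ) (δ : ℝ) (hδ : 0 < δ) (η : ℝ)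
    (hη : -(2 * δ) < η) : CountHyp n ψ 2 δ η := by
  set δ' : ℝ := max (δ / 2) (-(η / 2)) with hδ'
  have hδ'0 : 0 < δ' := lt_of_lt_of_le (by linarith) (le_max_left _ _)
  have hδ'1 : δ' < δ := max_lt (by linarith) (by linarith)
  have hδ'2 : -(2 * δ') ≤ η := by
    have := le_max_right (δ / 2) (-(η / 2))
    linarith
  obtain ⟨D, hD, hloc⟩ := loc_two n hψ
  obtain ⟨C1, hC1, hglob⟩ := glob n hψ 2 (by norm_num) 1 one_pos
  set c : ℝ := 2 ^ ((2 : ℝ) - 1) * C1 with hc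
  have hc0 : 0 < c := by positivity
  refine ⟨δ', hδ'0, hδ'1, 2 * (2 ^ ((2 : ℝ) - 1) * (2 ^ n * D)), by positivity,
    max 8 ((2 * c) ^ (1 / (2 * δ'))), le_max_left _ _, fun A hA K R hR f hf hfp hbad => ?_⟩
  have hA8 : 8 ≤ A := (le_max_left _ _).trans hA
  have hA0 : 0 < A := by linarith
  have hpδ : 0 < 2 * δ' := by positivity
  have hLc : 2 * c ≤ A ^ (2 * δ') := by
    have h1 := (le_max_right 8 ((2 * c) ^ (1 / (2 * δ')))).trans hA
    have h2 := Real.rpow_le_rpow (by positivity) h1 hpδ.le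
    rwa [← Real.rpow_mul (by positivity), one_div, inv_mul_cancel₀ hpδ.ne', Real.rpow_one] at h2
  have h1 := hglob A hA8 K R hR D hD.le (fun u g' hg' hgs hgp =>
    hloc A hA8 K R hR (A ^ (1 + (1 : ℝ))) (by positivity) u g' hg' hgs hgp) f hf hfp
  have h2 := count_gen K (fun k => ∫⁻ x, ‖Tp ψ A (R k) f x‖ₑ ^ (2 : ℝ)) (∫⁻ x, ‖f x‖ₑ ^ (2 : ℝ))
    (A ^ (2 * δ')) (2 ^ ((2 : ℝ) - 1) * (2 ^ n * D)) c (by positivity) hLc (by
      refine h1.trans (le_of_eq ?_)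
      congr 2; rw [hc]; ring) hbad
  have hAp : 0 < A ^ (2 * δ') := by positivity
  rw [← le_div_iff₀ hAp, div_eq_mul_inv, ← Real.rpow_neg hA0.le] at h2
  refine h2.trans (mul_le_mul_of_nonneg_left ?_ (by positivity))
  exact Real.rpow_le_rpow_of_exponent_le (by linarith) hδ'2

/-- the exponent bounding the dimension of the exceptional set -/
noncomputable def tgt (n : ℕ) (p δ : ℝ) : ℝ :=
  if 2 ≤ p then ((n : ℝ) - 1) * (p - 2) / 4 - p * δ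
  else (((n : ℝ) - 1) * (1 / p - 1 / 2) - 2 * δ) / (1 - ((n : ℝ) + 1) * (1 / p - 1 / 2))

theorem count_all (n : ℕ) (hn : 2 ≤ n) {ψ : ℝ → ℝ} (hψ : Bump ψ) (δ : ℝ) (hδ : 0 < δ) (p : ℝ)
    (hp1 : 2 * (n : ℝ) / ((n : ℝ) + 1) ≤ p) (hp2 : p ≤ 2 * (n : ℝ) / ((n : ℝ) - 1)) (η : ℝ)
    (hη : tgt n p δ < η) : CountHyp n ψ p δ η := by
  have hn2 : (2 : ℝ) ≤ n := by exact_mod_cast hn
  unfold tgt at hη
  rcases lt_trichotomy p 2 with h | h | h
  · rw [if_neg (not_le.mpr h)] at hη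
    exact count_small n hn hψ p h hp1 δ hδ η hη
  · subst h
    rw [if_pos le_rfl] at hη
    exact count_two n hψ δ hδ η (by linarith)
  · rw [if_pos h.le] at hη
    refine count_big n hn hψ p h (lt_of_le_of_lt hp2 ?_) δ hδ η hη
    rw [div_lt_div_iff_of_pos_right (by linarith)]
    linarith

theorem dim_one (n : ℕ) (hn : 2 ≤ n) (δ : ℝ) (hδ : 0 < δ) (p : ℝ)
    (hp1 : 2 * (n : ℝ) / ((n : ℝ) + 1) ≤ p) (hp2 : p ≤ 2 * (n : ℝ) / ((n : ℝ) - 1))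
    (f : E n → ℂ) (hf : Measurable f) (hfp : ∫⁻ x, ‖f x‖ₑ ^ p ≠ ∞) :
    dimH {R : ℝ | 1 ≤ R ∧ R ≤ 2 ∧ ¬ MemLp (SR δ R f) (ENNReal.ofReal p)} ≤
      ENNReal.ofReal (tgt n p δ) := by
  have hn2 : (2 : ℝ) ≤ n := by exact_mod_cast hn
  have h1p : 1 < p := by
    refine lt_of_lt_of_le ?_ hp1
    rw [lt_div_iff₀ (by linarith)]; linarith
  obtain ⟨ψ, hψ, hd⟩ := Pool.Agent.H438R2.RZ.decomp δ hδ
  exact dim_unit n hn δ hψ hd p h1p hp2 _ (fun η hη => count_all n hn hψ δ hδ p hp1 hp2 η hη) f hf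
    hfp

/-! ### scaling -/

/-- the Bochner-Riesz kernel -/
noncomputable def kernel (n : ℕ) (δ : ℝ) : E n → ℂ :=
  𝓕 (fun ξ : E n => (((max (1 - ‖ξ‖ ^ 2) 0) ^ δ : ℝ) : ℂ))

theorem KR_eq {n : ℕ} (δ : ℝ) {R : ℝ} (hR : 0 < R) (w : E n) :
    KR δ R w = ((R ^ n : ℝ) : ℂ) * kernel n δ (R • w) := by
  unfold KR kernel
  rw [four_eq, four_eq]
  have h := Measure.integral_comp_smul (volume : Measure (E n))
    (fun ξ : E n => cexp (((-2 * Real.pi * ⟪ξ, R • w⟫ : ℝ) : ℂ) * I) *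
      (((max (1 - ‖ξ‖ ^ 2) 0) ^ δ : ℝ) : ℂ)) R⁻¹
  have e1 : ∀ ξ : E n, cexp (((-2 * Real.pi * ⟪R⁻¹ • ξ, R • w⟫ : ℝ) : ℂ) * I) *
      (((max (1 - ‖R⁻¹ • ξ‖ ^ 2) 0) ^ δ : ℝ) : ℂ) =
      cexp (((-2 * Real.pi * ⟪ξ, w⟫ : ℝ) : ℂ) * I) * bm δ R ξ := by
    intro ξ
    unfold bm
    rw [real_inner_smul_left, real_inner_smul_right, ← mul_assoc R⁻¹ R, inv_mul_cancel₀ hR.ne',
      one_mul, norm_smul, mul_pow, norm_inv, Real.norm_of_nonneg hR.le, inv_pow]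
  simp only [e1] at h
  rw [h, finrank_euclideanSpace_fin, inv_pow, inv_inv, abs_of_pos (by positivity)]
  rw [Complex.real_smul]

theorem KR_scale {n : ℕ} (δ : ℝ) {c R : ℝ} (hc : 0 < c) (hR : 0 < R) (w : E n) :
    KR δ (c * R) w = ((c ^ n : ℝ) : ℂ) * KR δ R (c • w) := by
  rw [KR_eq δ (mul_pos hc hR), KR_eq δ hR, smul_smul, mul_pow, mul_comm R c]
  push_cast; ring

theorem SR_scale {n : ℕ} (δ : ℝ) {c R : ℝ} (hc : 0 < c) (hR : 0 < R) (f : E n → ℂ) (x : E n) :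
    SR δ (c * R) f x = SR δ R (fun y => f (c⁻¹ • y)) (c • x) := by
  unfold SR
  have h := Measure.integral_comp_smul (volume : Measure (E n))
    (fun z : E n => KR δ R (c • x - z) * f (c⁻¹ • z)) c
  have e1 : ∀ y : E n, KR δ (c * R) (x - y) * f y =
      ((c ^ n : ℝ) : ℂ) * (KR δ R (c • x - c • y) * f (c⁻¹ • (c • y))) := by
    intro y
    rw [KR_scale δ hc hR, smul_sub, smul_smul, inv_mul_cancel₀ hc.ne', one_smul]
    ring
  simp only [e1]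
  rw [integral_const_mul, h, finrank_euclideanSpace_fin, abs_of_pos (by positivity),
    Complex.real_smul, ← mul_assoc, ← Complex.ofReal_mul, mul_inv_cancel₀ (by positivity)]
  simp

theorem smul_memLp {n : ℕ} {c : ℝ} (hc : c ≠ 0) {f : E n → ℂ} {p : ℝ≥0∞} (hf : MemLp f p) :
    MemLp (fun x => f (c • x)) p := by
  have h1 : Measure.map (fun x : E n => c • x) volume =
      ENNReal.ofReal (abs (c ^ n)⁻¹) • (volume : Measure (E n)) := by
    have := Measure.map_addHaar_smul (volume : Measure (E n)) hc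
    rwa [finrank_euclideanSpace_fin] at this
  have h2 : MemLp f p (Measure.map (fun x : E n => c • x) volume) := by
    rw [h1]; exact hf.smul_measure ENNReal.ofReal_ne_top
  exact h2.comp_of_map (by fun_prop)

theorem fin_of_memLp {n : ℕ} {f : E n → ℂ} {p : ℝ} (hp : 0 < p)
    (hf : MemLp f (ENNReal.ofReal p)) : ∫⁻ x, ‖f x‖ₑ ^ p ≠ ∞ := by
  have h0 : ENNReal.ofReal p ≠ 0 := by
    rw [Ne, ENNReal.ofReal_eq_zero]; linarith
  have h := hf.2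
  rw [eLpNorm_eq_lintegral_rpow_enorm_toReal h0 ENNReal.ofReal_ne_top,
    ENNReal.toReal_ofReal hp.le] at h
  intro hcon
  rw [hcon, ENNReal.top_rpow_of_pos (by positivity)] at h
  exact absurd h (lt_irrefl _)

theorem SR_congr {n : ℕ} (δ R : ℝ) {f g : E n → ℂ} (h : f =ᵐ[volume] g) : SR δ R f = SR δ R g := by
  funext x
  unfold SR
  refine integral_congr_ae ?_
  filter_upwards [h] with y hy
  rw [hy]

/-- the means of an `L^p` function converge absolutely -/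
theorem SR_abs (n : ℕ) (hn : 2 ≤ n) (δ : ℝ) (hδ : 0 < δ) (p : ℝ) (hp1 : 1 < p)
    (hp : p ≤ 2 * (n : ℝ) / ((n : ℝ) - 1)) (R : ℝ) (hR : 0 < R) (f : E n → ℂ)
    (hf : MemLp f (ENNReal.ofReal p)) (x : E n) : Integrable (fun y => KR δ R (x - y) * f y) := by
  obtain ⟨ψ, hψ, hd⟩ := Pool.Agent.H438R2.RZ.decomp δ hδ
  have key : ∀ g : E n → ℂ, MemLp g (ENNReal.ofReal p) → ∀ z : E n,
      Integrable (fun y => KR δ 1 (z - y) * g y) := by
    intro g hg z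
    have h1 := (SR_sum n hn δ hδ hψ hd p hp1 hp 1 le_rfl one_le_two (hg.1.mk g)
      hg.1.stronglyMeasurable_mk.measurable (fin_of_memLp (by linarith)
        ((memLp_congr_ae hg.1.ae_eq_mk).1 hg)) z).1
    refine h1.congr ?_
    filter_upwards [hg.1.ae_eq_mk] with y hy
    rw [hy]
  have h2 := key (fun y => f (R⁻¹ • y)) (smul_memLp (inv_ne_zero hR.ne') hf) (R • x)
  have h3 := ((integrable_comp_smul_iff (volume : Measure (E n))
    (fun y => KR δ 1 (R • x - y) * f (R⁻¹ • y)) hR.ne').2 h2).const_mul ((R ^ n : ℝ) : ℂ)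
  refine h3.congr (Eventually.of_forall fun y => ?_)
  simp only
  rw [show KR δ R (x - y) = KR δ (R * 1) (x - y) by rw [mul_one], KR_scale δ hR one_pos, smul_sub,
    smul_smul, inv_mul_cancel₀ hR.ne', one_smul]
  ring

theorem dim_SR (n : ℕ) (hn : 2 ≤ n) (δ : ℝ) (hδ : 0 < δ) (p : ℝ)
    (hp1 : 2 * (n : ℝ) / ((n : ℝ) + 1) ≤ p) (hp2 : p ≤ 2 * (n : ℝ) / ((n : ℝ) - 1))
    (f : E n → ℂ) (hf : MemLp f (ENNReal.ofReal p)) :
    dimH {R : ℝ | 0 < R ∧ ¬ MemLp (SR δ R f) (ENNReal.ofReal p)} ≤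
      ENNReal.ofReal (tgt n p δ) := by
  have hn2 : (2 : ℝ) ≤ n := by exact_mod_cast hn
  have h1p : 1 < p := by
    refine lt_of_lt_of_le ?_ hp1
    rw [lt_div_iff₀ (by linarith)]; linarith
  have hfm := (memLp_congr_ae hf.1.ae_eq_mk).1 hf
  set g : E n → ℂ := hf.1.mk f with hg
  have hgm : Measurable g := hf.1.stronglyMeasurable_mk.measurable
  have hSg : ∀ R, SR δ R f = SR δ R g := fun R => SR_congr δ R hf.1.ae_eq_mk
  have hsub : {R : ℝ | 0 < R ∧ ¬ MemLp (SR δ R f) (ENNReal.ofReal p)} ⊆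
      ⋃ k : ℤ, (fun R : ℝ => (2 : ℝ) ^ k * R) '' {R : ℝ | 1 ≤ R ∧ R ≤ 2 ∧
        ¬ MemLp (SR δ R (fun y => g (((2 : ℝ) ^ k)⁻¹ • y))) (ENNReal.ofReal p)} := by
    rintro R ⟨hR0, hRn⟩
    obtain ⟨k, hk1, hk2⟩ := exists_mem_Ico_zpow hR0 (by norm_num : (1 : ℝ) < 2)
    have h2k : (0 : ℝ) < 2 ^ k := by positivity
    refine mem_iUnion.2 ⟨k, R / 2 ^ k, ⟨?_, ?_, fun hcon => hRn ?_⟩, ?_⟩
    · rw [one_le_div h2k]; exact hk1
    · rw [div_le_iff₀ h2k]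
      rw [zpow_add₀ (by norm_num)] at hk2
      simp only [zpow_one] at hk2
      linarith
    · have h3 := smul_memLp (c := (2 : ℝ) ^ k) h2k.ne' hcon
      rw [hSg]
      refine (memLp_congr_ae (Eventually.of_forall fun x => ?_)).1 h3
      rw [← SR_scale δ h2k (by positivity), mul_div_cancel₀ _ h2k.ne']
    · simp only
      rw [mul_div_cancel₀ _ h2k.ne']
  refine (dimH_mono hsub).trans ?_
  rw [dimH_iUnion]
  refine iSup_le fun k => ?_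
  have hlip : LipschitzWith (Real.nnabs ((2 : ℝ) ^ k)) (fun R : ℝ => (2 : ℝ) ^ k * R) := by
    refine LipschitzWith.of_dist_le_mul fun a b => ?_
    rw [Real.dist_eq, Real.dist_eq, ← mul_sub, abs_mul]
    simp
  refine (hlip.dimH_image_le _).trans ?_
  have h2k : (0 : ℝ) < 2 ^ k := by positivity
  exact dim_one n hn δ hδ p hp1 hp2 _ (hgm.comp (by fun_prop))
    (fin_of_memLp (by linarith) (smul_memLp (inv_ne_zero h2k.ne') hfm))

/-- the mean of an integrable function is given by the multiplier -/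
theorem SR_mult {n : ℕ} {δ : ℝ} (hδ : 0 < δ) {R : ℝ} (hR : 0 < R) {f : E n → ℂ}
    (hf : Integrable f) (x : E n) : SR δ R f x =
      ∫ ξ : E n, cexp (((2 * Real.pi * ⟪ξ, x⟫ : ℝ) : ℂ) * I) *
        ((((max (1 - ‖ξ‖ ^ 2 / R ^ 2) 0) ^ δ : ℝ) : ℂ) * 𝓕 f ξ) := by
  unfold SR KR
  rw [conv_eq (bm_int hδ hR) hf x, four_eq, ← integral_neg_eq_self]
  congr 1; funext ξ
  unfold gh bm
  rw [neg_neg, norm_neg, inner_neg_left, div_eq_inv_mul]
  congr 3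
  push_cast; ring

end Pool.Agent.Y248.BA
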