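import Mathlib
import Pool.Agent.Y248.BA.Main
set_option autoImplicit false

/-! # Several radii: one estimate for all exponents -/

namespace Pool.Agent.Y248.BA

open MeasureTheory Set Metric Complex Filter
open scoped ENNReal NNReal RealInnerProductSpace Topology FourierTransform
open Pool.Agent.H789R2.FR (E sg T sg_finite polar)
open Pool.Agent.H438R2.RZ (Bump)

/-- the exponent of the loss for one radius -/
noncomputable def sig (n : ℕ) (p : ℝ) : ℝ := ((n : ℝ) - 1) / 2 * |1 / 2 - 1 / p|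

/-- the exponent of the gain from averaging -/
noncomputable def gam (n : ℕ) (p : ℝ) : ℝ :=
  if 2 ≤ p then 1 / p else (1 - ((n : ℝ) + 1) * (1 / p - 1 / 2)) / 2

/-- the estimate -/
def MultiHyp (n : ℕ) (ψ : ℝ → ℝ) (p σ κ : ℝ) : Prop :=
  ∃ C : ℝ, 0 < C ∧ ∀ A : ℝ, 8 ≤ A → ∀ (K : Finset ℕ) (R : ℕ → ℝ), Rad A K R →
    ∀ f : E n → ℂ, Measurable f → ∫⁻ x, ‖f x‖ₑ ^ p ≠ ∞ →
      ∑ k ∈ K, ∫⁻ x, ‖Tp ψ A (R k) f x‖ₑ ^ p ≤
        ENNReal.ofReal (C * (A ^ (p * σ) * (K.card : ℝ) ^ (1 - p * κ) + K.card)) *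
          ∫⁻ x, ‖f x‖ₑ ^ p

/-- from a local bound to the estimate -/
theorem multi_gen (n : ℕ) {ψ : ℝ → ℝ} (hψ : Bump ψ) (p : ℝ) (hp : 1 ≤ p) (ε : ℝ) (hε : 0 < ε)
    (σ κ : ℝ) (C0 : ℝ) (hC0 : 0 < C0)
    (H : ∀ A : ℝ, 8 ≤ A → ∀ (K : Finset ℕ) (R : ℕ → ℝ), Rad A K R → K.Nonempty → ∀ u : E n,
      ∀ g : E n → ℂ, Measurable g → (∀ x, x ∉ closedBall u (2 * A ^ (1 + ε)) → g x = 0) →
      ∫⁻ x, ‖g x‖ₑ ^ p ≠ ∞ →
      ∑ k ∈ K, ∫⁻ x in closedBall u (A ^ (1 + ε)), ‖Tp ψ A (R k) g x‖ₑ ^ p ≤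
        ENNReal.ofReal (C0 * (A ^ (p * σ) * (K.card : ℝ) ^ (1 - p * κ))) * ∫⁻ x, ‖g x‖ₑ ^ p) :
    MultiHyp n ψ p σ κ := by
  obtain ⟨C1, hC1, hglob⟩ := glob n hψ p hp ε hε
  refine ⟨2 ^ (p - 1) * (2 ^ n * C0 + C1), by positivity, fun A hA K R hR f hf hfp => ?_⟩
  have hA0 : 0 < A := by linarith
  rcases K.eq_empty_or_nonempty with hK | hK
  · subst hK; simp
  refine (hglob A hA K R hR (C0 * (A ^ (p * σ) * (K.card : ℝ) ^ (1 - p * κ))) (by positivity)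
    (fun u g hg hgs hgp => H A hA K R hR hK u g hg hgs hgp) f hf hfp).trans ?_
  refine mul_le_mul' (ENNReal.ofReal_le_ofReal ?_) le_rfl
  have h1 : 0 ≤ A ^ (p * σ) * (K.card : ℝ) ^ (1 - p * κ) := by positivity
  have h2 : (0 : ℝ) ≤ K.card := by positivity
  have h3 : (0 : ℝ) < 2 ^ (p - 1) := by positivity
  have h4 : (0 : ℝ) < 2 ^ n := by positivity
  rw [mul_assoc]
  refine mul_le_mul_of_nonneg_left ?_ h3.le
  have h5 : 0 ≤ C1 * (A ^ (p * σ) * (K.card : ℝ) ^ (1 - p * κ)) := by positivity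
  have h6 : 0 ≤ 2 ^ n * C0 * (K.card : ℝ) := by positivity
  calc 2 ^ n * (C0 * (A ^ (p * σ) * (K.card : ℝ) ^ (1 - p * κ))) + K.card * C1
      = (2 ^ n * C0 + C1) * (A ^ (p * σ) * (K.card : ℝ) ^ (1 - p * κ) + K.card) -
        (C1 * (A ^ (p * σ) * (K.card : ℝ) ^ (1 - p * κ)) + 2 ^ n * C0 * (K.card : ℝ)) := by ring
    _ ≤ _ := by linarith

theorem card_pow {K : Finset ℕ} (hK : K.Nonempty) {a b : ℝ} (h : a ≤ b) :
    (K.card : ℝ) ^ a ≤ (K.card : ℝ) ^ b := by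
  have : (1 : ℝ) ≤ K.card := by exact_mod_cast hK.card_pos
  exact Real.rpow_le_rpow_of_exponent_le this h

theorem multi_big (n : ℕ) (hn : 2 ≤ n) {ψ : ℝ → ℝ} (hψ : Bump ψ) (p : ℝ) (hp2 : 2 < p)
    (hp : p < 2 * ((n : ℝ) + 1) / ((n : ℝ) - 1)) (σ κ : ℝ) (hσ : sig n p < σ)
    (hκ : κ < 1 / p) : MultiHyp n ψ p σ κ := by
  have hp0 : 0 < p := by linarith
  have hn2 : (2 : ℝ) ≤ n := by exact_mod_cast hn
  have hsig : p * sig n p = ((n : ℝ) - 1) * (p - 2) / 4 := by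
    unfold sig
    have h1 : |1 / 2 - 1 / p| = (p - 2) / (2 * p) := by
      rw [abs_of_nonneg]
      · field_simp
      · rw [sub_nonneg]; exact one_div_le_one_div_of_le two_pos hp2.le
    rw [h1]; field_simp; ring
  set e1 : ℝ := 1 + ((n : ℝ) + 1) * (p - 2) / 4 with he1
  have he10 : 0 < e1 := by
    have : 0 ≤ ((n : ℝ) + 1) * (p - 2) := mul_nonneg (by linarith) (by linarith)
    linarith
  set ε : ℝ := p * (σ - sig n p) / e1 with hε
  have hε0 : 0 < ε := div_pos (mul_pos hp0 (by linarith)) he10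
  have hεe : ε * e1 = p * σ - p * sig n p := by rw [hε]; field_simp
  obtain ⟨C, hC, hloc⟩ := loc_big n hn hψ p hp2 hp
  refine multi_gen n hψ p (by linarith) ε hε0 σ κ C hC fun A hA K R hR hK u g hg hgs hgp => ?_
  have hA0 : 0 < A := by linarith
  refine (hloc A hA K R hR (A ^ (1 + ε)) (by positivity) u g hg hgs hgp).trans ?_
  refine mul_le_mul' (ENNReal.ofReal_le_ofReal ?_) le_rfl
  rw [mul_assoc]
  refine mul_le_mul_of_nonneg_left ?_ hC.le
  have h1 : (A ^ (1 + ε)) ^ e1 * A ^ (-(p / 2)) = A ^ (p * σ) := by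
    rw [← Real.rpow_mul hA0.le, ← Real.rpow_add hA0]
    congr 1
    have : (1 + ε) * e1 = e1 + (p * σ - p * sig n p) := by rw [add_mul, one_mul, hεe]
    rw [this, hsig, he1]; ring
  rw [h1]
  have h2 : (1 : ℝ) ≤ (K.card : ℝ) ^ (1 - p * κ) := by
    have h3 : p * κ ≤ 1 := by
      rw [lt_div_iff₀ hp0] at hκ; linarith
    have := card_pow hK (show (0 : ℝ) ≤ 1 - p * κ by linarith)
    rwa [Real.rpow_zero] at this
  have h4 : 0 ≤ A ^ (p * σ) := by positivity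
  nlinarith

theorem multi_two (n : ℕ) {ψ : ℝ → ℝ} (hψ : Bump ψ) (σ κ : ℝ) (hσ : 0 < σ)
    (hκ : κ < 1 / 2) : MultiHyp n ψ 2 σ κ := by
  obtain ⟨C, hC, hloc⟩ := loc_two n hψ
  refine multi_gen n hψ 2 (by norm_num) 1 one_pos σ κ C hC fun A hA K R hR hK u g hg hgs hgp => ?_
  have hA0 : 0 < A := by linarith
  refine (hloc A hA K R hR (A ^ (1 + (1 : ℝ))) (by positivity) u g hg hgs hgp).trans ?_
  refine mul_le_mul' (ENNReal.ofReal_le_ofReal ?_) le_rfl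
  have h2 : (1 : ℝ) ≤ (K.card : ℝ) ^ (1 - 2 * κ) := by
    have := card_pow hK (show (0 : ℝ) ≤ 1 - 2 * κ by linarith)
    rwa [Real.rpow_zero] at this
  have h3 : 1 ≤ A ^ (2 * σ) := Real.one_le_rpow (by linarith) (by linarith)
  nlinarith [mul_le_mul h3 h2 zero_le_one (by linarith)]

theorem multi_small (n : ℕ) (hn : 2 ≤ n) {ψ : ℝ → ℝ} (hψ : Bump ψ) (p : ℝ) (hp2 : p < 2)
    (hp : 2 * (n : ℝ) / ((n : ℝ) + 1) ≤ p) (σ κ : ℝ) (hσ : sig n p < σ)
    (hκ : κ < (1 - ((n : ℝ) + 1) * (1 / p - 1 / 2)) / 2) : MultiHyp n ψ p σ κ := by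
  have hn2 : (2 : ℝ) ≤ n := by exact_mod_cast hn
  have hp1 : 1 < p := by
    refine lt_of_lt_of_le ?_ hp
    rw [lt_div_iff₀ (by linarith)]; linarith
  have hp0 : 0 < p := by linarith
  have hsig' : sig n p = ((n : ℝ) - 1) / 2 * (1 / p - 1 / 2) := by
    unfold sig
    rw [abs_sub_comm, abs_of_nonneg]
    rw [sub_nonneg]; exact one_div_le_one_div_of_le hp0 hp2.le
  set s : ℝ := 1 / p - 1 / 2 with hs
  have hs0 : 0 < s := by
    rw [hs, sub_pos]; exact one_div_lt_one_div_of_lt hp0 hp2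
  have hsn : 2 * n * s ≤ 1 := by
    have h1 : 1 / p ≤ ((n : ℝ) + 1) / (2 * n) := by
      rw [div_le_div_iff₀ hp0 (by positivity)]
      rw [div_le_iff₀ (by positivity)] at hp
      linarith
    have h2 : s ≤ ((n : ℝ) + 1) / (2 * n) - 1 / 2 := by rw [hs]; linarith
    have h3 : ((n : ℝ) + 1) / (2 * n) - 1 / 2 = 1 / (2 * n) := by field_simp; ring
    rw [h3, le_div_iff₀ (by positivity)] at h2
    linarith
  have hs1 : ((n : ℝ) + 1) * s < 1 := by nlinarith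
  obtain ⟨θ, hθ0, hθ1, hθκ⟩ : ∃ θ : ℝ, ((n : ℝ) + 1) * s < θ ∧ θ < 1 ∧ θ ≤ 1 - 2 * κ := by
    have h1 : ((n : ℝ) + 1) * s < min 1 (1 - 2 * κ) := lt_min hs1 (by linarith)
    obtain ⟨θ, h2, h3⟩ := exists_between h1
    exact ⟨θ, h2, h3.trans_le (min_le_left _ _), (h3.trans_le (min_le_right _ _)).le⟩
  have hθp : 0 < θ := lt_trans (by positivity) hθ0
  set sP : ℝ := s / θ with hsP
  have hsP0 : 0 < sP := by positivity
  have hsP1 : s < sP := by
    rw [hsP, lt_div_iff₀ hθp]; nlinarith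
  have hsP2 : ((n : ℝ) + 1) * sP < 1 := by
    rw [hsP, ← mul_div_assoc, div_lt_one hθp]; exact hθ0
  have hsP3 : sP < 1 / 2 := by nlinarith
  set P : ℝ := 1 / (1 / 2 - sP) with hP
  have hPi : 1 / P = 1 / 2 - sP := by rw [hP, one_div_one_div]
  have hP0 : 0 < P := by rw [hP]; exact one_div_pos.2 (by linarith)
  have hPc : P < 2 * ((n : ℝ) + 1) / ((n : ℝ) - 1) := by
    rw [hP, div_lt_div_iff₀ (by linarith) (by linarith)]
    nlinarith
  have hqi : 1 / (p / (p - 1)) = 1 / 2 - s := by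
    rw [hs]; field_simp; ring
  have hqP : p / (p - 1) ≤ P := by
    have hq0 : 0 < p / (p - 1) := div_pos hp0 (by linarith)
    rw [← one_div_le_one_div hP0 hq0, hPi, hqi]; linarith
  have hθe : (1 / p - 1 / 2) / (1 / 2 - 1 / P) = θ := by
    rw [hPi, show (1 / 2 : ℝ) - (1 / 2 - sP) = sP by ring, ← hs, hsP]
    field_simp
  have hτ : 2 * tau n P / P = 1 - ((n : ℝ) + 1) * sP := by
    have h1 : 2 * tau n P / P = 2 * ((1 + ((n : ℝ) - 1) / 2) * (1 / P) - ((n : ℝ) - 1) / 4) := by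
      unfold tau; field_simp; ring
    rw [h1, hPi]; ring
  have hτ0 : 0 < 2 * tau n P / P := by rw [hτ]; linarith
  set e2 : ℝ := (n : ℝ) * (1 - p / 2) + 2 * tau n P / P * (θ * (p / 2)) with he2
  have he20 : 0 < e2 := by
    have h1 : 0 < (n : ℝ) * (1 - p / 2) := mul_pos (by linarith) (by linarith)
    have h3 : 0 < 2 * tau n P / P * (θ * (p / 2)) := by positivity
    linarith
  set ε : ℝ := p * (σ - sig n p) / e2 with hε
  have hε0 : 0 < ε := div_pos (mul_pos hp0 (by linarith)) he20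
  have hεe : ε * e2 = p * σ - p * sig n p := by rw [hε]; field_simp
  obtain ⟨C, hC, hloc⟩ := loc_small n hn hψ p hp1 hp2 P hqP hPc
  rw [hθe] at hloc
  refine multi_gen n hψ p hp1.le ε hε0 σ κ C hC fun A hA K R hR hK u g hg hgs hgp => ?_
  have hA0 : 0 < A := by linarith
  refine (hloc A hA K R hR (A ^ (1 + ε)) (by positivity) u g hg hgs hgp).trans ?_
  refine mul_le_mul' (ENNReal.ofReal_le_ofReal ?_) le_rfl
  have hm : (0 : ℝ) < K.card := by exact_mod_cast hK.card_pos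
  have hmκ : (K.card : ℝ) ^ (1 - p / 2 * (1 - θ)) ≤ (K.card : ℝ) ^ (1 - p * κ) := by
    refine card_pow hK ?_
    have : p * κ ≤ p / 2 * (1 - θ) := by
      have : κ ≤ (1 - θ) / 2 := by linarith
      calc p * κ ≤ p * ((1 - θ) / 2) := by gcongr
        _ = _ := by ring
    linarith
  set m : ℝ := (K.card : ℝ) with hmd
  set ρ : ℝ := A ^ (1 + ε) with hρ
  have hρ0 : 0 < ρ := by positivity
  have e3 : (ρ ^ (2 * tau n P / P) * (m / A)) ^ (θ * (p / 2)) =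
      ρ ^ (2 * tau n P / P * (θ * (p / 2))) * (m ^ (θ * (p / 2)) * A ^ (-(θ * (p / 2)))) := by
    rw [Real.mul_rpow (by positivity) (by positivity), ← Real.rpow_mul hρ0.le,
      Real.div_rpow hm.le hA0.le, Real.rpow_neg hA0.le, ← div_eq_mul_inv]
  have e4 : ρ ^ ((n : ℝ) * (1 - p / 2)) * ρ ^ (2 * tau n P / P * (θ * (p / 2))) *
      A ^ (-(θ * (p / 2))) = A ^ (p * σ) := by
    rw [← Real.rpow_add hρ0, hρ, ← Real.rpow_mul hA0.le, ← Real.rpow_add hA0]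
    congr 1
    have h1 : (1 + ε) * e2 = e2 + (p * σ - p * sig n p) := by rw [add_mul, one_mul, hεe]
    rw [← he2, h1, he2, hτ, hsig']
    have h3 : sP * θ = s := by rw [hsP]; field_simp
    have h4 : 1 - p / 2 = p * s := by rw [hs]; field_simp
    have h5 : (1 - ((n : ℝ) + 1) * sP) * (θ * (p / 2)) =
        θ * (p / 2) - ((n : ℝ) + 1) * (sP * θ) * (p / 2) := by ring
    rw [h4, h5, h3]; ring
  have e5 : m ^ (1 - p / 2) * m ^ (θ * (p / 2)) = m ^ (1 - p / 2 * (1 - θ)) := by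
    rw [← Real.rpow_add hm]; congr 1; ring
  have e6 : C * ρ ^ ((n : ℝ) * (1 - p / 2)) * m ^ (1 - p / 2) *
      (ρ ^ (2 * tau n P / P) * (m / A)) ^ (θ * (p / 2)) =
      C * (A ^ (p * σ) * m ^ (1 - p / 2 * (1 - θ))) := by
    rw [e3, ← e4, ← e5]; ring
  rw [e6]
  gcongr

theorem multi (n : ℕ) (hn : 2 ≤ n) {ψ : ℝ → ℝ} (hψ : Bump ψ) (p : ℝ)
    (hp1 : 2 * (n : ℝ) / ((n : ℝ) + 1) ≤ p) (hp2 : p ≤ 2 * (n : ℝ) / ((n : ℝ) - 1)) (σ κ : ℝ)
    (hσ : sig n p < σ) (hκ : κ < gam n p) : MultiHyp n ψ p σ κ := by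
  have hn2 : (2 : ℝ) ≤ n := by exact_mod_cast hn
  unfold gam at hκ
  rcases lt_trichotomy p 2 with h | h | h
  · rw [if_neg (not_le.mpr h)] at hκ
    exact multi_small n hn hψ p h hp1 σ κ hσ hκ
  · subst h
    rw [if_pos le_rfl] at hκ
    refine multi_two n hψ σ κ ?_ hκ
    refine lt_of_le_of_lt ?_ hσ
    unfold sig; simp
  · rw [if_pos h.le] at hκ
    refine multi_big n hn hψ p h (lt_of_le_of_lt hp2 ?_) σ κ hσ hκ
    rw [div_lt_div_iff_of_pos_right (by linarith)]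
    linarith

theorem gam_pos (n : ℕ) (hn : 2 ≤ n) (p : ℝ)
    (hp1 : 2 * (n : ℝ) / ((n : ℝ) + 1) ≤ p) (hp2 : p ≤ 2 * (n : ℝ) / ((n : ℝ) - 1)) :
    0 < gam n p ∧ sig n p ≤ gam n p := by
  have hn2 : (2 : ℝ) ≤ n := by exact_mod_cast hn
  have hp0 : 0 < p := lt_of_lt_of_le (by positivity) hp1
  unfold gam sig
  split_ifs with h
  · refine ⟨by positivity, ?_⟩
    have h1 : |1 / 2 - 1 / p| = (p - 2) / (2 * p) := by
      rw [abs_of_nonneg]
      · field_simp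
      · rw [sub_nonneg]; exact one_div_le_one_div_of_le two_pos h
    rw [h1, div_mul_div_comm, div_le_div_iff₀ (by positivity) hp0]
    rw [le_div_iff₀ (by linarith)] at hp2
    nlinarith
  · push Not at h
    have h1 : 1 / p ≤ ((n : ℝ) + 1) / (2 * n) := by
      rw [div_le_div_iff₀ hp0 (by positivity)]
      rw [div_le_iff₀ (by positivity)] at hp1
      linarith
    have h3 : ((n : ℝ) + 1) / (2 * n) - 1 / 2 = 1 / (2 * n) := by field_simp; ring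
    have h4 : 1 / p - 1 / 2 ≤ 1 / (2 * n) := by linarith
    rw [le_div_iff₀ (by positivity)] at h4
    have h5 : 0 ≤ 1 / p - 1 / 2 := by
      rw [sub_nonneg]; exact one_div_le_one_div_of_le hp0 h.le
    rw [abs_sub_comm, abs_of_nonneg h5]
    set s : ℝ := 1 / p - 1 / 2 with hs
    constructor
    · have : ((n : ℝ) + 1) * s < 1 := by nlinarith
      linarith
    · nlinarith

end Pool.Agent.Y248.BA
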