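import Mathlib
import Pool.Agent.Y248.BA.Multi
set_option autoImplicit false

/-! # Averages over geometric sequences of radii -/

namespace Pool.Agent.Y248.BA

open MeasureTheory Set Metric Complex Filter
open scoped ENNReal NNReal RealInnerProductSpace Topology FourierTransform
open Pool.Agent.H789R2.FR (E sg T sg_finite polar)
open Pool.Agent.H438R2.RZ (Bump)

/-! ### dilations -/

theorem eLp_dil {n : ℕ} {c : ℝ} (hc : 0 < c) (h : E n → ℂ) (p : ℝ) (hp : 0 < p) :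
    eLpNorm (fun x => h (c • x)) (ENNReal.ofReal p) volume =
      ENNReal.ofReal (((c ^ n)⁻¹) ^ (1 / p)) * eLpNorm h (ENNReal.ofReal p) volume := by
  have h1 : Measure.map (fun x : E n => c • x) volume =
      ENNReal.ofReal (abs (c ^ n)⁻¹) • (volume : Measure (E n)) := by
    have := Measure.map_addHaar_smul (volume : Measure (E n)) hc.ne'
    rwa [finrank_euclideanSpace_fin] at this
  have hemb : MeasurableEmbedding (fun x : E n => c • x) :=
    (Homeomorph.smulOfNeZero c hc.ne').measurableEmbedding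
  have h2 := hemb.eLpNorm_map_measure (g := h) (p := ENNReal.ofReal p) (μ := volume)
  have h3 : (fun x : E n => h (c • x)) = h ∘ (fun x : E n => c • x) := rfl
  rw [h3, ← h2, h1, abs_of_pos (by positivity), eLpNorm_smul_measure_of_ne_zero
    (by rw [Ne, ENNReal.ofReal_eq_zero, not_le]; positivity), smul_eq_mul,
    ENNReal.toReal_div, ENNReal.toReal_one, ENNReal.toReal_ofReal hp.le,
    ENNReal.ofReal_rpow_of_nonneg (by positivity) (by positivity)]

theorem eLp_dil_inv {n : ℕ} {c : ℝ} (hc : 1 ≤ c) (hc2 : c ≤ 2) (h : E n → ℂ) (p : ℝ) (hp : 1 ≤ p) :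
    eLpNorm (fun x => h (c⁻¹ • x)) (ENNReal.ofReal p) volume ≤
      ENNReal.ofReal (2 ^ n) * eLpNorm h (ENNReal.ofReal p) volume := by
  have hc0 : 0 < c := by linarith
  rw [eLp_dil (inv_pos.2 hc0) h p (by linarith)]
  gcongr
  rw [inv_pow, inv_inv]
  have h1 : 1 ≤ c ^ n := one_le_pow₀ hc
  calc (c ^ n) ^ (1 / p) ≤ (c ^ n) ^ (1 : ℝ) :=
        Real.rpow_le_rpow_of_exponent_le h1 (by rw [div_le_one (by linarith)]; exact hp)
    _ = c ^ n := Real.rpow_one _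
    _ ≤ 2 ^ n := pow_le_pow_left₀ hc0.le hc2 n

theorem Kr_scale {n : ℕ} (ψ : ℝ → ℝ) (A : ℝ) {c : ℝ} (hc : 0 < c) (w : E n) :
    Kr ψ A c w = ((c ^ n : ℝ) : ℂ) * Kr ψ A 1 (c • w) := by
  unfold Kr
  rw [four_eq, four_eq]
  have h := Measure.integral_comp_smul (volume : Measure (E n))
    (fun ξ : E n => cexp (((-2 * Real.pi * ⟪ξ, c • w⟫ : ℝ) : ℂ) * I) * mu ψ A 1 ξ) c⁻¹
  have e1 : ∀ ξ : E n, cexp (((-2 * Real.pi * ⟪c⁻¹ • ξ, c • w⟫ : ℝ) : ℂ) * I) *
      mu ψ A 1 (c⁻¹ • ξ) = cexp (((-2 * Real.pi * ⟪ξ, w⟫ : ℝ) : ℂ) * I) * mu ψ A c ξ := by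
    intro ξ
    unfold mu
    rw [real_inner_smul_left, real_inner_smul_right, ← mul_assoc c⁻¹ c, inv_mul_cancel₀ hc.ne',
      one_mul, norm_smul, mul_pow, norm_inv, Real.norm_of_nonneg hc.le, inv_pow, one_pow, inv_one,
      one_mul]
  simp only [e1] at h
  rw [h, finrank_euclideanSpace_fin, inv_pow, inv_inv, abs_of_pos (by positivity)]
  rw [Complex.real_smul]

theorem Tp_scale {n : ℕ} (ψ : ℝ → ℝ) (A : ℝ) {c : ℝ} (hc : 0 < c) (g : E n → ℂ) (x : E n) :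
    Tp ψ A 1 (fun y => g (c⁻¹ • y)) x = Tp ψ A c g (c⁻¹ • x) := by
  unfold Tp
  have h := Measure.integral_comp_smul (volume : Measure (E n))
    (fun z : E n => Kr ψ A 1 (x - z) * g (c⁻¹ • z)) c
  have e1 : ∀ y : E n, Kr ψ A c (c⁻¹ • x - y) * g y =
      ((c ^ n : ℝ) : ℂ) * (Kr ψ A 1 (x - c • y) * g (c⁻¹ • (c • y))) := by
    intro y
    rw [Kr_scale ψ A hc, smul_sub, smul_smul, smul_smul, mul_inv_cancel₀ hc.ne', one_smul,
      inv_mul_cancel₀ hc.ne', one_smul]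
    ring
  simp only [e1]
  rw [integral_const_mul, h, finrank_euclideanSpace_fin, abs_of_pos (by positivity),
    Complex.real_smul, ← mul_assoc, ← Complex.ofReal_mul, mul_inv_cancel₀ (by positivity)]
  simp

/-- absolute convergence of a piece -/
theorem piece_int (n : ℕ) (hn : 2 ≤ n) {ψ : ℝ → ℝ} (hψ : Bump ψ) (p : ℝ) (hp1 : 1 < p)
    (hp : p ≤ 2 * (n : ℝ) / ((n : ℝ) - 1)) {A R : ℝ} (hA : 1 ≤ A) (hR1 : 1 ≤ R) (hR2 : R ≤ 2)
    {f : E n → ℂ} (hf : Measurable f) (hfp : ∫⁻ x, ‖f x‖ₑ ^ p ≠ ∞) (x : E n) :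
    Integrable fun y => Kr ψ A R (x - y) * f y := by
  have hn2 : (2 : ℝ) ≤ n := by exact_mod_cast hn
  set q : ℝ := p / (p - 1) with hq
  have hpq : p.HolderConjugate q := Real.HolderConjugate.conjExponent hp1
  have hq0 : 0 < q := hpq.symm.pos
  have hqn : 2 * (n : ℝ) / ((n : ℝ) + 1) ≤ q := by
    rw [hq, div_le_div_iff₀ (by linarith) (by linarith)]
    rw [le_div_iff₀ (by linarith)] at hp
    nlinarith
  obtain ⟨C, hC, hb⟩ := Kr_Lq n hn hψ q hqn 1 one_pos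
  refine ⟨(((Kr_cont hψ (by linarith) (by linarith) hR2).measurable.comp
    (measurable_const.sub measurable_id)).mul hf).aestronglyMeasurable, ?_⟩
  refine (piece_holder hψ (by linarith) (by linarith) hR2 hpq hf x).trans_lt ?_
  refine ENNReal.mul_lt_top (ENNReal.rpow_lt_top_of_nonneg (by positivity) ?_)
    (ENNReal.rpow_lt_top_of_nonneg (by positivity) hfp)
  exact ne_top_of_le_ne_top ENNReal.ofReal_ne_top (hb A R hA hR1 hR2)

theorem Tp_sub (n : ℕ) (hn : 2 ≤ n) {ψ : ℝ → ℝ} (hψ : Bump ψ) (p : ℝ) (hp1 : 1 < p)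
    (hp : p ≤ 2 * (n : ℝ) / ((n : ℝ) - 1)) {A R : ℝ} (hA : 1 ≤ A) (hR1 : 1 ≤ R) (hR2 : R ≤ 2)
    {f g : E n → ℂ} (hf : Measurable f) (hfp : ∫⁻ x, ‖f x‖ₑ ^ p ≠ ∞) (hg : Measurable g)
    (hgp : ∫⁻ x, ‖g x‖ₑ ^ p ≠ ∞) (x : E n) :
    Tp ψ A R (fun y => f y - g y) x = Tp ψ A R f x - Tp ψ A R g x := by
  unfold Tp
  rw [← integral_sub (piece_int n hn hψ p hp1 hp hA hR1 hR2 hf hfp x)
    (piece_int n hn hψ p hp1 hp hA hR1 hR2 hg hgp x)]
  congr 1; funext y; ring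

/-! ### geometric radii -/

theorem geo_multi (n : ℕ) {ψ : ℝ → ℝ} {p σ κ : ℝ} (H : MultiHyp n ψ p σ κ) : ∃ C : ℝ, 0 < C ∧
    ∀ A : ℝ, 8 ≤ A → ∀ M : ℕ, (1 + 1 / A) ^ M ≤ 2 → ∀ f : E n → ℂ, Measurable f →
      ∫⁻ x, ‖f x‖ₑ ^ p ≠ ∞ →
      ∑ i ∈ Finset.range M, ∫⁻ x, ‖Tp ψ A ((1 + 1 / A) ^ i) f x‖ₑ ^ p ≤
        ENNReal.ofReal (C * (A ^ (p * σ) * (M : ℝ) ^ (1 - p * κ) + M)) * ∫⁻ x, ‖f x‖ₑ ^ p := by
  obtain ⟨C, hC, hH⟩ := H
  refine ⟨C, hC, fun A hA M hM f hf hfp => ?_⟩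
  have hA0 : 0 < A := by linarith
  set r : ℝ := 1 + 1 / A with hr
  have hr1 : 1 ≤ r := by rw [hr]; have : 0 < 1 / A := by positivity
                         linarith
  have hAr : A * r = A + 1 := by rw [hr]; field_simp
  set k : ℕ → ℕ := fun i => ⌊A * (r ^ i - 1)⌋₊ with hk
  have hnn : ∀ i, 0 ≤ A * (r ^ i - 1) := fun i =>
    mul_nonneg hA0.le (by linarith [one_le_pow₀ hr1 (n := i)])
  have hstep : ∀ i, A * (r ^ i - 1) + 1 ≤ A * (r ^ (i + 1) - 1) := by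
    intro i
    have h1 : 1 ≤ r ^ i := one_le_pow₀ hr1
    have h2 : A * (r ^ (i + 1) - 1) = (A * r) * r ^ i - A := by rw [pow_succ]; ring
    rw [h2, hAr]; nlinarith
  have hmono : StrictMono k := by
    refine strictMono_nat_of_lt_succ fun i => ?_
    simp only [hk]
    have h1 := Nat.floor_le_floor (hstep i)
    rw [Nat.floor_add_one (hnn i)] at h1
    omega
  have hinj : Set.InjOn k (Finset.range M : Set ℕ) := hmono.injective.injOn
  set R : ℕ → ℝ := fun m => r ^ (Function.invFunOn k (Finset.range M : Set ℕ) m) with hR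
  have hRk : ∀ i ∈ Finset.range M, R (k i) = r ^ i := by
    intro i hi
    simp only [hR]
    congr 1
    exact hinj.leftInvOn_invFunOn (by exact_mod_cast hi)
  have hRad : Rad A ((Finset.range M).image k) R := by
    refine ⟨fun m hm => ?_, fun m hm => ?_, fun m hm => ?_⟩ <;>
      obtain ⟨i, hi, rfl⟩ := Finset.mem_image.1 hm <;> rw [hRk i hi]
    · have := Nat.floor_le (hnn i)
      rw [← le_sub_iff_add_le', div_le_iff₀ hA0, mul_comm]; exact this
    · have := (Nat.lt_floor_add_one (A * (r ^ i - 1))).le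
      rw [← sub_le_iff_le_add', le_div_iff₀ hA0, mul_comm]; exact this
    · exact (pow_le_pow_right₀ hr1 (Finset.mem_range.1 hi).le).trans hM
  have h1 := hH A hA ((Finset.range M).image k) R hRad f hf hfp
  rw [Finset.sum_image hinj, Finset.card_image_of_injOn hinj, Finset.card_range] at h1
  rwa [Finset.sum_congr rfl fun i hi => by rw [hRk i hi]] at h1

end Pool.Agent.Y248.BA
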