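import Mathlib
import Pool.Agent.Y248.BA.Dil
set_option autoImplicit false

/-! # Averages over dilations -/

namespace Pool.Agent.Y248.BA

open MeasureTheory Set Metric Complex Filter
open scoped ENNReal NNReal RealInnerProductSpace Topology FourierTransform
open Pool.Agent.H789R2.FR (E sg T sg_finite polar)
open Pool.Agent.H438R2.RZ (Bump)

/-- the average over the first `2 ^ l` dilations -/
noncomputable def Vl {n : ℕ} (ψ : ℝ → ℝ) (A : ℝ) (l : ℕ) (f : E n → ℂ) (x : E n) : ℂ :=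
  ((2 : ℂ) ^ l)⁻¹ * ∑ i ∈ Finset.range (2 ^ l), Tp ψ A 1 (fun y => f (((1 + 1 / A) ^ i)⁻¹ • y)) x

theorem Vl_zero {n : ℕ} (ψ : ℝ → ℝ) (A : ℝ) (f : E n → ℂ) : Vl ψ A 0 f = Tp ψ A 1 f := by
  funext x
  unfold Vl
  simp

theorem lint_dil {n : ℕ} {c : ℝ} (hc : 0 < c) (h : E n → ℝ≥0∞) :
    ∫⁻ x, h (c⁻¹ • x) = ENNReal.ofReal (c ^ n) * ∫⁻ x, h x := by
  have h1 : Measure.map (fun x : E n => c⁻¹ • x) volume =
      ENNReal.ofReal (abs ((c⁻¹) ^ n)⁻¹) • (volume : Measure (E n)) := by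
    have := Measure.map_addHaar_smul (volume : Measure (E n)) (inv_ne_zero hc.ne')
    rwa [finrank_euclideanSpace_fin] at this
  have hemb : MeasurableEmbedding (fun x : E n => c⁻¹ • x) :=
    (Homeomorph.smulOfNeZero c⁻¹ (inv_ne_zero hc.ne')).measurableEmbedding
  have h2 := hemb.lintegral_map (μ := volume) h
  rw [← h2, h1, lintegral_smul_measure, inv_pow, inv_inv, abs_of_pos (by positivity), smul_eq_mul]

theorem dil_fin {n : ℕ} {c : ℝ} (hc : 0 < c) {f : E n → ℂ} {p : ℝ}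
    (hfp : ∫⁻ x, ‖f x‖ₑ ^ p ≠ ∞) : ∫⁻ x, ‖f (c⁻¹ • x)‖ₑ ^ p ≠ ∞ := by
  rw [lint_dil hc (fun x => ‖f x‖ₑ ^ p)]
  exact ENNReal.mul_ne_top ENNReal.ofReal_ne_top hfp

theorem dil_meas {n : ℕ} (c : ℝ) {f : E n → ℂ} (hf : Measurable f) :
    Measurable fun x => f (c⁻¹ • x) := hf.comp (measurable_const_smul _)

theorem Vl_rec (n : ℕ) (hn : 2 ≤ n) {ψ : ℝ → ℝ} (hψ : Bump ψ) (p : ℝ) (hp1 : 1 < p)
    (hp : p ≤ 2 * (n : ℝ) / ((n : ℝ) - 1)) {A : ℝ} (hA : 1 ≤ A)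
    {f : E n → ℂ} (hf : Measurable f) (hfp : ∫⁻ x, ‖f x‖ₑ ^ p ≠ ∞) (l : ℕ) (x : E n) :
    Vl ψ A l f x = Vl ψ A (l + 1) f x +
      (1 / 2 : ℂ) * Vl ψ A l (fun y => f y - f (((1 + 1 / A) ^ (2 ^ l))⁻¹ • y)) x := by
  have hr : 0 < 1 + 1 / A := by positivity
  unfold Vl
  rw [show 2 ^ (l + 1) = 2 ^ l + 2 ^ l by rw [pow_succ]; ring, Finset.sum_range_add]
  have h1 : ∀ i, Tp ψ A 1 (fun y => f (((1 + 1 / A) ^ i)⁻¹ • y) -
      f (((1 + 1 / A) ^ (2 ^ l))⁻¹ • ((1 + 1 / A) ^ i)⁻¹ • y)) x =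
      Tp ψ A 1 (fun y => f (((1 + 1 / A) ^ i)⁻¹ • y)) x -
      Tp ψ A 1 (fun y => f (((1 + 1 / A) ^ (2 ^ l + i))⁻¹ • y)) x := by
    intro i
    have h2 := Tp_sub n hn hψ p hp1 hp hA le_rfl one_le_two (dil_meas ((1 + 1 / A) ^ i) hf)
      (dil_fin (pow_pos hr i) hfp) (dil_meas ((1 + 1 / A) ^ (2 ^ l + i)) hf)
      (dil_fin (pow_pos hr (2 ^ l + i)) hfp) x
    rw [← h2]
    congr 1
    funext y
    rw [smul_smul, ← mul_inv, pow_add]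
  simp only [h1, Finset.sum_sub_distrib]
  rw [pow_succ]
  field_simp
  ring

/-- the norm of the averages -/
theorem Vl_norm (n : ℕ) {ψ : ℝ → ℝ} (hψ : Bump ψ) {p σ κ : ℝ} (hp : 1 ≤ p)
    (H : MultiHyp n ψ p σ κ) : ∃ C : ℝ, 0 < C ∧
    ∀ A : ℝ, 8 ≤ A → ∀ l : ℕ, (1 + 1 / A) ^ (2 ^ l) ≤ 2 → ∀ f : E n → ℂ, Measurable f →
      ∫⁻ x, ‖f x‖ₑ ^ p ≠ ∞ →
      ∫⁻ x, ‖Vl ψ A l f x‖ₑ ^ p ≤
        ENNReal.ofReal (C * (A ^ (p * σ) * (2 ^ l : ℝ) ^ (-(p * κ)) + 1)) * ∫⁻ x, ‖f x‖ₑ ^ p := by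
  obtain ⟨C, hC, hG⟩ := geo_multi n H
  refine ⟨2 ^ n * C, by positivity, fun A hA l hl f hf hfp => ?_⟩
  have hA0 : 0 < A := by linarith
  have hp0 : 0 < p := by linarith
  set r : ℝ := 1 + 1 / A with hr
  have hr1 : 1 ≤ r := by rw [hr]; have : 0 < 1 / A := by positivity
                         linarith
  have hm0 : (0 : ℝ) < 2 ^ l := by positivity
  have h1 : ∀ x, ‖Vl ψ A l f x‖ₑ ^ p ≤ ENNReal.ofReal ((2 ^ l : ℝ)⁻¹) *
      ∑ i ∈ Finset.range (2 ^ l), ‖Tp ψ A (r ^ i) f ((r ^ i)⁻¹ • x)‖ₑ ^ p := by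
    intro x
    unfold Vl
    rw [enorm_mul, ENNReal.mul_rpow_of_nonneg _ _ hp0.le]
    have e1 : ‖((2 : ℂ) ^ l)⁻¹‖ₑ = ENNReal.ofReal ((2 ^ l : ℝ)⁻¹) := by
      rw [← ofReal_norm, norm_inv, norm_pow]; simp
    have e2 : ‖∑ i ∈ Finset.range (2 ^ l), Tp ψ A 1 (fun y => f ((r ^ i)⁻¹ • y)) x‖ₑ ≤
        ∑ i ∈ Finset.range (2 ^ l), ‖Tp ψ A (r ^ i) f ((r ^ i)⁻¹ • x)‖ₑ := by
      refine (enorm_sum_le _ _).trans (Finset.sum_le_sum fun i _ => ?_)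
      rw [Tp_scale ψ A (by positivity) f x]
    have e3 := ENNReal.rpow_sum_le_const_mul_sum_rpow (Finset.range (2 ^ l))
      (fun i => ‖Tp ψ A (r ^ i) f ((r ^ i)⁻¹ • x)‖ₑ) hp
    rw [Finset.card_range] at e3
    have e4 : ENNReal.ofReal ((2 ^ l : ℝ)⁻¹) ^ p * ((2 ^ l : ℕ) : ℝ≥0∞) ^ (p - 1) =
        ENNReal.ofReal ((2 ^ l : ℝ)⁻¹) := by
      have e5 : ((2 ^ l : ℕ) : ℝ≥0∞) = ENNReal.ofReal (2 ^ l : ℝ) := by
        rw [← ENNReal.ofReal_natCast]; push_cast; rfl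
      rw [e5, ENNReal.ofReal_rpow_of_nonneg (by positivity) hp0.le,
        ENNReal.ofReal_rpow_of_nonneg (by positivity) (by linarith),
        ← ENNReal.ofReal_mul (by positivity)]
      congr 1
      rw [Real.inv_rpow hm0.le, Real.rpow_sub hm0, Real.rpow_one]
      have : (2 ^ l : ℝ) ^ p ≠ 0 := by positivity
      field_simp
    rw [e1]
    refine (mul_le_mul' le_rfl ((ENNReal.rpow_le_rpow e2 hp0.le).trans e3)).trans (le_of_eq ?_)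
    rw [← mul_assoc, e4]
  refine (lintegral_mono h1).trans ?_
  have hmeas : ∀ i ∈ Finset.range (2 ^ l), Measurable fun x : E n =>
      ‖Tp ψ A (r ^ i) f ((r ^ i)⁻¹ • x)‖ₑ ^ p := by
    intro i hi
    have hri : r ^ i ≤ 2 := (pow_le_pow_right₀ hr1 (Finset.mem_range.1 hi).le).trans hl
    exact ((Tp_meas hψ hA0 (by positivity) hri hf).comp
      (measurable_const_smul _)).enorm.pow_const _
  rw [lintegral_const_mul' _ _ ENNReal.ofReal_ne_top, lintegral_finsetSum _ hmeas]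
  have h2 : ∀ i ∈ Finset.range (2 ^ l), ∫⁻ x : E n, ‖Tp ψ A (r ^ i) f ((r ^ i)⁻¹ • x)‖ₑ ^ p ≤
      ENNReal.ofReal (2 ^ n) * ∫⁻ x : E n, ‖Tp ψ A (r ^ i) f x‖ₑ ^ p := by
    intro i hi
    have hri : r ^ i ≤ 2 := (pow_le_pow_right₀ hr1 (Finset.mem_range.1 hi).le).trans hl
    rw [lint_dil (by positivity) (fun x => ‖Tp ψ A (r ^ i) f x‖ₑ ^ p)]
    gcongr
  refine (mul_le_mul' le_rfl (Finset.sum_le_sum h2)).trans ?_
  rw [← Finset.mul_sum]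
  refine (mul_le_mul' le_rfl (mul_le_mul' le_rfl (hG A hA (2 ^ l) hl f hf hfp))).trans ?_
  rw [← mul_assoc, ← mul_assoc, ← ENNReal.ofReal_mul (by positivity),
    ← ENNReal.ofReal_mul (by positivity)]
  refine mul_le_mul' (ENNReal.ofReal_le_ofReal ?_) le_rfl
  push_cast
  have e6 : (2 ^ l : ℝ) ^ (1 - p * κ) = 2 ^ l * (2 ^ l : ℝ) ^ (-(p * κ)) := by
    rw [sub_eq_add_neg, Real.rpow_add hm0, Real.rpow_one]
  rw [e6]
  have hne : (2 ^ l : ℝ) ≠ 0 := hm0.ne'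
  refine le_of_eq ?_
  field_simp

end Pool.Agent.Y248.BA
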