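import Mathlib
import Pool.Agent.Y248.BA.Geo
set_option autoImplicit false

/-! # The pieces of functions with some dilation regularity -/

namespace Pool.Agent.Y248.BA

open MeasureTheory Set Metric Complex Filter
open scoped ENNReal NNReal RealInnerProductSpace Topology FourierTransform
open Pool.Agent.H789R2.FR (E sg T sg_finite polar)
open Pool.Agent.H438R2.RZ (Bump)

theorem pow_r {A : ℝ} (hA : 0 < A) (m : ℕ) (hm : (m : ℝ) ≤ A / 2) :
    (1 + 1 / A) ^ m ≤ 1 + 2 * (m : ℝ) / A := by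
  have hx : (m : ℝ) / A ≤ 1 / 2 := by
    rw [div_le_iff₀ hA]; linarith
  have hx0 : 0 ≤ (m : ℝ) / A := by positivity
  have h1 : (1 + 1 / A) ^ m ≤ Real.exp ((m : ℝ) / A) := by
    have h2 : 1 + 1 / A ≤ Real.exp (1 / A) := by
      have := Real.add_one_le_exp (1 / A); linarith
    calc (1 + 1 / A) ^ m ≤ (Real.exp (1 / A)) ^ m := by gcongr
      _ = _ := by rw [← Real.exp_nat_mul]; congr 1; ring
  refine h1.trans ((Real.exp_bound_div_one_sub_of_interval hx0 (by linarith)).trans ?_)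
  rw [div_le_iff₀ (by linarith)]
  have : 2 * (m : ℝ) / A = 2 * ((m : ℝ) / A) := by ring
  rw [this]
  nlinarith

theorem Vl_meas {n : ℕ} {ψ : ℝ → ℝ} (hψ : Bump ψ) {A : ℝ} (hA : 0 < A) (l : ℕ) {f : E n → ℂ}
    (hf : Measurable f) : Measurable (Vl ψ A l f) := by
  unfold Vl
  exact measurable_const.mul (Finset.measurable_sum _ fun i _ =>
    Tp_meas hψ hA one_pos one_le_two (dil_meas _ hf))

theorem sub_fin {n : ℕ} {f g : E n → ℂ} (hf : Measurable f) (hg : Measurable g) {p : ℝ} (hp : 1 ≤ p)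
    (hfp : ∫⁻ x, ‖f x‖ₑ ^ p ≠ ∞) (hgp : ∫⁻ x, ‖g x‖ₑ ^ p ≠ ∞) :
    ∫⁻ x, ‖f x - g x‖ₑ ^ p ≠ ∞ := by
  have h1 : MemLp f (ENNReal.ofReal p) := by
    refine ⟨hf.aestronglyMeasurable, ?_⟩
    rw [eLpNorm_eq_lintegral_rpow_enorm_toReal (by rw [Ne, ENNReal.ofReal_eq_zero]; linarith)
      ENNReal.ofReal_ne_top, ENNReal.toReal_ofReal (by linarith)]
    exact ENNReal.rpow_lt_top_of_nonneg (by positivity) hfp
  have h2 : MemLp g (ENNReal.ofReal p) := by
    refine ⟨hg.aestronglyMeasurable, ?_⟩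
    rw [eLpNorm_eq_lintegral_rpow_enorm_toReal (by rw [Ne, ENNReal.ofReal_eq_zero]; linarith)
      ENNReal.ofReal_ne_top, ENNReal.toReal_ofReal (by linarith)]
    exact ENNReal.rpow_lt_top_of_nonneg (by positivity) hgp
  exact fin_of_memLp (by linarith) (h1.sub h2)

theorem tele (n : ℕ) (hn : 2 ≤ n) {ψ : ℝ → ℝ} (hψ : Bump ψ) (p : ℝ) (hp1 : 1 < p)
    (hp : p ≤ 2 * (n : ℝ) / ((n : ℝ) - 1)) {A : ℝ} (hA : 1 ≤ A)
    {f : E n → ℂ} (hf : Measurable f) (hfp : ∫⁻ x, ‖f x‖ₑ ^ p ≠ ∞) (L : ℕ) :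
    eLpNorm (Tp ψ A 1 f) (ENNReal.ofReal p) volume ≤
      eLpNorm (Vl ψ A L f) (ENNReal.ofReal p) volume + ∑ l ∈ Finset.range L,
        eLpNorm (Vl ψ A l (fun y => f y - f (((1 + 1 / A) ^ (2 ^ l))⁻¹ • y)))
          (ENNReal.ofReal p) volume := by
  have hp1' : 1 ≤ ENNReal.ofReal p := by
    rw [← ENNReal.ofReal_one]; exact ENNReal.ofReal_le_ofReal hp1.le
  have hA0 : 0 < A := by linarith
  induction L with
  | zero => rw [Vl_zero]; simp
  | succ L ih =>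
    refine ih.trans ?_
    rw [Finset.sum_range_succ, add_comm (∑ l ∈ Finset.range L, _), ← add_assoc]
    gcongr
    set g : E n → ℂ := fun y => f y - f (((1 + 1 / A) ^ (2 ^ L))⁻¹ • y) with hg
    have hgm : Measurable g := hf.sub (dil_meas _ hf)
    have h1 : Vl ψ A L f = Vl ψ A (L + 1) f + (1 / 2 : ℂ) • Vl ψ A L g := by
      funext x
      rw [Vl_rec n hn hψ p hp1 hp hA hf hfp L x]
      rfl
    rw [h1]
    refine (eLpNorm_add_le (Vl_meas hψ hA0 _ hf).aestronglyMeasurable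
      ((Vl_meas hψ hA0 _ hgm).const_smul _).aestronglyMeasurable hp1').trans ?_
    gcongr
    rw [eLpNorm_const_smul]
    have h2 : ‖(1 / 2 : ℂ)‖ₑ ≤ 1 := by
      rw [← ofReal_norm, ← ENNReal.ofReal_one]
      refine ENNReal.ofReal_le_ofReal ?_
      norm_num
    calc _ ≤ 1 * eLpNorm (Vl ψ A L g) (ENNReal.ofReal p) volume := by gcongr
      _ = _ := one_mul _

/-- the norm of the averages in terms of `eLpNorm` -/
theorem Vl_eLp (n : ℕ) {ψ : ℝ → ℝ} (hψ : Bump ψ) {p σ κ : ℝ} (hp : 1 ≤ p)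
    (H : MultiHyp n ψ p σ κ) : ∃ C : ℝ, 0 < C ∧
    ∀ A : ℝ, 8 ≤ A → ∀ l : ℕ, (1 + 1 / A) ^ (2 ^ l) ≤ 2 → ∀ f : E n → ℂ, Measurable f →
      ∫⁻ x, ‖f x‖ₑ ^ p ≠ ∞ →
      eLpNorm (Vl ψ A l f) (ENNReal.ofReal p) volume ≤
        ENNReal.ofReal (C * (A ^ σ * (2 ^ l : ℝ) ^ (-κ) + 1)) *
          eLpNorm f (ENNReal.ofReal p) volume := by
  obtain ⟨C, hC, hG⟩ := Vl_norm n hψ hp H
  have hp0 : 0 < p := by linarith
  have h0 : ENNReal.ofReal p ≠ 0 := by
    rw [Ne, ENNReal.ofReal_eq_zero]; linarith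
  refine ⟨C ^ (1 / p), by positivity, fun A hA l hl f hf hfp => ?_⟩
  have hA0 : 0 < A := by linarith
  rw [eLpNorm_eq_lintegral_rpow_enorm_toReal h0 ENNReal.ofReal_ne_top,
    eLpNorm_eq_lintegral_rpow_enorm_toReal h0 ENNReal.ofReal_ne_top,
    ENNReal.toReal_ofReal hp0.le]
  refine (ENNReal.rpow_le_rpow (hG A hA l hl f hf hfp) (by positivity)).trans ?_
  rw [ENNReal.mul_rpow_of_nonneg _ _ (by positivity),
    ENNReal.ofReal_rpow_of_nonneg (by positivity) (by positivity)]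
  refine mul_le_mul' (ENNReal.ofReal_le_ofReal ?_) le_rfl
  rw [Real.mul_rpow hC.le (by positivity)]
  refine mul_le_mul_of_nonneg_left ?_ (by positivity)
  have h1 := Real.rpow_add_le_add_rpow (show 0 ≤ A ^ (p * σ) * (2 ^ l : ℝ) ^ (-(p * κ)) by positivity)
    zero_le_one (show 0 ≤ 1 / p by positivity) (by rw [div_le_one hp0]; exact hp)
  refine h1.trans (le_of_eq ?_)
  rw [Real.one_rpow, Real.mul_rpow (by positivity) (by positivity), ← Real.rpow_mul hA0.le,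
    ← Real.rpow_mul (by positivity)]
  congr 3
  · field_simp
  · field_simp

end Pool.Agent.Y248.BA
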