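import Mathlib
import Pool.Agent.Y248.BA.Tele
set_option autoImplicit false

/-! # Means of functions with some dilation regularity -/

namespace Pool.Agent.Y248.BA

open MeasureTheory Set Metric Complex Filter
open scoped ENNReal NNReal RealInnerProductSpace Topology FourierTransform
open Pool.Agent.H789R2.FR (E sg T sg_finite polar)
open Pool.Agent.H438R2.RZ (Bump)

/-- regularity with respect to dilations -/
def DReg {n : ℕ} (p s Λ : ℝ) (f : E n → ℂ) : Prop :=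
  ∀ c : ℝ, 1 ≤ c → c ≤ 2 → eLpNorm (fun x => f (c • x) - f x) (ENNReal.ofReal p) volume ≤
    ENNReal.ofReal (Λ * (c - 1) ^ s)

theorem DReg.back {n : ℕ} {p s Λ : ℝ} {f : E n → ℂ} (hp : 1 ≤ p) (h : DReg p s Λ f) {c : ℝ}
    (hc1 : 1 ≤ c) (hc2 : c ≤ 2) :
    eLpNorm (fun x => f x - f (c⁻¹ • x)) (ENNReal.ofReal p) volume ≤
      ENNReal.ofReal (2 ^ n * (Λ * (c - 1) ^ s)) := by
  have hc0 : c ≠ 0 := by positivity
  have h1 := eLp_dil_inv hc1 hc2 (fun x => f (c • x) - f x) p hp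
  simp only [smul_smul, mul_inv_cancel₀ hc0, one_smul] at h1
  refine h1.trans ((mul_le_mul' le_rfl (h c hc1 hc2)).trans (le_of_eq ?_))
  rw [ENNReal.ofReal_mul (p := 2 ^ n) (by positivity)]

theorem geo_one {a : ℝ} (ha : a < 0) (L : ℕ) :
    ∑ l ∈ Finset.range L, ((2 : ℝ) ^ l) ^ a ≤ (1 - 2 ^ a)⁻¹ := by
  have h1 : (2 : ℝ) ^ a < 1 := Real.rpow_lt_one_of_one_lt_of_neg (by norm_num) ha
  have h0 : 0 < (2 : ℝ) ^ a := by positivity
  have e : ∀ l : ℕ, ((2 : ℝ) ^ l) ^ a = ((2 : ℝ) ^ a) ^ l := fun l => by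
    rw [← Real.rpow_natCast, ← Real.rpow_natCast, ← Real.rpow_mul (by norm_num),
      ← Real.rpow_mul (by norm_num), mul_comm]
  simp only [e]
  rw [← tsum_geometric_of_lt_one h0.le h1]
  exact (summable_geometric_of_lt_one h0.le h1).sum_le_tsum _ fun i _ => by positivity

theorem geo_two {a : ℝ} (ha : 0 < a) (L : ℕ) :
    ∑ l ∈ Finset.range L, ((2 : ℝ) ^ l) ^ a ≤ (2 ^ a - 1)⁻¹ * (2 ^ L) ^ a := by
  have h1 : 1 < (2 : ℝ) ^ a := Real.one_lt_rpow (by norm_num) ha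
  have e : ∀ l : ℕ, ((2 : ℝ) ^ l) ^ a = ((2 : ℝ) ^ a) ^ l := fun l => by
    rw [← Real.rpow_natCast, ← Real.rpow_natCast, ← Real.rpow_mul (by norm_num),
      ← Real.rpow_mul (by norm_num), mul_comm]
  simp only [e]
  rw [geom_sum_eq h1.ne', inv_mul_eq_div]
  have : 0 < (2 : ℝ) ^ a - 1 := by linarith
  gcongr
  linarith

/-- one piece at unit radius -/
theorem dil_piece (n : ℕ) (hn : 2 ≤ n) {ψ : ℝ → ℝ} (hψ : Bump ψ) (p : ℝ) (hp1 : 1 < p)
    (hp : p ≤ 2 * (n : ℝ) / ((n : ℝ) - 1)) {σ κ s : ℝ} (H : MultiHyp n ψ p σ κ) (hs0 : 0 < s)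
    (hsκ : s < κ) : ∃ C : ℝ, 0 < C ∧ ∀ j : ℕ, 3 ≤ j → ∀ f : E n → ℂ, Measurable f →
      ∫⁻ x, ‖f x‖ₑ ^ p ≠ ∞ → ∀ Λ : ℝ, 0 ≤ Λ → DReg p s Λ f →
      eLpNorm (Tp ψ (2 ^ j) 1 f) (ENNReal.ofReal p) volume ≤
        ENNReal.ofReal (C * (((2 : ℝ) ^ j) ^ (σ - s) + 1)) *
          (eLpNorm f (ENNReal.ofReal p) volume + ENNReal.ofReal Λ) := by
  obtain ⟨C, hC, hG⟩ := Vl_eLp n hψ hp1.le H
  set G1 : ℝ := (1 - 2 ^ (s - κ))⁻¹ with hG1
  set G2 : ℝ := (2 ^ s - 1)⁻¹ with hG2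
  have hG1p : 0 < G1 := by
    rw [hG1, inv_pos, sub_pos]
    exact Real.rpow_lt_one_of_one_lt_of_neg (by norm_num) (by linarith)
  have hG2p : 0 < G2 := by
    rw [hG2, inv_pos, sub_pos]
    exact Real.one_lt_rpow (by norm_num) hs0
  set D1 : ℝ := C * 2 ^ κ with hD1
  set D2 : ℝ := C * 2 ^ n * 2 ^ s * (G1 + G2) with hD2
  have hD1p : 0 < D1 := by positivity
  have hD2p : 0 < D2 := by positivity
  refine ⟨D1 + C + D2, by positivity, fun j hj f hf hfp Λ hΛ hreg => ?_⟩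
  set A : ℝ := 2 ^ j with hA
  have hA8 : 8 ≤ A := by
    calc (8 : ℝ) = 2 ^ 3 := by norm_num
      _ ≤ 2 ^ j := pow_le_pow_right₀ (by norm_num) hj
  have hA0 : 0 < A := by linarith
  obtain ⟨L, rfl⟩ : ∃ L, j = L + 1 := ⟨j - 1, by omega⟩
  have hAL : (2 : ℝ) ^ L = A / 2 := by rw [hA, pow_succ]; ring
  have hr1 : 1 ≤ 1 + 1 / A := by have : 0 < 1 / A := by positivity
                                 linarith
  have hlA : ∀ l, l ≤ L → ((2 ^ l : ℕ) : ℝ) ≤ A / 2 := by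
    intro l hl
    rw [← hAL]; push_cast
    exact pow_le_pow_right₀ (by norm_num) hl
  have hr2 : ∀ l, l ≤ L → (1 + 1 / A) ^ (2 ^ l) ≤ 2 := by
    intro l hl
    refine (pow_r hA0 (2 ^ l) (hlA l hl)).trans ?_
    have : 2 * ((2 ^ l : ℕ) : ℝ) / A ≤ 1 := by
      rw [div_le_one hA0]; linarith [hlA l hl]
    linarith
  have hB : 0 ≤ A ^ (σ - s) := by positivity
  refine (tele n hn hψ p hp1 hp (by linarith) hf hfp L).trans ?_
  -- the longest average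
  have h1 : eLpNorm (Vl ψ A L f) (ENNReal.ofReal p) volume ≤
      ENNReal.ofReal ((D1 + C) * (A ^ (σ - s) + 1)) * eLpNorm f (ENNReal.ofReal p) volume := by
    refine (hG A hA8 L (hr2 L le_rfl) f hf hfp).trans ?_
    refine mul_le_mul' (ENNReal.ofReal_le_ofReal ?_) le_rfl
    have h2 : A ^ σ * (2 ^ L : ℝ) ^ (-κ) ≤ 2 ^ κ * A ^ (σ - s) := by
      rw [hAL, Real.div_rpow hA0.le (by norm_num), Real.rpow_neg (by norm_num : (0:ℝ) ≤ 2), div_inv_eq_mul,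
        ← mul_assoc, ← Real.rpow_add hA0, mul_comm]
      refine mul_le_mul_of_nonneg_left ?_ (by positivity)
      exact Real.rpow_le_rpow_of_exponent_le (by linarith) (by linarith)
    calc C * (A ^ σ * (2 ^ L : ℝ) ^ (-κ) + 1) ≤ C * (2 ^ κ * A ^ (σ - s) + 1) := by gcongr
      _ = D1 * A ^ (σ - s) + C := by rw [hD1]; ring
      _ ≤ _ := by nlinarith [mul_nonneg hC.le hB]
  -- the differences
  have h2 : ∀ l ∈ Finset.range L,
      eLpNorm (Vl ψ A l (fun y => f y - f (((1 + 1 / A) ^ (2 ^ l))⁻¹ • y)))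
          (ENNReal.ofReal p) volume ≤
      ENNReal.ofReal (C * 2 ^ n * 2 ^ s * Λ * (A ^ (σ - s) * (2 ^ l : ℝ) ^ (s - κ) +
        A ^ (-s) * (2 ^ l : ℝ) ^ s)) := by
    intro l hl
    have hl' : l ≤ L := (Finset.mem_range.1 hl).le
    set c : ℝ := (1 + 1 / A) ^ (2 ^ l) with hc
    have hc1 : 1 ≤ c := one_le_pow₀ hr1
    have hc2 : c ≤ 2 := hr2 l hl'
    have hgm : Measurable fun y => f y - f (c⁻¹ • y) := hf.sub (dil_meas _ hf)
    have hgp : ∫⁻ x, ‖f x - f (c⁻¹ • x)‖ₑ ^ p ≠ ∞ :=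
      sub_fin hf (dil_meas _ hf) hp1.le hfp (dil_fin (by linarith) hfp)
    refine (hG A hA8 l hc2 _ hgm hgp).trans ?_
    refine (mul_le_mul' le_rfl (hreg.back hp1.le hc1 hc2)).trans ?_
    rw [← ENNReal.ofReal_mul (by positivity)]
    refine ENNReal.ofReal_le_ofReal ?_
    have hc3 : c - 1 ≤ 2 * (2 ^ l : ℝ) / A := by
      have := pow_r hA0 (2 ^ l) (hlA l hl')
      push_cast at this
      linarith
    have hc4 : (c - 1) ^ s ≤ 2 ^ s * ((2 ^ l : ℝ) ^ s * A ^ (-s)) := by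
      refine (Real.rpow_le_rpow (by linarith) hc3 hs0.le).trans (le_of_eq ?_)
      rw [Real.div_rpow (by positivity) hA0.le, Real.mul_rpow (by norm_num) (by positivity),
        Real.rpow_neg hA0.le, div_eq_mul_inv, mul_assoc]
    have hm0 : (0 : ℝ) < 2 ^ l := by positivity
    calc C * (A ^ σ * (2 ^ l : ℝ) ^ (-κ) + 1) * (2 ^ n * (Λ * (c - 1) ^ s))
        ≤ C * (A ^ σ * (2 ^ l : ℝ) ^ (-κ) + 1) *
          (2 ^ n * (Λ * (2 ^ s * ((2 ^ l : ℝ) ^ s * A ^ (-s))))) := by gcongr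
      _ = C * 2 ^ n * 2 ^ s * Λ * ((A ^ σ * A ^ (-s)) * ((2 ^ l : ℝ) ^ s * (2 ^ l : ℝ) ^ (-κ)) +
        A ^ (-s) * (2 ^ l : ℝ) ^ s) := by ring
      _ = _ := by
        rw [← Real.rpow_add hA0, ← Real.rpow_add hm0, ← sub_eq_add_neg, ← sub_eq_add_neg]
  have h3 : ∑ l ∈ Finset.range L,
        eLpNorm (Vl ψ A l (fun y => f y - f (((1 + 1 / A) ^ (2 ^ l))⁻¹ • y)))
          (ENNReal.ofReal p) volume ≤
      ENNReal.ofReal (D2 * (A ^ (σ - s) + 1)) * ENNReal.ofReal Λ := by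
    refine (Finset.sum_le_sum h2).trans ?_
    rw [← ENNReal.ofReal_sum_of_nonneg fun l _ => by positivity,
      ← ENNReal.ofReal_mul (by positivity), ← Finset.mul_sum, Finset.sum_add_distrib,
      ← Finset.mul_sum, ← Finset.mul_sum]
    refine ENNReal.ofReal_le_ofReal ?_
    have e1 := geo_one (show s - κ < 0 by linarith) L
    have e2 := geo_two hs0 L
    have e3 : A ^ (-s) * ((2 : ℝ) ^ L) ^ s ≤ 1 := by
      rw [hAL, Real.rpow_neg hA0.le]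
      rw [inv_mul_le_iff₀ (by positivity), mul_one]
      exact Real.rpow_le_rpow (by positivity) (by linarith) hs0.le
    have e4 : A ^ (-s) * ∑ l ∈ Finset.range L, ((2 : ℝ) ^ l) ^ s ≤ G2 := by
      calc _ ≤ A ^ (-s) * (G2 * (2 ^ L) ^ s) := by gcongr
        _ = G2 * (A ^ (-s) * (2 ^ L) ^ s) := by ring
        _ ≤ G2 * 1 := by gcongr
        _ = G2 := mul_one _
    calc C * 2 ^ n * 2 ^ s * Λ * (A ^ (σ - s) * ∑ l ∈ Finset.range L, ((2 : ℝ) ^ l) ^ (s - κ) +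
          A ^ (-s) * ∑ l ∈ Finset.range L, ((2 : ℝ) ^ l) ^ s)
        ≤ C * 2 ^ n * 2 ^ s * Λ * (A ^ (σ - s) * G1 + G2) := by gcongr
      _ ≤ C * 2 ^ n * 2 ^ s * Λ * ((G1 + G2) * (A ^ (σ - s) + 1)) := by
        gcongr
        nlinarith [mul_nonneg hG2p.le hB]
      _ = _ := by rw [hD2]; ring
  refine (add_le_add h1 h3).trans ?_
  rw [mul_add (ENNReal.ofReal ((D1 + C + D2) * (A ^ (σ - s) + 1)))]
  refine add_le_add (mul_le_mul' (ENNReal.ofReal_le_ofReal ?_) le_rfl)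
    (mul_le_mul' (ENNReal.ofReal_le_ofReal ?_) le_rfl)
  · exact mul_le_mul_of_nonneg_right (by linarith) (by linarith)
  · exact mul_le_mul_of_nonneg_right (by linarith) (by linarith)

end Pool.Agent.Y248.BA
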