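import Mathlib
import Pool.Agent.Y248.BA.Reg
set_option autoImplicit false

/-! # Means of functions with some dilation regularity: conclusion -/

namespace Pool.Agent.Y248.BA

open MeasureTheory Set Metric Complex Filter
open scoped ENNReal NNReal RealInnerProductSpace Topology FourierTransform
open Pool.Agent.H789R2.FR (E sg T sg_finite polar)
open Pool.Agent.H438R2.RZ (Bump)

theorem DReg.mono {n : ℕ} {p s s' Λ : ℝ} {f : E n → ℂ} (hs' : 0 < s') (hss : s' ≤ s) (hΛ : 0 ≤ Λ)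
    (h : DReg p s Λ f) : DReg p s' Λ f := by
  intro c hc1 hc2
  refine (h c hc1 hc2).trans (ENNReal.ofReal_le_ofReal ?_)
  refine mul_le_mul_of_nonneg_left ?_ hΛ
  rcases hc1.eq_or_lt with h1 | h1
  · rw [← h1, sub_self, Real.zero_rpow (by linarith), Real.zero_rpow (by linarith)]
  · exact Real.rpow_le_rpow_of_exponent_ge (by linarith) (by linarith) hss

/-- each piece is bounded on `L^p`, with a constant -/
theorem Tp_young (n : ℕ) {ψ : ℝ → ℝ} (hψ : Bump ψ) (A R : ℝ) (hA : 1 ≤ A) (hR1 : 1 ≤ R)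
    (hR2 : R ≤ 2) (p : ℝ) (hp : 1 ≤ p) : ∃ C : ℝ, 0 ≤ C ∧ ∀ f : E n → ℂ, Measurable f →
      eLpNorm (Tp ψ A R f) (ENNReal.ofReal p) volume ≤
        ENNReal.ofReal C * eLpNorm f (ENNReal.ofReal p) volume := by
  have hKm : Measurable (Kr (n := n) ψ A R) :=
    (Kr_cont hψ (by linarith) (by linarith) hR2).measurable
  have hp0 : 0 < p := by linarith
  have h0 : ENNReal.ofReal p ≠ 0 := by
    rw [Ne, ENNReal.ofReal_eq_zero]; linarith
  obtain ⟨C, hC, hb⟩ := Kr_crude n hψ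
  have hKi : ∫⁻ w : E n, ‖Kr ψ A R w‖ₑ ≠ ∞ := by
    have h1 : Integrable (Kr (n := n) ψ A R) := by
      refine (Jw_int.const_mul (C * A ^ (n + 1))).mono' hKm.aestronglyMeasurable
        (Eventually.of_forall fun w => hb A R hA hR1 hR2 w)
    exact h1.hasFiniteIntegral.ne
  refine ⟨(∫⁻ w : E n, ‖Kr ψ A R w‖ₑ).toReal, ENNReal.toReal_nonneg, fun f hf => ?_⟩
  rw [ENNReal.ofReal_toReal hKi]
  have h1 : ∀ x, ‖Tp ψ A R f x‖ₑ ≤ ∫⁻ y : E n, ‖Kr ψ A R (x - y)‖ₑ * ‖f y‖ₑ := by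
    intro x
    refine (enorm_integral_le_lintegral_enorm _).trans (lintegral_mono fun y => ?_)
    rw [enorm_mul]
  have h2 := Pool.Agent.H438R2.RZ.R8aux.young (n := n) (fun w => ‖Kr ψ A R w‖ₑ) (fun y => ‖f y‖ₑ)
    hKm.enorm hf.enorm p hp
  have h3 := (lintegral_mono fun x =>
    ENNReal.rpow_le_rpow (h1 x) (by linarith : (0 : ℝ) ≤ p)).trans h2
  rw [eLpNorm_eq_lintegral_rpow_enorm_toReal h0 ENNReal.ofReal_ne_top,
    eLpNorm_eq_lintegral_rpow_enorm_toReal h0 ENNReal.ofReal_ne_top,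
    ENNReal.toReal_ofReal hp0.le]
  refine (ENNReal.rpow_le_rpow h3 (by positivity)).trans (le_of_eq ?_)
  rw [ENNReal.mul_rpow_of_nonneg _ _ (by positivity), ← ENNReal.rpow_mul,
    mul_one_div_cancel hp0.ne', ENNReal.rpow_one]

/-- the mean is at most the sum of its pieces -/
theorem SR_le (n : ℕ) (hn : 2 ≤ n) (δ : ℝ) (hδ : 0 < δ) {ψ : ℝ → ℝ}
    (hψ : Bump ψ) (hd : Dec δ ψ) (p : ℝ) (hp1 : 1 < p) (hp : p ≤ 2 * (n : ℝ) / ((n : ℝ) - 1)) (R : ℝ)
    (hR1 : 1 ≤ R) (hR2 : R ≤ 2) (f : E n → ℂ) (hf : Measurable f) (hfp : ∫⁻ x, ‖f x‖ₑ ^ p ≠ ∞) :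
    AEStronglyMeasurable (SR δ R f) volume ∧
    eLpNorm (SR δ R f) (ENNReal.ofReal p) volume ≤ ∑' j : ℕ,
      ENNReal.ofReal ((2 : ℝ) ^ (-(δ * j))) *
        eLpNorm (Tp ψ (2 ^ j) R f) (ENNReal.ofReal p) volume := by
  have hR0 : 0 < R := by linarith
  have hp0 : 0 < p := by linarith
  have hp1' : 1 ≤ ENNReal.ofReal p := by
    rw [← ENNReal.ofReal_one]; exact ENNReal.ofReal_le_ofReal hp1.le
  have hTm : ∀ j : ℕ, Measurable (Tp ψ (2 ^ j) R f) := fun j =>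
    Tp_meas hψ (by positivity) hR0 hR2 hf
  have h2n : ∀ j : ℕ, 0 ≤ (2 : ℝ) ^ (-(δ * j)) := fun j => Real.rpow_nonneg (by norm_num) _
  set P : ℕ → E n → ℂ := fun J x => ∑ j ∈ Finset.range J,
    (((2 : ℝ) ^ (-(δ * j)) : ℝ) : ℂ) * Tp ψ (2 ^ j) R f x with hP
  have hPm : ∀ J, AEStronglyMeasurable (P J) volume := by
    intro J
    have : Measurable (P J) := by
      rw [hP]
      exact Finset.measurable_sum _ fun j _ => measurable_const.mul (hTm j)
    exact this.aestronglyMeasurable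
  have hPlim : ∀ x, Tendsto (fun J => P J x) atTop (𝓝 (SR δ R f x)) := fun x =>
    (SR_sum n hn δ hδ hψ hd p hp1 hp R hR1 hR2 f hf hfp x).2.tendsto_sum_nat
  have hlim := Lp.eLpNorm_lim_le_liminf_eLpNorm (p := ENNReal.ofReal p) hPm _
    (Filter.Eventually.of_forall hPlim)
  refine ⟨aestronglyMeasurable_of_tendsto_ae atTop hPm (Filter.Eventually.of_forall hPlim),
    hlim.trans ?_⟩
  refine liminf_le_of_le (by isBoundedDefault) ?_
  intro b hb'
  obtain ⟨J', hJ'⟩ := hb'.exists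
  refine hJ'.trans ?_
  calc eLpNorm (P J') (ENNReal.ofReal p) volume
      ≤ ∑ j ∈ Finset.range J', eLpNorm (fun x => (((2 : ℝ) ^ (-(δ * j)) : ℝ) : ℂ) *
          Tp ψ (2 ^ j) R f x) (ENNReal.ofReal p) volume := by
        have h := eLpNorm_sum_le (μ := (volume : Measure (E n))) (p := ENNReal.ofReal p)
          (f := fun (j : ℕ) (x : E n) => (((2 : ℝ) ^ (-(δ * j)) : ℝ) : ℂ) *
          Tp ψ (2 ^ j) R f x) (s := Finset.range J')
          (fun j _ => (measurable_const.mul (hTm j)).aestronglyMeasurable) hp1'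
        have e2 : (∑ j ∈ Finset.range J', fun (x : E n) => (((2 : ℝ) ^ (-(δ * j)) : ℝ) : ℂ) *
          Tp ψ (2 ^ j) R f x) = P J' := by
          funext x; rw [Finset.sum_apply]
        rw [e2] at h
        exact h
    _ ≤ ∑ j ∈ Finset.range J', ENNReal.ofReal ((2 : ℝ) ^ (-(δ * j))) *
        eLpNorm (Tp ψ (2 ^ j) R f) (ENNReal.ofReal p) volume := by
        refine Finset.sum_le_sum fun j _ => ?_
        have h := eLpNorm_const_smul (((2 : ℝ) ^ (-(δ * j)) : ℝ) : ℂ)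
          (Tp ψ (2 ^ j) R f) (ENNReal.ofReal p) (volume : Measure (E n))
        have e3 : ‖(((2 : ℝ) ^ (-(δ * j)) : ℝ) : ℂ)‖ₑ = ENNReal.ofReal ((2 : ℝ) ^ (-(δ * j))) := by
          rw [← ofReal_norm, Complex.norm_real, Real.norm_of_nonneg (h2n j)]
        rw [e3] at h
        exact le_of_eq h
    _ ≤ _ := ENNReal.sum_le_tsum _

/-- unit radius -/
theorem reg_one (n : ℕ) (hn : 2 ≤ n) (δ : ℝ) (hδ : 0 < δ) (p : ℝ)
    (hp1 : 2 * (n : ℝ) / ((n : ℝ) + 1) ≤ p) (hp2 : p ≤ 2 * (n : ℝ) / ((n : ℝ) - 1))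
    (s : ℝ) (hs0 : 0 < s) (hs : sig n p - δ < s) :
    ∃ C : ℝ, 0 < C ∧ ∀ f : E n → ℂ, Measurable f → ∫⁻ x, ‖f x‖ₑ ^ p ≠ ∞ → ∀ Λ : ℝ, 0 ≤ Λ →
      DReg p s Λ f → AEStronglyMeasurable (SR δ 1 f) volume ∧
      eLpNorm (SR δ 1 f) (ENNReal.ofReal p) volume ≤
        ENNReal.ofReal C * (eLpNorm f (ENNReal.ofReal p) volume + ENNReal.ofReal Λ) := by
  have hn2 : (2 : ℝ) ≤ n := by exact_mod_cast hn
  have h1p : 1 < p := by
    refine lt_of_lt_of_le ?_ hp1
    rw [lt_div_iff₀ (by linarith)]; linarith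
  obtain ⟨ψ, hψ, hd⟩ := Pool.Agent.H438R2.RZ.decomp δ hδ
  obtain ⟨hg0, hg1⟩ := gam_pos n hn p hp1 hp2
  set m : ℝ := max (sig n p - δ) 0 with hm
  have hm0 : 0 ≤ m := le_max_right _ _
  have hm1 : sig n p - δ ≤ m := le_max_left _ _
  have hm2 : m < gam n p := max_lt (by linarith) hg0
  set s' : ℝ := min s ((m + gam n p) / 2) with hs'
  have hs'0 : 0 < s' := lt_min hs0 (by linarith)
  have hs's : s' ≤ s := min_le_left _ _
  have hs'g : s' < gam n p := lt_of_le_of_lt (min_le_right _ _) (by linarith)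
  have hs'σ : sig n p - δ < s' := lt_min hs (by linarith)
  set σ : ℝ := (sig n p + s' + δ) / 2 with hσ
  have hσ1 : sig n p < σ := by rw [hσ]; linarith
  have hσ2 : σ - s' - δ < 0 := by rw [hσ]; linarith
  set κ : ℝ := (s' + gam n p) / 2 with hκ
  obtain ⟨C3, hC3, hpc⟩ := dil_piece n hn hψ p h1p hp2
    (multi n hn hψ p hp1 hp2 σ κ hσ1 (by rw [hκ]; linarith)) hs'0 (by rw [hκ]; linarith)
  have hA1 : ∀ j : ℕ, (1 : ℝ) ≤ 2 ^ j := fun j => one_le_pow₀ (by norm_num)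
  choose Cy hCy0 hCy using fun j : ℕ => Tp_young n hψ (2 ^ j) 1 (hA1 j) le_rfl one_le_two p h1p.le
  set D : ℝ := C3 + ∑ j ∈ Finset.range 3, Cy j with hD
  have hDs : 0 ≤ ∑ j ∈ Finset.range 3, Cy j := Finset.sum_nonneg fun j _ => hCy0 j
  have hD0 : 0 < D := by linarith
  have hsum1 := geo_sum (-(σ - s' - δ)) (by linarith)
  have hsum2 := geo_sum δ hδ
  set b : ℕ → ℝ := fun j => D * ((2 : ℝ) ^ (-(-(σ - s' - δ) * j)) + (2 : ℝ) ^ (-(δ * j))) with hb
  have hbs : Summable b := (hsum1.add hsum2).mul_left D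
  have hb0 : ∀ j, 0 < b j := fun j => by positivity
  refine ⟨∑' j, b j, hbs.tsum_pos (fun j => (hb0 j).le) 0 (hb0 0), fun f hf hfp Λ hΛ hreg => ?_⟩
  obtain ⟨hmeas, hle⟩ := SR_le n hn δ hδ hψ hd p h1p hp2 1 le_rfl one_le_two f hf hfp
  refine ⟨hmeas, hle.trans ?_⟩
  set N : ℝ≥0∞ := eLpNorm f (ENNReal.ofReal p) volume + ENNReal.ofReal Λ with hN
  have hj : ∀ j : ℕ, eLpNorm (Tp ψ (2 ^ j) 1 f) (ENNReal.ofReal p) volume ≤
      ENNReal.ofReal (D * (((2 : ℝ) ^ j) ^ (σ - s') + 1)) * N := by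
    intro j
    have h2 : 0 < ((2 : ℝ) ^ j) ^ (σ - s') := by positivity
    by_cases h3 : 3 ≤ j
    · refine (hpc j h3 f hf hfp Λ hΛ (hreg.mono hs'0 hs's hΛ)).trans ?_
      refine mul_le_mul' (ENNReal.ofReal_le_ofReal ?_) le_rfl
      exact mul_le_mul_of_nonneg_right (by linarith) (by linarith)
    · push Not at h3
      refine (hCy j f hf).trans (mul_le_mul' (ENNReal.ofReal_le_ofReal ?_) le_self_add)
      have h4 : Cy j ≤ ∑ j ∈ Finset.range 3, Cy j :=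
        Finset.single_le_sum (f := Cy) (fun i _ => hCy0 i) (Finset.mem_range.2 h3)
      have h5 : 0 ≤ D * ((2 : ℝ) ^ j) ^ (σ - s') := by positivity
      rw [mul_add, mul_one]
      linarith
  calc ∑' j : ℕ, ENNReal.ofReal ((2 : ℝ) ^ (-(δ * j))) *
        eLpNorm (Tp ψ (2 ^ j) 1 f) (ENNReal.ofReal p) volume
      ≤ ∑' j : ℕ, ENNReal.ofReal (b j) * N := by
        refine ENNReal.tsum_le_tsum fun j => ?_
        refine (mul_le_mul' le_rfl (hj j)).trans (le_of_eq ?_)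
        rw [← mul_assoc, ← ENNReal.ofReal_mul (by positivity)]
        congr 2
        have e1 : (2 : ℝ) ^ (-(-(σ - s' - δ) * j)) =
            (2 : ℝ) ^ (-(δ * j)) * ((2 : ℝ) ^ j) ^ (σ - s') := by
          rw [← Real.rpow_natCast 2 j, ← Real.rpow_mul (by norm_num), ← Real.rpow_add (by norm_num)]
          congr 1; ring
        simp only [hb]
        rw [e1]; ring
    _ = ENNReal.ofReal (∑' j, b j) * N := by
        rw [ENNReal.tsum_mul_right, ENNReal.ofReal_tsum_of_nonneg (fun j => (hb0 j).le) hbs]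

/-- all radii -/
theorem reg_SR (n : ℕ) (hn : 2 ≤ n) (δ : ℝ) (hδ : 0 < δ) (p : ℝ)
    (hp1 : 2 * (n : ℝ) / ((n : ℝ) + 1) ≤ p) (hp2 : p ≤ 2 * (n : ℝ) / ((n : ℝ) - 1))
    (s : ℝ) (hs0 : 0 < s) (hs : sig n p - δ < s) :
    ∃ C : ℝ, 0 < C ∧ ∀ f : E n → ℂ, MemLp f (ENNReal.ofReal p) → ∀ Λ : ℝ, 0 ≤ Λ →
      DReg p s Λ f → ∀ R : ℝ, 0 < R → MemLp (SR δ R f) (ENNReal.ofReal p) ∧
      eLpNorm (SR δ R f) (ENNReal.ofReal p) volume ≤
        ENNReal.ofReal C * (eLpNorm f (ENNReal.ofReal p) volume + ENNReal.ofReal Λ) := by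
  have hn2 : (2 : ℝ) ≤ n := by exact_mod_cast hn
  have h1p : 1 < p := by
    refine lt_of_lt_of_le ?_ hp1
    rw [lt_div_iff₀ (by linarith)]; linarith
  have hp0 : 0 < p := by linarith
  obtain ⟨C, hC, hG⟩ := reg_one n hn δ hδ p hp1 hp2 s hs0 hs
  refine ⟨C, hC, fun f hf Λ hΛ hreg R hR => ?_⟩
  have hfm := (memLp_congr_ae hf.1.ae_eq_mk).1 hf
  set g : E n → ℂ := hf.1.mk f with hg
  have hgm : Measurable g := hf.1.stronglyMeasurable_mk.measurable
  have hfg : f =ᵐ[volume] g := hf.1.ae_eq_mk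
  have hSg : SR δ R f = SR δ R g := SR_congr δ R hfg
  have hNg : eLpNorm f (ENNReal.ofReal p) volume = eLpNorm g (ENNReal.ofReal p) volume :=
    eLpNorm_congr_ae hfg
  have hregg : DReg p s Λ g := by
    intro c hc1 hc2
    refine le_trans (le_of_eq (eLpNorm_congr_ae ?_)) (hreg c hc1 hc2)
    have h1 : (fun x => f (c • x)) =ᵐ[volume] fun x => g (c • x) :=
      (Measure.quasiMeasurePreserving_smul volume (show c ≠ 0 by positivity)).ae_eq_comp hfg
    filter_upwards [hfg, h1] with x h2 h3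
    rw [h2, h3]
  rw [hSg, hNg]
  -- scaling
  set g1 : E n → ℂ := fun y => g (R⁻¹ • y) with hg1
  have hg1m : Measurable g1 := dil_meas R hgm
  have hg1p : ∫⁻ x, ‖g1 x‖ₑ ^ p ≠ ∞ := dil_fin hR (fin_of_memLp hp0 hfm)
  set a : ℝ := (R ^ n) ^ (1 / p) with ha
  have ha0 : 0 < a := by positivity
  have hdil : ∀ h : E n → ℂ, eLpNorm (fun x => h (R⁻¹ • x)) (ENNReal.ofReal p) volume =
      ENNReal.ofReal a * eLpNorm h (ENNReal.ofReal p) volume := by
    intro h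
    rw [eLp_dil (inv_pos.2 hR) h p hp0, inv_pow, inv_inv]
  have hg1r : DReg p s (a * Λ) g1 := by
    intro c hc1 hc2
    have e1 : (fun x => g1 (c • x) - g1 x) = fun x =>
        (fun z => g (c • z) - g z) (R⁻¹ • x) := by
      funext x
      simp only [hg1]
      rw [smul_comm R⁻¹ c x]
    rw [e1, mul_assoc, ENNReal.ofReal_mul ha0.le]
    refine (le_of_eq (hdil (fun z => g (c • z) - g z))).trans ?_
    exact mul_le_mul' le_rfl (hregg c hc1 hc2)
  obtain ⟨hm1, hle1⟩ := hG g1 hg1m hg1p (a * Λ) (by positivity) hg1r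
  have hN1 : eLpNorm g1 (ENNReal.ofReal p) volume =
      ENNReal.ofReal a * eLpNorm g (ENNReal.ofReal p) volume := hdil g
  rw [hN1, ENNReal.ofReal_mul ha0.le, ← mul_add] at hle1
  have hS : SR δ R g = fun x => SR δ 1 g1 (R • x) := by
    funext x
    have := SR_scale δ hR one_pos g x
    rwa [mul_one] at this
  have hle : eLpNorm (SR δ R g) (ENNReal.ofReal p) volume ≤
        ENNReal.ofReal C * (eLpNorm g (ENNReal.ofReal p) volume + ENNReal.ofReal Λ) := by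
    rw [hS, eLp_dil hR _ p hp0]
    refine (mul_le_mul' le_rfl hle1).trans (le_of_eq ?_)
    rw [← mul_assoc (ENNReal.ofReal C), mul_comm (ENNReal.ofReal C), mul_assoc (ENNReal.ofReal a),
      ← mul_assoc, ← ENNReal.ofReal_mul (by positivity)]
    have e2 : ((R ^ n)⁻¹) ^ (1 / p) * a = 1 := by
      rw [ha, ← Real.mul_rpow (by positivity) (by positivity), inv_mul_cancel₀ (by positivity),
        Real.one_rpow]
    rw [e2, ENNReal.ofReal_one, one_mul]
  refine ⟨⟨?_, hle.trans_lt ?_⟩, hle⟩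
  · rw [hS]
    exact hm1.comp_quasiMeasurePreserving
      (Measure.quasiMeasurePreserving_smul volume hR.ne')
  · exact ENNReal.mul_lt_top ENNReal.ofReal_lt_top
      (ENNReal.add_lt_top.2 ⟨hfm.2, ENNReal.ofReal_lt_top⟩)

end Pool.Agent.Y248.BA
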